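import Pool.Agent.Helper31.Zim.Cj

/-!
# Elementary abelian subgroups and elements which normalize them
-/

set_option autoImplicit false
set_option linter.unusedSectionVars false

namespace Pool.Agent.Helper31.Zim

open Module Polynomial Pool.Agent.Helper381 Pool.Agent.H185.ZM Pool.Agent.E8helper2.ZB
open scoped Manifold ContDiff

variable {E : Type} [NormedAddCommGroup E] [NormedSpace ℝ E] [FiniteDimensional ℝ E]
  {M : Type} [TopologicalSpace M] [ChartedSpace E M] [IsManifold 𝓘(ℝ, E) ∞ M]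

/-- an element of the kernel -/
theorem absV [CompactSpace M] [T2Space M] [ConnectedSpace M] {p ℓ : ℕ} [Fact p.Prime]
    (hℓp : ℓ.Prime) (hℓ2 : ℓ ≠ 2) (hpl : p ≠ ℓ) {G : Type} [Group G] {a : G → M → M}
    (ha : SmoothAction E a) {A : Type} [AddCommGroup A] [Module (ZMod p) A] [Finite A]
    (ι : Multiplicative A →* G) (hι : Function.Injective ι) (s : G) (hs : s ^ ℓ = 1)
    (T : A →ₗ[ZMod p] A)
    (hTs : ∀ x : A, ι (Multiplicative.ofAdd (T x)) = s⁻¹ * ι (Multiplicative.ofAdd x) * s)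
    (hT1 : T ≠ 1)
    (hβ : ∀ q, 1 ≤ q → q ≤ finrank ℝ E → finrank (ZMod p) (SingularCohomology (ZMod p) M q) <
        orderOf (p : ZMod ℓ) ∨
          CohTriv (ZMod p) (⟨a s, (ha.smooth s).continuous⟩ : C(M, M)) q)
    (hm : finrank ℝ E / 2 + ℓ / p + 1 < ℓ) :
    ∃ y : A, T y ≠ y ∧ ∀ z, a (ι (Multiplicative.ofAdd y)) z = z := by
  classical
  have hTn : ∀ n : ℕ, ∀ x : A, ι (Multiplicative.ofAdd ((T ^ n) x)) =
      (s ^ n)⁻¹ * ι (Multiplicative.ofAdd x) * s ^ n := by
    intro n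
    induction n with
    | zero =>
      intro x
      show ι (Multiplicative.ofAdd x) = _
      rw [pow_zero]
      group
    | succ n ih =>
      intro x
      rw [pow_succ']
      show ι (Multiplicative.ofAdd (T ((T ^ n) x))) = _
      rw [hTs, ih, pow_succ]
      group
  have hTℓ : T ^ ℓ = 1 := by
    apply LinearMap.ext
    intro x
    have h1 : ι (Multiplicative.ofAdd ((T ^ ℓ) x)) = ι (Multiplicative.ofAdd x) := by
      rw [hTn, hs]
      group
    exact hι h1
  obtain ⟨w, K, FK, AK, ζ, hζ, hw, hf⟩ := exists_field hℓp hpl T hTℓ hT1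
  have hℓK : (ℓ : K) ≠ 0 := by
    intro h
    have : CharP K p := charP_of_injective_algebraMap (algebraMap (ZMod p) K).injective p
    have h1 := (CharP.cast_eq_zero_iff K p ℓ).1 h
    exact hpl ((Nat.prime_dvd_prime_iff_eq Fact.out hℓp).1 h1)
  let L : (Fin ℓ → ZMod p) →ₗ[ZMod p] A :=
    ∑ i : Fin ℓ, (LinearMap.proj i : (Fin ℓ → ZMod p) →ₗ[ZMod p] ZMod p).smulRight
      ((T ^ i.val) w)
  have hL : ∀ v, L v = ∑ i : Fin ℓ, v i • (T ^ i.val) w := by
    intro v
    simp only [L, LinearMap.sum_apply, LinearMap.smulRight_apply, LinearMap.proj_apply]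
  have hL1 : ∀ i : Fin ℓ, L (Pi.single i 1) = (T ^ i.val) w := by
    intro i
    rw [hL, Finset.sum_eq_single i]
    · rw [Pi.single_eq_same, one_smul]
    · intro j _ hj
      rw [Pi.single_eq_of_ne hj, zero_smul]
    · intro h
      exact absurd (Finset.mem_univ _) h
  have hL0 : ∀ v, L v = 0 ↔ ∑ i : Fin ℓ, algebraMap (ZMod p) K (v i) * ζ ^ i.val = 0 := by
    intro v
    have h1 := hf (∑ i : Fin ℓ, C (v i) * X ^ i.val)
    have h2 : aeval T (∑ i : Fin ℓ, C (v i) * X ^ i.val) w = L v := by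
      rw [hL, map_sum, LinearMap.sum_apply]
      refine Finset.sum_congr rfl fun i _ => ?_
      rw [map_mul, aeval_C, map_pow, aeval_X]
      show (algebraMap (ZMod p) (Module.End (ZMod p) A) (v i)) ((T ^ i.val) w) = _
      rw [Module.algebraMap_end_apply]
    have h3 : aeval ζ (∑ i : Fin ℓ, C (v i) * X ^ i.val) =
        ∑ i : Fin ℓ, algebraMap (ZMod p) K (v i) * ζ ^ i.val := by
      rw [map_sum]
      refine Finset.sum_congr rfl fun i _ => ?_
      rw [map_mul, aeval_C, map_pow, aeval_X]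
    rw [h2, h3] at h1
    exact h1
  let φ1 : GG p ℓ →* G := ι.comp (AddMonoidHom.toMultiplicative L.toAddMonoidHom)
  have hφ1 : ∀ g, φ1 g = ι (Multiplicative.ofAdd (L (Multiplicative.toAdd g))) := fun g => rfl
  have hπ1 : ∀ i, φ1 (gen p ℓ i) * s = s * φ1 (gen p ℓ (finRotate ℓ i)) := by
    intro i
    have h1 : ∀ i, φ1 (gen p ℓ i) =
        (s ^ i.val)⁻¹ * ι (Multiplicative.ofAdd w) * s ^ i.val := by
      intro i
      rw [hφ1]
      have h2 : Multiplicative.toAdd (gen p ℓ i) = Pi.single i 1 := rfl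
      rw [h2, hL1, hTn]
    have h3 : s ^ (finRotate ℓ i).val = s ^ (i.val + 1) := by
      rw [finRotate_val]
      conv_rhs => rw [← Nat.mod_add_div (i.val + 1) ℓ, pow_add, pow_mul, hs, one_pow, mul_one]
    rw [h1, h1, h3, pow_succ]
    group
  have hconj := E8helper2.ZB.conj_all φ1 s (finRotate ℓ) hπ1
  have hfinT : Finite φ1.range := by
    have : Finite (GG p ℓ) := inferInstanceAs (Finite (Fin ℓ → ZMod p))
    exact Finite.of_surjective _ φ1.rangeRestrict_surjective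
  obtain ⟨P, hP, hTP, hsP⟩ := exists_fin φ1.range s
    (isOfFinOrder_iff_pow_eq_one.2 ⟨ℓ, hℓp.pos, hs⟩)
    (by
      rintro _ ⟨g, rfl⟩
      refine ⟨Multiplicative.ofAdd fun i => g.toAdd (finRotate ℓ i), ?_⟩
      have h1 := hconj (fun i => g.toAdd (finRotate ℓ i))
      simp only [Equiv.apply_symm_apply] at h1
      have h2 : φ1 g = s⁻¹ * φ1 (Multiplicative.ofAdd fun i => g.toAdd (finRotate ℓ i)) * s := h1
      rw [h2]
      group)
    (by
      rintro _ ⟨g, rfl⟩
      exact ⟨Multiplicative.ofAdd fun i => g.toAdd ((finRotate ℓ).symm i), hconj g.toAdd⟩)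
  let φ : GG p ℓ →* P := φ1.codRestrict P (fun g => hTP ⟨g, rfl⟩)
  have key := manF (P := P) (ha.comp P.subtype) φ ⟨s, hsP⟩ hℓp hℓ2 hpl (Subtype.ext hs)
    (finRotate ℓ) (fun i => Subtype.ext (hπ1 i)) K (fun i => (ζ⁻¹) ^ i.val) ζ hζ
    (xi_rel hζ hℓp.pos) hβ hm (fun c h1 h2 => by
      refine conv hℓp.pos hζ hℓK c (fun v hv => ?_) h2
      refine h1 (Multiplicative.ofAdd v) ?_
      apply Subtype.ext
      show ι (Multiplicative.ofAdd (L v)) = 1
      rw [(hL0 v).2 hv, ofAdd_zero, map_one])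
  refine ⟨w, hw, fun z => ?_⟩
  have h1 := key (gen p ℓ ⟨0, hℓp.pos⟩) z
  have h2 : ((φ (gen p ℓ ⟨0, hℓp.pos⟩) : P) : G) = ι (Multiplicative.ofAdd w) := by
    show ι (Multiplicative.ofAdd (L (Pi.single ⟨0, hℓp.pos⟩ 1))) = _
    rw [hL1]
    rfl
  rw [← h2]
  exact h1

/-- the action on an abelian group of exponent `p` by a commuting family -/
theorem absU [CompactSpace M] [T2Space M] [ConnectedSpace M] {p ℓ : ℕ} [Fact p.Prime]
    (hℓp : ℓ.Prime) (hℓ2 : ℓ ≠ 2) (hpl : p ≠ ℓ) {G : Type} [Group G] {a : G → M → M}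
    (ha : SmoothAction E a) {A : Type} [CommGroup A] [Finite A] (hexp : ∀ x : A, x ^ p = 1)
    (ι : A →* G) (hι : Function.Injective ι) (s : G) (hs : s ^ ℓ = 1)
    (T0 : A →* A) (hTs : ∀ x : A, ι (T0 x) = s⁻¹ * ι x * s) (hne : ∃ x, s * ι x ≠ ι x * s)
    (hβ : ∀ q, 1 ≤ q → q ≤ finrank ℝ E → finrank (ZMod p) (SingularCohomology (ZMod p) M q) <
        orderOf (p : ZMod ℓ) ∨
          CohTriv (ZMod p) (⟨a s, (ha.smooth s).continuous⟩ : C(M, M)) q)
    (hm : finrank ℝ E / 2 + ℓ / p + 1 < ℓ) :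
    ∃ y : A, s * ι y ≠ ι y * s ∧ ∀ z, a (ι y) z = z := by
  let _ : Module (ZMod p) (Additive A) := AddCommGroup.zmodModule (n := p) (fun x => by
    have := hexp (Additive.toMul x)
    exact this)
  have : Finite (Additive A) := inferInstanceAs (Finite A)
  let T : Additive A →ₗ[ZMod p] Additive A := (MonoidHom.toAdditive T0).toZModLinearMap p
  let ι' : Multiplicative (Additive A) →* G :=
    { toFun := fun x => ι (Additive.toMul (Multiplicative.toAdd x))
      map_one' := ι.map_one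
      map_mul' := fun x y => ι.map_mul _ _ }
  obtain ⟨y, hy1, hy2⟩ := absV hℓp hℓ2 hpl ha ι' (fun x y h => hι h) s hs T hTs (by
    intro h
    obtain ⟨x, hx⟩ := hne
    apply hx
    have h1 := hTs x
    have h2 : T0 x = x := congrArg (fun L : Additive A →ₗ[ZMod p] Additive A => L x) h
    rw [h2] at h1
    calc s * ι x = s * (s⁻¹ * ι x * s) := by rw [← h1]
      _ = ι x * s := by group) hβ hm
  refine ⟨Additive.toMul y, fun h => hy1 ?_, hy2⟩
  apply Additive.toMul.injective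
  apply hι
  show ι (T0 (Additive.toMul y)) = ι (Additive.toMul y)
  rw [hTs, mul_assoc, ← h]
  group

theorem absW [CompactSpace M] [T2Space M] [ConnectedSpace M] {p ℓ : ℕ} [Fact p.Prime]
    (hℓp : ℓ.Prime) (hℓ2 : ℓ ≠ 2) (hpl : p ≠ ℓ) {G : Type} [Group G] {a : G → M → M}
    (ha : SmoothAction E a) (A : Subgroup G) [Finite A] (hA1 : ∀ x ∈ A, x ^ p = 1)
    (hA2 : ∀ x ∈ A, ∀ y ∈ A, x * y = y * x) (s : G) (hs : s ^ ℓ = 1)
    (hsA : ∀ x ∈ A, s * x * s⁻¹ ∈ A) (hne : ∃ x ∈ A, s * x ≠ x * s)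
    (hβ : ∀ q, 1 ≤ q → q ≤ finrank ℝ E → finrank (ZMod p) (SingularCohomology (ZMod p) M q) <
        orderOf (p : ZMod ℓ) ∨
          CohTriv (ZMod p) (⟨a s, (ha.smooth s).continuous⟩ : C(M, M)) q)
    (hm : finrank ℝ E / 2 + ℓ / p + 1 < ℓ) : ∃ y ∈ A, s * y ≠ y * s ∧ ∀ z, a y z = z := by
  classical
  have hsA' : ∀ x ∈ A, s⁻¹ * x * s ∈ A := by
    have h1 : ∀ n : ℕ, ∀ x ∈ A, s ^ n * x * (s ^ n)⁻¹ ∈ A := by
      intro n
      induction n with
      | zero => intro x hx; simpa using hx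
      | succ n ih =>
        intro x hx
        have e : s ^ (n + 1) * x * (s ^ (n + 1))⁻¹ = s * (s ^ n * x * (s ^ n)⁻¹) * s⁻¹ := by
          rw [pow_succ']
          group
        rw [e]
        exact hsA _ (ih x hx)
    have h2 : s⁻¹ = s ^ (ℓ - 1) := by
      rw [inv_eq_iff_mul_eq_one, ← pow_succ', Nat.sub_add_cancel hℓp.one_le, hs]
    intro x hx
    have h3 := h1 (ℓ - 1) x hx
    rwa [← h2, inv_inv] at h3
  let _ : CommGroup A :=
    { (inferInstance : Group A) with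
      mul_comm := fun x y => Subtype.ext (hA2 x x.2 y y.2) }
  let T0 : A →* A :=
    { toFun := fun x => ⟨s⁻¹ * x * s, hsA' x x.2⟩
      map_one' := Subtype.ext (by
        show s⁻¹ * 1 * s = 1
        group)
      map_mul' := fun x y => Subtype.ext (by
        show s⁻¹ * (x * y) * s = (s⁻¹ * x * s) * (s⁻¹ * y * s)
        group) }
  let ι : A →* G :=
    { toFun := fun x => (x : G)
      map_one' := rfl
      map_mul' := fun _ _ => rfl }
  obtain ⟨y, hy1, hy2⟩ := absU hℓp hℓ2 hpl ha (fun x : A => Subtype.ext (hA1 x x.2)) ι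
    (fun x y h => Subtype.ext h) s hs T0 (fun _ => rfl) (by
      obtain ⟨x, hx, hsx⟩ := hne
      exact ⟨⟨x, hx⟩, hsx⟩) hβ hm
  exact ⟨y, y.2, hy1, hy2⟩

/-- **All commutators are in the kernel.** -/
theorem absK [CompactSpace M] [T2Space M] [ConnectedSpace M] {p ℓ : ℕ} [Fact p.Prime]
    (hℓp : ℓ.Prime) (hℓ2 : ℓ ≠ 2) (hpl : p ≠ ℓ) {G : Type} [Group G] {a : G → M → M}
    (ha : SmoothAction E a) (A : Subgroup G) [Finite A] (hA1 : ∀ x ∈ A, x ^ p = 1)
    (hA2 : ∀ x ∈ A, ∀ y ∈ A, x * y = y * x) (s : G) (hs : s ^ ℓ = 1)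
    (hsA : ∀ x ∈ A, s * x * s⁻¹ ∈ A)
    (hβ : ∀ q, 1 ≤ q → q ≤ finrank ℝ E → finrank (ZMod p) (SingularCohomology (ZMod p) M q) <
        orderOf (p : ZMod ℓ) ∨
          CohTriv (ZMod p) (⟨a s, (ha.smooth s).continuous⟩ : C(M, M)) q)
    (hm : finrank ℝ E / 2 + ℓ / p + 1 < ℓ) (x : G) (hx : x ∈ A) (z : M) :
    a (s * x * s⁻¹ * x⁻¹) z = z := by
  classical
  let N := actKer ha
  let b : G ⧸ N → M → M := fun x y => Quotient.liftOn' x (fun q => a q y)
    (fun q r h => by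
      rw [QuotientGroup.leftRel_apply] at h
      have h1 := h y
      show a q y = a r y
      conv_lhs => rw [← h1]
      rw [← ha.mul, mul_inv_cancel_left])
  have hb : SmoothAction E b :=
    { one := fun y => ha.one y
      mul := fun x q y => by
        refine QuotientGroup.induction_on x fun x => QuotientGroup.induction_on q fun q => ?_
        exact ha.mul x q y
      smooth := fun x => by
        refine QuotientGroup.induction_on x fun x => ?_
        exact ha.smooth x }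
  let f : G →* G ⧸ N := QuotientGroup.mk' N
  have hfin : Finite (A.map f) := by
    have h1 : ((A.map f : Subgroup (G ⧸ N)) : Set (G ⧸ N)) = f '' A := Subgroup.coe_map f A
    have h2 : (f '' (A : Set G)).Finite := (Set.toFinite (A : Set G)).image f
    rw [← h1] at h2
    exact h2.to_subtype
  by_contra hcon
  have hne : ∃ y ∈ A.map f, f s * y ≠ y * f s := by
    refine ⟨f x, ⟨x, hx, rfl⟩, fun h => hcon ?_⟩
    have h1 : f (s * x * s⁻¹ * x⁻¹) = 1 := by
      rw [map_mul, map_mul, map_mul, map_inv, map_inv, h]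
      group
    have h2 : s * x * s⁻¹ * x⁻¹ ∈ N := (QuotientGroup.eq_one_iff _).1 h1
    exact h2 z
  obtain ⟨y, _, hy1, hy2⟩ := absW hℓp hℓ2 hpl hb (A.map f) (by
      rintro _ ⟨x, hx, rfl⟩
      rw [← map_pow, hA1 x hx, map_one]) (by
      rintro _ ⟨x, hx, rfl⟩ _ ⟨y, hy, rfl⟩
      rw [← map_mul, ← map_mul, hA2 x hx y hy]) (f s) (by rw [← map_pow, hs, map_one]) (by
      rintro _ ⟨x, hx, rfl⟩
      refine ⟨s * x * s⁻¹, hsA x hx, ?_⟩
      rw [map_mul, map_mul, map_inv]) hne hβ hm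
  apply hy1
  have h3 : y = 1 := by
    induction y using QuotientGroup.induction_on with
    | _ y =>
      rw [QuotientGroup.eq_one_iff]
      exact hy2
  rw [h3, mul_one, one_mul]

end Pool.Agent.Helper31.Zim
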