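import Pool.Agent.Helper31.Zim.Lin

/-!
# Elements of prime order which are conjugate to their powers
-/

set_option autoImplicit false
set_option linter.unusedSectionVars false

namespace Pool.Agent.Helper31.Zim

open Module Polynomial Pool.Agent.Helper381 Pool.Agent.H185.ZM Pool.Agent.E8helper2.ZB
open scoped Manifold ContDiff

/-- an element of prime order which is conjugate to all its nontrivial powers acts trivially in
representations of small dimension -/
theorem triv_of_conj {k V : Type} [Field k] [AddCommGroup V] [Module k V] [FiniteDimensional k V]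
    {ℓ : ℕ} (hℓp : ℓ.Prime) (hℓ : (ℓ : k) ≠ 0) {G : Type} [Group G] (ρ : G →* (V →ₗ[k] V))
    (s : G) (hs : s ^ ℓ = 1) (hc : ∀ j, 0 < j → j < ℓ → ∃ g, g * s * g⁻¹ = s ^ j)
    (hd : finrank k V < ℓ - 1) : ρ s = 1 := by
  classical
  have hSl : ρ s ^ ℓ = 1 := by rw [← map_pow, hs, map_one]
  set S : V →ₗ[k] V := ρ s with hS
  have hint : IsIntegral k S := Algebra.IsIntegral.isIntegral S
  set μ := minpoly k S with hμ
  have hdvd : μ ∣ X ^ ℓ - C 1 := minpoly.dvd k S (by simp [hSl])
  have hsep : μ.Separable := (separable_X_pow_sub_C (1 : k) hℓ one_ne_zero).of_dvd hdvd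
  have hmon : μ.Monic := minpoly.monic hint
  have hcomp : ∀ j, 0 < j → j < ℓ → μ ∣ μ.comp (X ^ j) := by
    intro j hj0 hj
    apply minpoly.dvd
    obtain ⟨g, hg⟩ := hc j hj0 hj
    have h1 : S ^ j = ρ g * S * ρ g⁻¹ := by
      rw [hS, ← map_pow, ← hg, map_mul, map_mul]
    have h2 : ∀ i : ℕ, (ρ g * S * ρ g⁻¹) ^ i = ρ g * S ^ i * ρ g⁻¹ := by
      intro i
      rw [hS, ← map_mul, ← map_mul, ← map_pow, conj_pow, map_mul, map_mul, map_pow]
    rw [aeval_comp, map_pow, aeval_X, h1, aeval_eq_sum_range]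
    simp only [h2]
    have h3 : ∑ i ∈ Finset.range (μ.natDegree + 1), μ.coeff i • (ρ g * S ^ i * ρ g⁻¹) =
        ρ g * (aeval S μ) * ρ g⁻¹ := by
      rw [aeval_eq_sum_range, Finset.mul_sum, Finset.sum_mul]
      refine Finset.sum_congr rfl fun i _ => ?_
      rw [mul_smul_comm, smul_mul_assoc]
    rw [h3, hμ, minpoly.aeval, mul_zero, zero_mul]
  let K := AlgebraicClosure k
  have hμ0 : μ ≠ 0 := hmon.ne_zero
  have hdeg : μ.natDegree ≤ finrank k V := by
    have h1 := natDegree_le_of_dvd (LinearMap.minpoly_dvd_charpoly S)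
      (LinearMap.charpoly_monic S).ne_zero
    rwa [LinearMap.charpoly_natDegree] at h1
  have hcard : Fintype.card (μ.rootSet K) = μ.natDegree :=
    card_rootSet_eq_natDegree hsep (IsAlgClosed.splits _)
  have hroot : ∀ α ∈ μ.rootSet K, α ^ ℓ = 1 := by
    intro α hα
    obtain ⟨ν, hν⟩ := hdvd
    have h1 : aeval α (X ^ ℓ - C (1 : k)) = 0 := by
      rw [hν, map_mul, (mem_rootSet.1 hα).2, zero_mul]
    have h2 : α ^ ℓ - 1 = 0 := by simpa using h1
    exact sub_eq_zero.1 h2
  by_cases hall : ∀ α ∈ μ.rootSet K, α = 1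
  · have hle : Fintype.card (μ.rootSet K) ≤ 1 := by
      rw [Fintype.card_le_one_iff]
      intro a b
      exact Subtype.ext ((hall a a.2).trans (hall b b.2).symm)
    rw [hcard] at hle
    rcases Nat.le_one_iff_eq_zero_or_eq_one.1 hle with h0 | h1
    · have h2 : μ = 1 := hmon.natDegree_eq_zero.1 h0
      have h3 := minpoly.aeval k S
      rw [← hμ, h2, map_one] at h3
      have h4 : ∀ x : V, x = 0 := fun x => congrArg (fun L : V →ₗ[k] V => L x) h3
      apply LinearMap.ext
      intro x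
      rw [h4 x, map_zero, map_zero]
    · have h2 : μ = X + C (μ.coeff 0) := by
        have := eq_X_add_C_of_natDegree_le_one hle
        rw [show μ.coeff 1 = 1 by
          have := hmon.coeff_natDegree
          rwa [h1] at this, C_1, one_mul] at this
        exact this
      have hne : (μ.rootSet K).Nonempty := by
        rw [← Set.nonempty_coe_sort]
        apply Fintype.card_pos_iff.1
        rw [hcard, h1]
        exact one_pos
      obtain ⟨α, hα⟩ := hne
      have h3 := (mem_rootSet.1 hα).2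
      rw [hall α hα, h2] at h3
      have h4 : (1 : K) + algebraMap k K (μ.coeff 0) = 0 := by simpa using h3
      have h5 : μ.coeff 0 = -1 := by
        apply (algebraMap k K).injective
        rw [map_neg, map_one]
        exact eq_neg_of_add_eq_zero_right h4
      have h6 := minpoly.aeval k S
      rw [← hμ, h2, h5] at h6
      have h7 : S - 1 = 0 := by
        simpa [sub_eq_add_neg] using h6
      exact sub_eq_zero.1 h7
  · exfalso
    push Not at hall
    obtain ⟨α, hα, hα1⟩ := hall
    have hord : orderOf α = ℓ := by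
      have : Fact ℓ.Prime := ⟨hℓp⟩
      exact orderOf_eq_prime (hroot α hα) hα1
    have hmem : ∀ j, 0 < j → j < ℓ → α ^ j ∈ μ.rootSet K := by
      intro j hj0 hj
      rw [mem_rootSet]
      refine ⟨hμ0, ?_⟩
      obtain ⟨ν, hν⟩ := hcomp j hj0 hj
      have h1 : aeval α (μ.comp (X ^ j)) = 0 := by
        rw [hν, map_mul, (mem_rootSet.1 hα).2, zero_mul]
      rwa [aeval_comp, map_pow, aeval_X] at h1
    let f : Fin (ℓ - 1) → μ.rootSet K := fun j => ⟨α ^ (j.val + 1), hmem _ (by omega) (by omega)⟩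
    have hf : Function.Injective f := by
      intro i j hij
      have h1 : α ^ (i.val + 1) = α ^ (j.val + 1) := congrArg Subtype.val hij
      have h2 : i.val + 1 = j.val + 1 :=
        pow_injOn_Iio_orderOf (by rw [Set.mem_Iio, hord]; omega)
          (by rw [Set.mem_Iio, hord]; omega) h1
      exact Fin.ext (by omega)
    have h3 := Fintype.card_le_of_injective f hf
    rw [Fintype.card_fin, hcard] at h3
    omega

variable {E : Type} [NormedAddCommGroup E] [NormedSpace ℝ E] [FiniteDimensional ℝ E]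
  {M : Type} [TopologicalSpace M] [ChartedSpace E M] [IsManifold 𝓘(ℝ, E) ∞ M]

/-- the action on the cohomology of an element which is conjugate to its powers -/
theorem cohTriv_of_conj [CompactSpace M] [T2Space M] [ConnectedSpace M] {p ℓ : ℕ} [Fact p.Prime]
    (hℓp : ℓ.Prime) (hpl : p ≠ ℓ) {G : Type} [Group G] {a : G → M → M} (ha : SmoothAction E a)
    (s : G) (hs : s ^ ℓ = 1) (hc : ∀ j, 0 < j → j < ℓ → ∃ g, g * s * g⁻¹ = s ^ j) (q : ℕ)
    (hd : finrank (ZMod p) (SingularCohomology (ZMod p) M q) < ℓ - 1) :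
    CohTriv (ZMod p) (⟨a s, (ha.smooth s).continuous⟩ : C(M, M)) q := by
  have hfin : Module.Finite (ZMod p) (HH (ZMod p) M q) := (betti_fin E M p).1 q
  have hℓ : (ℓ : ZMod p) ≠ 0 := by
    rw [Ne, ZMod.natCast_eq_zero_iff]
    intro h
    exact hpl ((Nat.prime_dvd_prime_iff_eq Fact.out hℓp).1 h)
  let ρ := repH (ZMod p) (X := M) (fun g : G => (⟨a g, (ha.smooth g).continuous⟩ : C(M, M)))
    (by ext x; exact ha.one x) (fun g h => by ext x; exact ha.mul g h x) q
  have h1 : ρ s = 1 := triv_of_conj (V := HH (ZMod p) M q) hℓp hℓ ρ s hs hc hd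
  have h2 : ρ s⁻¹ = 1 := by
    have h3 : ρ s⁻¹ * ρ s = 1 := by rw [← map_mul, inv_mul_cancel, map_one]
    rwa [h1, mul_one] at h3
  intro b hb
  have h3 : ρ s⁻¹ (cl b hb) = cl b hb := by rw [h2]; rfl
  have h4 : ρ s⁻¹ (cl b hb) =
      pullH (ZMod p) (⟨a (s⁻¹)⁻¹, (ha.smooth _).continuous⟩ : C(M, M)) q (cl b hb) := rfl
  rw [h4, pullH_cl, ← sub_eq_zero, E8helper2.ZB.cl_sub, cl_eq_zero] at h3
  have h5 : (fun σ : Sing M q => b ((⟨a s, (ha.smooth s).continuous⟩ : C(M, M)).comp σ)) - b =
      pull (ZMod p) (⟨a (s⁻¹)⁻¹, (ha.smooth _).continuous⟩ : C(M, M)) q b - b := by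
    have h6 : (⟨a s, (ha.smooth s).continuous⟩ : C(M, M)) =
        ⟨a (s⁻¹)⁻¹, (ha.smooth _).continuous⟩ := by
      ext x
      show a s x = a (s⁻¹)⁻¹ x
      rw [inv_inv]
    rw [h6]
    rfl
  rw [h5]
  exact h3

end Pool.Agent.Helper31.Zim
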