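import Pool.Graph.R_pool_sql_team_seeded_b677cdb8.E8helper2.ZB.CasesW

/-!
# Elementary abelian groups with a cyclic group of automorphisms: powers of `eta`
-/

set_option autoImplicit false
set_option linter.unusedSectionVars false

namespace Pool.Agent.Helper31.Zim

open Module Pool.Agent.E8helper2.ZB

section ops

variable {p k : ℕ} [Fact p.Prime] {K : Type} [Field K] [Algebra (ZMod p) K]

/-- `eta ^ j` and `eta ^ (p - j)`, alternating -/
noncomputable def tj (p : ℕ) {k : ℕ} {K : Type} [Field K] (X : Type) [MulAction (GG p k) X]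
    (ξ : Fin k → K) (j q : ℕ) : (X → K) →ₗ[K] (X → K) :=
  (eta p X ξ) ^ (if Even q then j else p - j)

/-- the weights -/
def wj (p j q : ℕ) : ℕ := p * (q / 2) + (if Even q then 0 else j)

theorem wj_succ {p j : ℕ} (hj : j ≤ p) (q : ℕ) :
    wj p j (q + 1) = wj p j q + (if Even q then j else p - j) := by
  unfold wj
  rcases Nat.even_or_odd q with ⟨m, rfl⟩ | ⟨m, rfl⟩
  · have e1 : (m + m + 1) / 2 = m := by omega
    have e2 : (m + m) / 2 = m := by omega
    have h1 : ¬ Even (m + m + 1) := by rw [Nat.not_even_iff_odd]; exact ⟨m, by ring⟩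
    have h2 : Even (m + m) := ⟨m, rfl⟩
    rw [if_neg h1, if_pos h2, if_pos h2, e1, e2]
    omega
  · have e1 : (2 * m + 1 + 1) / 2 = m + 1 := by omega
    have e2 : (2 * m + 1) / 2 = m := by omega
    have h1 : ¬ Even (2 * m + 1) := by rw [Nat.not_even_iff_odd]; exact ⟨m, rfl⟩
    rw [if_pos ⟨m + 1, by ring⟩, if_neg h1, if_neg h1, e1, e2, mul_add, mul_one]
    omega

theorem wj_even (p j k : ℕ) : wj p j (2 * k) = p * k := by
  unfold wj
  rw [if_pos ⟨k, by ring⟩, show 2 * k / 2 = k by omega, add_zero]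

theorem wj_odd (p j k : ℕ) : wj p j (2 * k + 1) = p * k + j := by
  unfold wj
  rw [if_neg (by rw [Nat.not_even_iff_odd]; exact ⟨k, rfl⟩), show (2 * k + 1) / 2 = k by omega]

theorem tj_add_two {X : Type} [MulAction (GG p k) X] (ξ : Fin k → K) (j q : ℕ) :
    tj p X ξ j (q + 2) = tj p X ξ j q := by
  unfold tj
  simp only [Nat.even_add, even_two, iff_true]

theorem tj_tj {X : Type} [MulAction (GG p k) X] (ξ : Fin k → K) {j : ℕ} (hj : j ≤ p) (q : ℕ)
    (f : X → K) : tj p X ξ j (q + 1) (tj p X ξ j q f) = 0 := by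
  have h : (eta p X ξ) ^ (if Even (q + 1) then j else p - j) *
      (eta p X ξ) ^ (if Even q then j else p - j) = 0 := by
    rw [← pow_add]
    have e : (if Even (q + 1) then j else p - j) + (if Even q then j else p - j) = p := by
      by_cases hq : Even q
      · rw [if_neg (by rw [Nat.even_add_one]; exact fun h => h hq), if_pos hq]
        omega
      · rw [if_pos (by rw [Nat.even_add_one]; exact hq), if_neg hq]
        omega
    rw [e, eta_pow_p]
  exact LinearMap.congr_fun h f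

theorem tj_comm {X Y : Type} [MulAction (GG p k) X] [MulAction (GG p k) Y] [Fintype X]
    (ξ : Fin k → K) (A : Matrix Y X (ZMod p))
    (hA : ∀ (g : GG p k) y x, A (g • y) (g • x) = A y x) (j q : ℕ) (f : X → K) :
    ex K A (tj p X ξ j q f) = tj p Y ξ j q (ex K A f) :=
  eta_pow_comm ξ A hA _ f

theorem pb_tj {X : Type} [MulAction (GG p k) X] (s : X → X) (π : Equiv.Perm (Fin k))
    (hπ : ∀ i x, gen p k i • s x = s (gen p k (π i) • x)) (ξ : Fin k → K) (ζ : K)
    (hξ : ∀ i, ξ i = ζ * ξ (π i)) (j q : ℕ) (f : X → K) :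
    pb K s (tj p X ξ j q f) = ζ ^ (if Even q then j else p - j) • tj p X ξ j q (pb K s f) :=
  pb_eta_pow s π hπ ξ ζ hξ _ f

theorem exact_pow {V : Type} [AddCommGroup V] [Module K V] (η : Module.End K V) {p : ℕ}
    (h : ∀ f, (η ^ (p - 1)) f = 0 → ∃ g, η g = f) {a b : ℕ} (hab : a + b = p) (f : V)
    (hf : (η ^ a) f = 0) : ∃ g, (η ^ b) g = f := by
  have key : ∀ i, i ≤ b → ∃ g, (η ^ i) g = f := by
    intro i
    induction i with
    | zero => intro _; exact ⟨f, rfl⟩
    | succ i ih =>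
      intro hi
      obtain ⟨w, hw⟩ := ih (by omega)
      have h1 : (η ^ (p - 1)) w = 0 := by
        have e : p - 1 = (p - 1 - (a + i)) + (a + i) := by omega
        rw [e, pow_add, Module.End.mul_apply, pow_add η a i, Module.End.mul_apply, hw, hf, map_zero]
      obtain ⟨g, hg⟩ := h w h1
      exact ⟨g, by rw [pow_succ, Module.End.mul_apply, hg, hw]⟩
  exact key b le_rfl

end ops

section part1

variable {p k : ℕ} {X : ℕ → Type} [∀ q, Fintype (X q)] [∀ q, DecidableEq (X q)]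
  [∀ q, MulAction (GG p k) (X q)] [Fact p.Prime]

/-- **Weights, first part: existence of simplices with large isotropy groups.** -/
theorem core1 (hEX : S_EX) (K : Type) [Field K] [Algebra (ZMod p) K] (ξ : Fin k → K)
    (bd : ∀ q, Matrix (X q) (X (q + 1)) (ZMod p)) (hbd : ∀ q, bd q * bd (q + 1) = 0)
    (hequi : ∀ q (g : GG p k) τ σ, bd q (g • τ) (g • σ) = bd q τ σ) (x0 : X 0)
    (h0 : ∀ x y : X 0, x = y) (v : X 1) (hv : ∀ v, bd 0 x0 v = 1) (N : ℕ)
    (hN : ∀ q, N ≤ q → IsEmpty (X (q + 1))) (s : ∀ q, X q ≃ X q) {ℓ : ℕ}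
    (hs : ∀ q x, (s q)^[ℓ] x = x) (hsbd : ∀ q τ σ, bd q (s q τ) (s (q + 1) σ) = bd q τ σ)
    (π : Equiv.Perm (Fin k)) (hπ : ∀ q i x, gen p k i • s q x = s q (gen p k (π i) • x))
    (ζ : K) (hζ : ζ ^ ℓ = 1) (hℓ : (ℓ : K) ≠ 0) (hξ : ∀ i, ξ i = ζ * ξ (π i)) (j : ℕ)
    (hj1 : 1 ≤ j) (hj2 : j < p)
    (hE : ∀ q (y : X (q + 1) → K), ex K (bd q) y = 0 →
      pb K (s (q + 1)) y = ζ ^ wj p j (q + 1) • y → ∃ z, ex K (bd (q + 1)) z = y) :
    ∃ q, ∃ σ : X (q + 1), ∀ χ : Fin k → ZMod p,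
      (∀ g : GG p k, g • σ = σ → ∑ i, χ i * g.toAdd i = 0) →
        ∑ i, algebraMap (ZMod p) K (χ i) * ξ i = 0 := by
  classical
  have hζw : ∀ w, (ζ ^ w) ^ ℓ = 1 := by
    intro w
    rw [← pow_mul, mul_comm, pow_mul, hζ, one_pow]
  have heta0 : eta p (X 0) ξ = 0 := eta_triv ξ h0
  have htj0 : ∀ q, tj p (X 0) ξ j q = 0 := by
    intro q
    unfold tj
    rw [heta0, zero_pow]
    split_ifs <;> omega
  -- one step
  have step : ∀ q (a : X (q + 1) → K), pb K (s (q + 1)) a = ζ ^ wj p j q • a →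
      ex K (bd q) (tj p (X (q + 1)) ξ j q a) = 0 →
      ∃ b : X (q + 2) → K, pb K (s (q + 2)) b = ζ ^ wj p j (q + 1) • b ∧
        ex K (bd (q + 1)) b = tj p (X (q + 1)) ξ j q a := by
    intro q a ha hcyc
    have hy : pb K (s (q + 1)) (tj p (X (q + 1)) ξ j q a) =
        ζ ^ wj p j (q + 1) • tj p (X (q + 1)) ξ j q a := by
      rw [pb_tj (s (q + 1)) π (hπ (q + 1)) ξ ζ hξ, ha, map_smul, smul_smul, ← pow_add,
        wj_succ hj2.le, add_comm (wj p j q)]
    obtain ⟨z, hz⟩ := hE q _ hcyc hy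
    refine ⟨Pr (s (q + 2)) ℓ (ζ ^ wj p j (q + 1)) z,
      Pr_eig (s (q + 2)) (hs (q + 2)) (hζw _) hℓ z, ?_⟩
    rw [Pr_ex (s (q + 2)) (s (q + 1)) (bd (q + 1)) (fun y x => hsbd (q + 1) y x), hz]
    exact Pr_of_eig _ (hζw _) hℓ _ hy
  have hcyc0 : ∀ a : X 1 → K, ex K (bd 0) (tj p (X 1) ξ j 0 a) = 0 := by
    intro a
    rw [tj_comm ξ (bd 0) (hequi 0), htj0]
    rfl
  have hex : ∃ L : ∀ q, X (q + 1) → K, L 0 = Pr (s 1) ℓ 1 (Pi.single v 1) ∧
      ∀ q, ex K (bd (q + 1)) (L (q + 1)) = tj p (X (q + 1)) ξ j q (L q) := by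
    let St : ℕ → Type := fun q => {a : X (q + 1) → K // pb K (s (q + 1)) a = ζ ^ wj p j q • a ∧
      ex K (bd q) (tj p (X (q + 1)) ξ j q a) = 0}
    have hst : ∀ q (a : St q), ∃ b : St (q + 1), ex K (bd (q + 1)) b.1 =
        tj p (X (q + 1)) ξ j q a.1 := by
      intro q a
      obtain ⟨b, hb, hb'⟩ := step q a.1 a.2.1 a.2.2
      refine ⟨⟨b, hb, ?_⟩, hb'⟩
      rw [tj_comm ξ (bd (q + 1)) (hequi (q + 1)), hb', tj_tj ξ hj2.le]
    choose nx hnx using hst
    let a0 : St 0 := ⟨Pr (s 1) ℓ 1 (Pi.single v 1), by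
      have h1 : wj p j 0 = 0 := rfl
      rw [h1, pow_zero]
      exact Pr_eig (s 1) (hs 1) (one_pow _) hℓ _, hcyc0 _⟩
    let L : ∀ q, St q := fun q => Nat.rec a0 (fun q a => nx q a) q
    exact ⟨fun q => (L q).1, rfl, fun q => hnx q (L q)⟩
  obtain ⟨L, hL0, hL⟩ := hex
  have hne : ex K (bd 0) (L 0) ≠ 0 := by
    rw [hL0, Pr_ex (s 1) (s 0) (bd 0) (fun y x => hsbd 0 y x)]
    have h1 : pb K (s 0) (ex K (bd 0) (Pi.single v 1)) = (1 : K) • ex K (bd 0) (Pi.single v 1) := by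
      funext y
      rw [pb_apply, one_smul, h0 (s 0 y) y]
    rw [Pr_of_eig (s 0) (one_pow _) hℓ _ h1]
    intro h
    have h2 : ex K (bd 0) (Pi.single v 1) x0 = 1 := by
      rw [ex_apply, Finset.sum_eq_single v]
      · rw [hv, map_one, one_mul]
        simp
      · intro x _ hx
        rw [Pi.single_eq_of_ne hx, mul_zero]
      · intro h
        exact absurd (Finset.mem_univ _) h
    rw [h] at h2
    exact zero_ne_one h2
  by_contra hcon
  push Not at hcon
  have hker : ∀ q i (f : X (q + 1) → K), tj p (X (q + 1)) ξ j i f = 0 →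
      ∃ g, tj p (X (q + 1)) ξ j (i + 1) g = f := by
    intro q i f hf
    have h1 := (hEX p k K (X (q + 1)) ξ (fun σ => by
      obtain ⟨χ, h1, h2⟩ := hcon q σ
      exact ⟨χ, h1, h2⟩)).2
    refine exact_pow (eta p (X (q + 1)) ξ) h1 ?_ f hf
    by_cases hi : Even i
    · rw [if_pos hi, if_neg (by rw [Nat.even_add_one]; exact fun h => h hi)]
      omega
    · rw [if_neg hi, if_pos (by rw [Nat.even_add_one]; exact hi)]
      omega
  have hbb : ∀ q (f : X (q + 2) → K), ex K (bd q) (ex K (bd (q + 1)) f) = 0 := by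
    intro q f
    rw [← ex_mul, hbd, ex_zero]
  -- descent
  have hdesc : ∀ i q, N ≤ q + i → ∃ (μ : X (q + 1) → K) (ν : X (q + 2) → K),
      L q = tj p (X (q + 1)) ξ j (q + 1) μ + ex K (bd (q + 1)) ν := by
    intro i
    induction i with
    | zero =>
      intro q hq
      have := hN q (by omega)
      exact ⟨0, 0, funext fun x => isEmptyElim x⟩
    | succ i ih =>
      intro q hq
      obtain ⟨μ, ν, h⟩ := ih (q + 1) (by omega)
      have h1 := hL q
      have e : tj p (X (q + 1)) ξ j (q + 1 + 1) = tj p (X (q + 1)) ξ j q := tj_add_two ξ j q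
      rw [h, map_add, hbb (q + 1), add_zero, tj_comm ξ (bd (q + 1)) (hequi (q + 1)), e] at h1
      have h2 : tj p (X (q + 1)) ξ j q (L q - ex K (bd (q + 1)) μ) = 0 := by
        rw [map_sub, h1, sub_self]
      obtain ⟨μ', h3⟩ := hker q q _ h2
      exact ⟨μ', μ, by rw [h3]; abel⟩
  obtain ⟨μ, ν, h⟩ := hdesc N 0 (by omega)
  apply hne
  rw [h, map_add, hbb 0, add_zero, tj_comm ξ (bd 0) (hequi 0), htj0]
  rfl

end part1

section part2

variable {p k : ℕ} [Fact p.Prime] {K : Type} [Field K] [Algebra (ZMod p) K]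

/-- the points which are fixed by the whole group -/
def FixP (p k : ℕ) (X : Type) [MulAction (GG p k) X] : Set X := {σ | ∀ g : GG p k, g • σ = σ}

/-- the functions which vanish at the points which are not fixed -/
def FS (p k : ℕ) (K : Type) [Field K] (X : Type) [MulAction (GG p k) X] : Submodule K (X → K) where
  carrier := {f | ∀ σ, σ ∉ FixP p k X → f σ = 0}
  add_mem' := fun {f g} hf hg σ h => by rw [Pi.add_apply, hf σ h, hg σ h, add_zero]
  zero_mem' := fun σ h => rfl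
  smul_mem' := fun c f hf σ h => by rw [Pi.smul_apply, hf σ h, smul_zero]

theorem fix_smul {X : Type} [MulAction (GG p k) X] {σ : X} (g : GG p k)
    (h : g • σ ∈ FixP p k X) : σ ∈ FixP p k X := by
  have h1 : g⁻¹ • (g • σ) = g • σ := h g⁻¹
  rw [inv_smul_smul] at h1
  rw [h1]
  exact h

theorem eta_FS {X : Type} [MulAction (GG p k) X] (ξ : Fin k → K) {f : X → K}
    (hf : f ∈ FS p k K X) : eta p X ξ f = 0 := by
  funext σ
  rw [eta_apply]
  refine Finset.sum_eq_zero fun i _ => ?_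
  by_cases h : σ ∈ FixP p k X
  · rw [h, sub_self, mul_zero]
  · rw [hf σ h, hf _ (fun h1 => h (fix_smul _ h1)), sub_self, mul_zero]

/-- the functions which vanish at the fixed points -/
def CS (p k : ℕ) (K : Type) [Field K] (X : Type) [MulAction (GG p k) X] : Submodule K (X → K) where
  carrier := {f | ∀ σ, σ ∈ FixP p k X → f σ = 0}
  add_mem' := fun {f g} hf hg σ h => by rw [Pi.add_apply, hf σ h, hg σ h, add_zero]
  zero_mem' := fun σ h => rfl
  smul_mem' := fun c f hf σ h => by rw [Pi.smul_apply, hf σ h, smul_zero]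

theorem eta_CS {X : Type} [MulAction (GG p k) X] (ξ : Fin k → K) (f : X → K) :
    eta p X ξ f ∈ CS p k K X := by
  intro σ h
  rw [eta_apply]
  refine Finset.sum_eq_zero fun i _ => ?_
  rw [h, sub_self, mul_zero]

theorem eta_pow_CS {X : Type} [MulAction (GG p k) X] (ξ : Fin k → K) {n : ℕ} (hn : 1 ≤ n)
    (f : X → K) : ((eta p X ξ) ^ n) f ∈ CS p k K X := by
  obtain ⟨m, rfl⟩ : ∃ m, n = m + 1 := ⟨n - 1, by omega⟩
  rw [pow_succ', Module.End.mul_apply]
  exact eta_CS ξ _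

theorem eta_pow_FS {X : Type} [MulAction (GG p k) X] (ξ : Fin k → K) {n : ℕ} (hn : 1 ≤ n)
    {f : X → K} (hf : f ∈ FS p k K X) : ((eta p X ξ) ^ n) f = 0 := by
  obtain ⟨m, rfl⟩ : ∃ m, n = m + 1 := ⟨n - 1, by omega⟩
  rw [pow_succ, Module.End.mul_apply, eta_FS ξ hf, map_zero]

theorem FS_inf_CS {X : Type} [MulAction (GG p k) X] {f : X → K} (h1 : f ∈ FS p k K X)
    (h2 : f ∈ CS p k K X) : f = 0 := by
  funext σ
  by_cases h : σ ∈ FixP p k X
  · exact h2 σ h
  · exact h1 σ h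

theorem split_FC {X : Type} [MulAction (GG p k) X] (f : X → K) :
    ∃ u ∈ FS p k K X, ∃ v ∈ CS p k K X, f = u + v := by
  classical
  refine ⟨fun σ => if σ ∈ FixP p k X then f σ else 0, fun σ h => if_neg h,
    fun σ => if σ ∈ FixP p k X then 0 else f σ, fun σ h => if_pos h, ?_⟩
  funext σ
  rw [Pi.add_apply]
  by_cases h : σ ∈ FixP p k X
  · rw [if_pos h, if_pos h, add_zero]
  · rw [if_neg h, if_neg h, zero_add]

/-- the action on the complement of the fixed points -/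
@[instance_reducible]
def actC (p k : ℕ) [Fact p.Prime] (X : Type) [MulAction (GG p k) X] :
    MulAction (GG p k) {σ : X // σ ∉ FixP p k X} where
  smul g σ := ⟨g • σ.1, fun h => σ.2 (fix_smul g h)⟩
  one_smul σ := Subtype.ext (one_smul _ _)
  mul_smul g h σ := Subtype.ext (mul_smul _ _ _)

/-- exactness on the complement of the fixed points -/
theorem exact_CS (hEX : S_EX) {X : Type} [MulAction (GG p k) X] (ξ : Fin k → K)
    (hX : ∀ σ : X, σ ∉ FixP p k X → ∃ χ : Fin k → ZMod p,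
      (∀ g : GG p k, g • σ = σ → ∑ i, χ i * g.toAdd i = 0) ∧
        ∑ i, algebraMap (ZMod p) K (χ i) * ξ i ≠ 0) {a b : ℕ} (hab : a + b = p)
    {f : X → K} (hf : f ∈ CS p k K X) (h0 : ((eta p X ξ) ^ a) f = 0) :
    ∃ g ∈ CS p k K X, ((eta p X ξ) ^ b) g = f := by
  classical
  let Y := {σ : X // σ ∉ FixP p k X}
  let _ : MulAction (GG p k) Y := actC p k X
  let res : (X → K) → (Y → K) := fun f σ => f σ.1
  have hres : ∀ (n : ℕ) (f : X → K), res (((eta p X ξ) ^ n) f) = ((eta p Y ξ) ^ n) (res f) := by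
    intro n
    induction n with
    | zero => intro f; rfl
    | succ n ih =>
      intro f
      rw [pow_succ, pow_succ, Module.End.mul_apply, Module.End.mul_apply, ih]
      rfl
  have h1 := (hEX p k K Y ξ (fun σ => by
    obtain ⟨χ, h1, h2⟩ := hX σ.1 σ.2
    exact ⟨χ, fun g hg => h1 g (congrArg Subtype.val hg), h2⟩)).2
  obtain ⟨g, hg⟩ := exact_pow (eta p Y ξ) h1 hab (res f) (by
    rw [← hres, h0]
    rfl)
  let g' : X → K := fun σ => if h : σ ∉ FixP p k X then g ⟨σ, h⟩ else 0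
  have hg' : g' ∈ CS p k K X := fun σ h => dif_neg (fun h' => h' h)
  have hr : res g' = g := funext fun σ => dif_pos σ.2
  have hb : 1 ≤ b ∨ b = 0 := by omega
  rcases hb with hb | hb
  · refine ⟨g', hg', ?_⟩
    have h2 : ((eta p X ξ) ^ b) g' - f ∈ CS p k K X :=
      (CS p k K X).sub_mem (eta_pow_CS ξ hb _) hf
    have h3 : ((eta p X ξ) ^ b) g' - f ∈ FS p k K X → ((eta p X ξ) ^ b) g' = f := fun h =>
      sub_eq_zero.1 (FS_inf_CS h h2)
    apply h3
    intro σ hσ
    have h4 := congrFun ((hres b g').trans (by rw [hr, hg])) ⟨σ, hσ⟩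
    have h5 : ((eta p X ξ) ^ b) g' σ = f σ := h4
    rw [Pi.sub_apply, h5, sub_self]
  · subst hb
    exact ⟨f, hf, rfl⟩

end part2

end Pool.Agent.Helper31.Zim
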