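import Pool.Agent.Helper31.Zim.Core

/-!
# Weights, second part: functions on the set of the components of the fixed point set
-/

set_option autoImplicit false
set_option linter.unusedSectionVars false

namespace Pool.Agent.Helper31.Zim

open Module Pool.Agent.E8helper2.ZB

theorem gen_prod {p k : ℕ} [Fact p.Prime] (v : Fin k → ZMod p) :
    (Multiplicative.ofAdd v : GG p k) = ∏ i, gen p k i ^ (v i).val := by
  have h16 : v = ∑ i, (v i).val • (Pi.single i 1 : Fin k → ZMod p) := by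
    funext j
    rw [Finset.sum_apply, Finset.sum_eq_single j]
    · simp
    · intro i _ hij
      simp [Pi.single_eq_of_ne (Ne.symm hij)]
    · intro h17
      exact absurd (Finset.mem_univ _) h17
  conv_lhs => rw [h16]
  rw [ofAdd_sum]
  rfl

theorem mem_of_gens {p k : ℕ} [Fact p.Prime] (H : Subgroup (GG p k)) (h : ∀ i, gen p k i ∈ H)
    (g : GG p k) : g ∈ H := by
  have h1 : g = ∏ i, gen p k i ^ (g.toAdd i).val := gen_prod g.toAdd
  rw [h1]
  exact Subgroup.prod_mem _ fun i _ => Subgroup.pow_mem _ (h i) _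

theorem fixP_of_gens {p k : ℕ} [Fact p.Prime] {X : Type} [MulAction (GG p k) X] {σ : X}
    (h : ∀ i, gen p k i • σ = σ) : σ ∈ FixP p k X :=
  fun g => mem_of_gens (MulAction.stabilizer (GG p k) σ) h g

theorem fixP_of_map {p k : ℕ} [Fact p.Prime] {X : Type} [MulAction (GG p k) X] (s : X ≃ X)
    (π : Equiv.Perm (Fin k)) (hπ : ∀ i x, gen p k i • s x = s (gen p k (π i) • x)) {x : X}
    (h : s x ∈ FixP p k X) : x ∈ FixP p k X := by
  refine fixP_of_gens fun i => ?_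
  have h1 := hπ (π.symm i) x
  rw [Equiv.apply_symm_apply, h (gen p k (π.symm i))] at h1
  exact (s.injective h1).symm

theorem fixP_map {p k : ℕ} [Fact p.Prime] {X : Type} [MulAction (GG p k) X] (s : X ≃ X)
    (π : Equiv.Perm (Fin k)) (hπ : ∀ i x, gen p k i • s x = s (gen p k (π i) • x)) {x : X}
    (h : x ∈ FixP p k X) : s x ∈ FixP p k X := by
  refine fixP_of_gens fun i => ?_
  rw [hπ, h]

section part2

variable {p k : ℕ} {X : ℕ → Type} [∀ q, Fintype (X q)] [∀ q, DecidableEq (X q)]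
  [∀ q, MulAction (GG p k) (X q)] [Fact p.Prime]

theorem ex_FS (K : Type) [Field K] [Algebra (ZMod p) K]
    (bd : ∀ q, Matrix (X q) (X (q + 1)) (ZMod p))
    (hface : ∀ q τ σ, bd (q + 1) τ σ ≠ 0 → σ ∈ FixP p k (X (q + 2)) → τ ∈ FixP p k (X (q + 1)))
    (q : ℕ) {r : X (q + 2) → K} (hr : r ∈ FS p k K (X (q + 2))) :
    ex K (bd (q + 1)) r ∈ FS p k K (X (q + 1)) := by
  intro τ hτ
  rw [ex_apply]
  refine Finset.sum_eq_zero fun σ _ => ?_
  by_cases h : bd (q + 1) τ σ = 0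
  · rw [h, map_zero, zero_mul]
  · rw [hr σ (fun h' => hτ (hface q τ σ h h')), mul_zero]

/-- **Weights, second part.** The projection of a fixed vertex to an eigenspace is a boundary in
the complex of the fixed simplices. -/
theorem core2 (hEX : S_EX) (K : Type) [Field K] [Algebra (ZMod p) K] (ξ : Fin k → K)
    (bd : ∀ q, Matrix (X q) (X (q + 1)) (ZMod p)) (hbd : ∀ q, bd q * bd (q + 1) = 0)
    (hequi : ∀ q (g : GG p k) τ σ, bd q (g • τ) (g • σ) = bd q τ σ)
    (h0 : ∀ x y : X 0, x = y) (N : ℕ)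
    (hN : ∀ q, N ≤ q → IsEmpty (X (q + 1))) (s : ∀ q, X q ≃ X q) {ℓ : ℕ}
    (hs : ∀ q x, (s q)^[ℓ] x = x) (hsbd : ∀ q τ σ, bd q (s q τ) (s (q + 1) σ) = bd q τ σ)
    (π : Equiv.Perm (Fin k)) (hπ : ∀ q i x, gen p k i • s q x = s q (gen p k (π i) • x))
    (ζ : K) (hζ : ζ ^ ℓ = 1) (hℓ : (ℓ : K) ≠ 0) (hξ : ∀ i, ξ i = ζ * ξ (π i)) (j : ℕ)
    (hj1 : 1 ≤ j) (hj2 : j < p) (c : ℕ) (hc : ζ ^ c ≠ 1)
    (hE : ∀ q (y : X (q + 1) → K), ex K (bd q) y = 0 →
      pb K (s (q + 1)) y = ζ ^ (c + wj p j q) • y → ∃ z, ex K (bd (q + 1)) z = y)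
    (hX : ∀ q (σ : X (q + 1)), σ ∉ FixP p k (X (q + 1)) → ∃ χ : Fin k → ZMod p,
      (∀ g : GG p k, g • σ = σ → ∑ i, χ i * g.toAdd i = 0) ∧
        ∑ i, algebraMap (ZMod p) K (χ i) * ξ i ≠ 0)
    (hface : ∀ q τ σ, bd (q + 1) τ σ ≠ 0 → σ ∈ FixP p k (X (q + 2)) → τ ∈ FixP p k (X (q + 1)))
    (v : X 1) (hv : v ∈ FixP p k (X 1)) :
    ∃ r ∈ FS p k K (X 2), ex K (bd 1) r = Pr (s 1) ℓ (ζ ^ c) (Pi.single v 1) := by
  classical
  have hζw : ∀ w, (ζ ^ w) ^ ℓ = 1 := by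
    intro w
    rw [← pow_mul, mul_comm, pow_mul, hζ, one_pow]
  set L0 : X 1 → K := Pr (s 1) ℓ (ζ ^ c) (Pi.single v 1) with hL0
  have hL0e : pb K (s 1) L0 = ζ ^ c • L0 := Pr_eig (s 1) (hs 1) (hζw _) hℓ _
  have hit : ∀ i x, (s 1)^[i] x ∈ FixP p k (X 1) → x ∈ FixP p k (X 1) := by
    intro i
    induction i with
    | zero => intro x h; exact h
    | succ i ih =>
      intro x h
      rw [Function.iterate_succ_apply'] at h
      exact ih x (fixP_of_map (s 1) π (hπ 1) h)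
  have hL0F : L0 ∈ FS p k K (X 1) := by
    intro σ hσ
    rw [hL0]
    unfold Pr
    rw [LinearMap.smul_apply, Pi.smul_apply, LinearMap.sum_apply, Finset.sum_apply,
      Finset.sum_eq_zero, smul_zero]
    intro i _
    rw [LinearMap.smul_apply, Pi.smul_apply, pb_pow, pb_apply, Pi.single_eq_of_ne, smul_zero]
    intro h
    apply hσ
    apply hit i σ
    rw [h]
    exact hv
  have hL0c : ex K (bd 0) L0 = 0 := by
    have h1 : pb K (s 0) (ex K (bd 0) L0) = ζ ^ c • ex K (bd 0) L0 := by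
      rw [pb_ex (s 1) (s 0) (bd 0) (fun y x => hsbd 0 y x), hL0e, map_smul]
    funext y
    have h2 := congrFun h1 y
    rw [pb_apply, Pi.smul_apply, h0 (s 0 y) y, smul_eq_mul] at h2
    have h3 : (ζ ^ c - 1) * ex K (bd 0) L0 y = 0 := by
      rw [sub_mul, one_mul, ← h2, sub_self]
    rcases mul_eq_zero.1 h3 with h | h
    · exact absurd (sub_eq_zero.1 h) hc
    · exact h
  have h1or : ∀ q : ℕ, 1 ≤ (if Even q then j else p - j) := by
    intro q
    split_ifs <;> omega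
  -- one step
  have step : ∀ q (y : X (q + 1) → K), ex K (bd q) y = 0 →
      pb K (s (q + 1)) y = ζ ^ (c + wj p j q) • y → ∃ b : X (q + 2) → K,
        pb K (s (q + 2)) b = ζ ^ (c + wj p j q) • b ∧ ex K (bd (q + 1)) b = y := by
    intro q y hcyc hy
    obtain ⟨z, hz⟩ := hE q _ hcyc hy
    refine ⟨Pr (s (q + 2)) ℓ (ζ ^ (c + wj p j q)) z,
      Pr_eig (s (q + 2)) (hs (q + 2)) (hζw _) hℓ z, ?_⟩
    rw [Pr_ex (s (q + 2)) (s (q + 1)) (bd (q + 1)) (fun y x => hsbd (q + 1) y x), hz]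
    exact Pr_of_eig _ (hζw _) hℓ _ hy
  -- the sequence
  have hex : ∃ A : (∀ q : ℕ, X (q + 2) → K), ex K (bd 1) (A 0) = L0 ∧
      ∀ q, ex K (bd (q + 2)) (A (q + 1)) = tj p (X (q + 2)) ξ j q (A q) := by
    let St : ℕ → Type := fun q => {a : X (q + 2) → K //
      pb K (s (q + 2)) a = ζ ^ (c + wj p j q) • a ∧
      ex K (bd (q + 1)) (tj p (X (q + 2)) ξ j q a) = 0}
    have hst : ∀ q (a : St q), ∃ b : St (q + 1), ex K (bd (q + 2)) b.1 =
        tj p (X (q + 2)) ξ j q a.1 := by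
      intro q a
      have hy : pb K (s (q + 2)) (tj p (X (q + 2)) ξ j q a.1) =
          ζ ^ (c + wj p j (q + 1)) • tj p (X (q + 2)) ξ j q a.1 := by
        rw [pb_tj (s (q + 2)) π (hπ (q + 2)) ξ ζ hξ, a.2.1, map_smul, smul_smul, ← pow_add,
          wj_succ hj2.le]
        congr 2
        omega
      obtain ⟨b, hb, hb'⟩ := step (q + 1) _ a.2.2 hy
      refine ⟨⟨b, hb, ?_⟩, hb'⟩
      rw [tj_comm ξ (bd (q + 2)) (hequi (q + 2)), hb', tj_tj ξ hj2.le]
    choose nx hnx using hst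
    obtain ⟨b0, hb0, hb0'⟩ := step 0 L0 hL0c hL0e
    let a0 : St 0 := ⟨b0, hb0, by
      rw [tj_comm ξ (bd 1) (hequi 1), hb0']
      exact eta_pow_FS ξ (h1or 0) hL0F⟩
    let L : ∀ q, St q := fun q => Nat.rec a0 (fun q a => nx q a) q
    exact ⟨fun q => (L q).1, hb0', fun q => hnx q (L q)⟩
  obtain ⟨A, hA0, hA⟩ := hex
  have hbb : ∀ q (f : X (q + 2) → K), ex K (bd q) (ex K (bd (q + 1)) f) = 0 := by
    intro q f
    rw [← ex_mul, hbd, ex_zero]
  -- an identity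
  have hkey : ∀ q i (u : X (q + 1) → K), tj p (X (q + 1)) ξ j i u ∈ FS p k K (X (q + 1)) →
      ∃ w ∈ FS p k K (X (q + 1)), ∃ g, u = tj p (X (q + 1)) ξ j (i + 1) g + w := by
    intro q i u hu
    obtain ⟨w, hw, t, ht, rfl⟩ := split_FC (p := p) (k := k) u
    have h2 : tj p (X (q + 1)) ξ j i w = 0 := eta_pow_FS ξ (h1or i) hw
    rw [map_add, h2, zero_add] at hu
    have h3 : tj p (X (q + 1)) ξ j i t = 0 :=
      FS_inf_CS hu (eta_pow_CS ξ (h1or i) _)
    obtain ⟨g, _, hg⟩ := exact_CS hEX ξ (hX q) (a := if Even i then j else p - j)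
      (b := if Even (i + 1) then j else p - j) (by
        by_cases hi : Even i
        · rw [if_pos hi, if_neg (by rw [Nat.even_add_one]; exact fun h => h hi)]
          omega
        · rw [if_neg hi, if_pos (by rw [Nat.even_add_one]; exact hi)]
          omega) ht h3
    refine ⟨w, hw, g, (add_comm w t).trans ?_⟩
    exact congrArg (fun x => x + w) hg.symm
  -- descent
  have hdesc : ∀ i q, N ≤ q + 1 + i → ∃ (μ : X (q + 2) → K) (ν : X (q + 3) → K),
      ∃ r ∈ FS p k K (X (q + 2)),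
      A q = tj p (X (q + 2)) ξ j (q + 1) μ + ex K (bd (q + 2)) ν + r := by
    intro i
    induction i with
    | zero =>
      intro q hq
      have := hN (q + 1) (by omega)
      exact ⟨0, 0, 0, Submodule.zero_mem _, funext fun x => isEmptyElim x⟩
    | succ i ih =>
      intro q hq
      obtain ⟨μ, ν, r, hr, h⟩ := ih (q + 1) (by omega)
      have h1 := hA q
      have e : tj p (X (q + 2)) ξ j (q + 1 + 1) = tj p (X (q + 2)) ξ j q := tj_add_two ξ j q
      rw [h, map_add, map_add, hbb (q + 2), add_zero, tj_comm ξ (bd (q + 2)) (hequi (q + 2)),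
        e] at h1
      have h2 : tj p (X (q + 2)) ξ j q (A q - ex K (bd (q + 2)) μ) = ex K (bd (q + 2)) r := by
        rw [map_sub, ← h1]
        abel
      obtain ⟨w, hw, g, hg⟩ := hkey (q + 1) q (A q - ex K (bd (q + 2)) μ) (by
        rw [h2]
        exact ex_FS K bd hface (q + 1) hr)
      refine ⟨g, μ, w, hw, ?_⟩
      rw [sub_eq_iff_eq_add] at hg
      rw [hg]
      abel
  obtain ⟨μ, ν, r, hr, h⟩ := hdesc N 0 (by omega)
  refine ⟨r, hr, ?_⟩
  rw [h, map_add, map_add, hbb 1, add_zero, tj_comm ξ (bd 1) (hequi 1)] at hA0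
  have h5 : L0 - ex K (bd 1) r = tj p (X 1) ξ j (0 + 1) (ex K (bd 1) μ) := by
    rw [← hA0]
    abel
  have h6 : L0 - ex K (bd 1) r ∈ FS p k K (X 1) :=
    (FS p k K (X 1)).sub_mem hL0F (ex_FS K bd hface 0 hr)
  have h7 : L0 - ex K (bd 1) r ∈ CS p k K (X 1) := by
    rw [h5]
    exact eta_pow_CS ξ (h1or _) _
  exact (sub_eq_zero.1 (FS_inf_CS h6 h7)).symm

end part2

end Pool.Agent.Helper31.Zim
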