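import Pool.Agent.Helper31.Zim.Main
import Pool.Graph.R_pool_sql_team_seeded_3997aac3.Q184.ZI.Dia
import Pool.Graph.R_pool_sql_team_seeded_3997aac3.Q4.ZI.Fin

/-!
# The groups generated by the elementary matrices
-/

set_option autoImplicit false
set_option linter.unusedSectionVars false
set_option linter.unusedSimpArgs false

namespace Pool.Agent.Helper31.Zim

open Module Matrix NumberField Pool.Agent.Helper381 Pool.Agent.H185.ZM Pool.Agent.E8helper2.ZB
  Pool.Agent.E8helper72.ZO Pool.Agent.E8helper35.ZB Q4.ZI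
open scoped Manifold ContDiff

section perm

variable {R : Type} [CommRing R] {n : ℕ}

/-- the monomial matrix of a transposition -/
theorem swap_mem (x y : Fin n) (hxy : x ≠ y) :
    Q184.ZI.dg (fun i => if i = y then -1 else 1) * pu R (Equiv.swap x y) ∈ En R n := by
  have key : Q184.ZI.dg (fun i => if i = y then -1 else 1) * pu R (Equiv.swap x y) =
      Q184.ZI.tv x y hxy 1 * Q184.ZI.tv y x hxy.symm (-1) * Q184.ZI.tv x y hxy 1 := by
    apply Units.ext
    rw [Units.val_mul, Units.val_mul, Units.val_mul, Q184.ZI.dg_val]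
    show _ * (Equiv.swap x y).permMatrix R = transvection x y 1 * transvection y x (-1) *
      transvection x y 1
    have e1 : transvection x y (1 : R) * transvection y x (-1) * transvection x y 1 =
        1 - single x x 1 - single y y 1 + single x y 1 - single y x 1 := by
      simp only [transvection, add_mul, mul_add, one_mul, mul_one, Q184.ZI.sm_same,
        Q184.ZI.sm_ne _ _ _ _ hxy.symm, mul_neg, neg_mul, Q184.ZI.sm_neg]
      abel
    rw [e1]
    ext a b
    rw [diagonal_mul, pm_apply]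
    simp only [Matrix.sub_apply, Matrix.add_apply, Matrix.one_apply, single_apply]
    by_cases hax : a = x
    · subst hax
      rw [Equiv.swap_apply_left, if_neg hxy]
      by_cases hb : a = b
      · subst hb
        simp [hxy, hxy.symm]
      · by_cases hyb : y = b
        · subst hyb
          simp [hxy, hxy.symm]
        · simp [hxy, hxy.symm, hb, hyb]
    · by_cases hay : a = y
      · subst hay
        rw [Equiv.swap_apply_right, if_pos rfl]
        by_cases hb : a = b
        · subst hb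
          simp [hxy, hxy.symm]
        · by_cases hxb : x = b
          · subst hxb
            simp [hxy, hxy.symm]
          · simp [hxy, hxy.symm, hb, hxb]
      · rw [Equiv.swap_apply_of_ne_of_ne hax hay, if_neg hay]
        by_cases hb : a = b
        · subst hb
          simp [Ne.symm hax, Ne.symm hay, hax, hay]
        · simp [Ne.symm hax, Ne.symm hay, hax, hay, hb]
  rw [key]
  exact mul_mem (mul_mem (Q184.ZI.tv_mem _ _ _ _) (Q184.ZI.tv_mem _ _ _ _))
    (Q184.ZI.tv_mem _ _ _ _)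

theorem pu_mul (a b : Equiv.Perm (Fin n)) : pu R (a * b) = pu R b * pu R a := by
  apply Units.ext
  rw [Units.val_mul]
  show (a * b).permMatrix R = b.permMatrix R * a.permMatrix R
  rw [permMatrix_mul]

theorem pu_dg (σ : Equiv.Perm (Fin n)) (u : Fin n → Rˣ) :
    pu R σ * Q184.ZI.dg u = Q184.ZI.dg (fun i => u (σ i)) * pu R σ := by
  apply Units.ext
  rw [Units.val_mul, Units.val_mul, Q184.ZI.dg_val, Q184.ZI.dg_val]
  show σ.permMatrix R * diagonal (fun i => (u i : R)) =
    diagonal (fun i => (u (σ i) : R)) * σ.permMatrix R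
  ext a b
  rw [mul_diagonal, diagonal_mul, pm_apply]
  by_cases h : σ a = b
  · rw [if_pos h, one_mul, mul_one, h]
  · rw [if_neg h, zero_mul, mul_zero]

/-- monomial matrices of determinant one -/
theorem mono_mem (σ : Equiv.Perm (Fin n)) : ∀ u : Fin n → Rˣ,
    ∏ i, (u i : R) = ((Equiv.Perm.sign σ : ℤ) : R) → Q184.ZI.dg u * pu R σ ∈ En R n := by
  induction σ using Equiv.Perm.swap_induction_on with
  | one =>
    intro u hu
    have h1 : pu R (1 : Equiv.Perm (Fin n)) = 1 := by
      apply Units.ext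
      exact permMatrix_one
    rw [h1, mul_one]
    apply Q184.ZI.dg_mem
    apply Units.ext
    rw [Units.coe_prod, hu]
    simp
  | swap_mul f x y hxy ih =>
    intro u hu
    let e : Fin n → Rˣ := fun i => if i = y then -1 else 1
    have he : Q184.ZI.dg e * Q184.ZI.dg e = 1 := by
      rw [← map_mul, ← map_one (Q184.ZI.dg (R := R) (n := n))]
      congr 1
      funext i
      show (if i = y then (-1 : Rˣ) else 1) * (if i = y then (-1 : Rˣ) else 1) = 1
      split_ifs <;> simp
    have h1 : Q184.ZI.dg u * pu R (Equiv.swap x y * f) =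
        (Q184.ZI.dg (u * fun i => e (f i)) * pu R f) *
          (Q184.ZI.dg e * pu R (Equiv.swap x y)) := by
      rw [pu_mul, map_mul]
      calc Q184.ZI.dg u * (pu R f * pu R (Equiv.swap x y))
          = Q184.ZI.dg u * (pu R f * ((Q184.ZI.dg e * Q184.ZI.dg e) *
            pu R (Equiv.swap x y))) := by rw [he, one_mul]
        _ = Q184.ZI.dg u * (pu R f * Q184.ZI.dg e) * (Q184.ZI.dg e *
            pu R (Equiv.swap x y)) := by group
        _ = _ := by rw [pu_dg]; group
    rw [h1]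
    refine mul_mem (ih _ ?_) (swap_mem x y hxy)
    have h2 : ∏ i, (e (f i) : R) = -1 := by
      rw [Equiv.prod_comp f (fun i => (e i : R)), Finset.prod_eq_single y]
      · simp [e]
      · intro i _ hi
        simp [e, hi]
      · intro h
        exact absurd (Finset.mem_univ _) h
    have h3 : ∏ i, ((u * fun i => e (f i)) i : R) = (∏ i, (u i : R)) * (∏ i, (e (f i) : R)) := by
      rw [← Finset.prod_mul_distrib]
      rfl
    rw [h3, h2, hu, Equiv.Perm.sign_mul, Equiv.Perm.sign_swap hxy]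
    simp

end perm

section el

variable {R : Type} [CommRing R] {n ℓ : ℕ}

theorem hasCyc_En {z : R} {p : ℕ} (hz : z ^ p = 1) (hp : 0 < p) (hodd : Odd ℓ) :
    HasCyc z p ℓ (En R n) := by
  obtain ⟨q, rfl⟩ : ∃ q, p = q + 1 := ⟨p - 1, by omega⟩
  let zu : Rˣ := ⟨z, z ^ q, by rw [← pow_succ', hz], by rw [← pow_succ, hz]⟩
  have hzu : zu ^ (q + 1) = 1 := Units.ext (by rw [Units.val_pow_eq_pow_val]; exact hz)
  refine ⟨fun g d hd _ hg => ?_, fun g hg => ?_⟩
  · have h1 : g = Q184.ZI.dg (fun i => zu ^ d i) := by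
      apply Units.ext
      rw [hg, Q184.ZI.dg_val]
      congr 1
    rw [h1]
    apply Q184.ZI.dg_mem
    obtain ⟨c, hc⟩ := hd
    rw [Finset.prod_pow_eq_pow_sum, hc, pow_mul, hzu, one_pow]
  · obtain ⟨σ, h1, h2, h3⟩ := hg
    have h4 : g = Q184.ZI.dg 1 * pu R σ := by
      rw [map_one, one_mul]
      exact Units.ext h3
    rw [h4]
    apply mono_mem
    rw [sign_one hodd h1 h2]
    simp

theorem cycConj_En (hℓp : ℓ.Prime) (hℓ2 : ℓ ≠ 2) (hn : ℓ ≤ n) : CycConj ℓ (En R n) := by
  classical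
  intro c hc j hj0 hj
  have hodd := hℓp.odd_of_ne_two hℓ2
  obtain ⟨τ, t1, t2, t3⟩ := exists_conj (F := R) hℓp hn
    (fun τ => if Equiv.Perm.sign τ = 1 then 0 else 1) hc hj0 hj
  refine ⟨_, ?_, t3⟩
  obtain ⟨e, he⟩ : ∃ e, e = (if Equiv.Perm.sign τ = 1 then 0 else 1) := ⟨_, rfl⟩
  rw [← he]
  have h1 : sgu R n ℓ e = Q184.ZI.dg (fun i : Fin n => if i.val < ℓ then (-1) ^ e else 1) := by
    apply Units.ext
    rw [Q184.ZI.dg_val]
    show diagonal (fun i : Fin n => if i.val < ℓ then (-1 : R) ^ e else 1) = _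
    congr 1
    funext i
    split_ifs
    · rw [Units.val_pow_eq_pow_val, Units.val_neg, Units.val_one]
    · rw [Units.val_one]
  rw [h1]
  apply mono_mem
  have h2 := det_sgu (F := R) hn e
  have h3 : ((sgu R n ℓ e : (Matrix (Fin n) (Fin n) R)ˣ) : Matrix (Fin n) (Fin n) R).det =
      ∏ i : Fin n, (((if i.val < ℓ then (-1) ^ e else 1 : Rˣ)) : R) := by
    rw [h1, Q184.ZI.dg_val, det_diagonal]
  rw [← h3, h2, he]
  by_cases hs : Equiv.Perm.sign τ = 1
  · rw [if_pos hs, hs]
    simp
  · rw [if_neg hs, pow_one, hodd.neg_one_pow]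
    rcases Int.units_eq_one_or (Equiv.Perm.sign τ) with h | h
    · exact absurd h hs
    · rw [h]
      simp

/-- a normal subgroup which contains a diagonal matrix -/
theorem EE_le_of_diag {m : ℕ} {z : R} {p : ℕ} (hz : z ^ p = 1) (hp : 1 < p)
    (N : Subgroup (En R (m + 3))) (hN : N.Normal)
    (hd : ∀ g : En R (m + 3), (g : (Matrix (Fin (m + 3)) (Fin (m + 3)) R)ˣ).1 =
      diagonal (fun i => z ^ (if i = 0 then 1 else if i = 1 then p - 1 else 0)) → g ∈ N)
    (x : En R (m + 3)) (hx : x.1 ∈ Q4.ZI.EE R (m + 3) (z - 1)) : x ∈ N := by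
  classical
  have hz' : z * z ^ (p - 1) = 1 := by
    rw [← pow_succ', Nat.sub_add_cancel hp.le, hz]
  let zu : Rˣ := ⟨z, z ^ (p - 1), hz', by rw [mul_comm, hz']⟩
  -- the diagonal matrix
  let u : Fin (m + 3) → Rˣ := fun i => if i = 0 then zu else if i = 1 then zu⁻¹ else 1
  have h01 : (0 : Fin (m + 3)) ≠ 1 := by
    intro h
    have := congrArg Fin.val h
    simp at this
  have h02 : (0 : Fin (m + 3)) ≠ 2 := by
    intro h
    have := congrArg Fin.val h
    rw [Fin.val_two] at this
    exact absurd this (by norm_num)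
  have h12 : (1 : Fin (m + 3)) ≠ 2 := by
    intro h
    have := congrArg Fin.val h
    rw [Fin.val_two, Fin.val_one] at this
    exact absurd this (by norm_num)
  have hu : ∏ i, u i = 1 := by
    rw [Finset.prod_eq_mul (0 : Fin (m + 3)) 1 h01]
    · simp [u, h01.symm]
    · rintro i _ ⟨hi0, hi1⟩
      simp [u, hi0, hi1]
    · intro h
      exact absurd (Finset.mem_univ _) h
    · intro h
      exact absurd (Finset.mem_univ _) h
  let g : En R (m + 3) := ⟨Q184.ZI.dg u, Q184.ZI.dg_mem u hu⟩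
  have hg : g ∈ N := by
    apply hd
    show (Q184.ZI.dg u).1 = _
    rw [Q184.ZI.dg_val]
    congr 1
    funext i
    simp only [u]
    split_ifs
    · rw [pow_one]
    · rfl
    · rw [pow_zero, Units.val_one]
  -- the first elementary matrix
  have hc1 : ∀ c : R, te 0 2 h02 ((z - 1) * c) ∈ N := by
    intro c
    have e1 : g * te 0 2 h02 c * g⁻¹ * (te 0 2 h02 c)⁻¹ = te 0 2 h02 ((z - 1) * c) := by
      apply Subtype.ext
      apply Units.ext
      have e2 := Q184.ZI.dconj (fun i => (u i : R)) (fun i => ((u i)⁻¹ : Rˣ))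
        (fun i => by rw [← Units.val_mul, mul_inv_cancel, Units.val_one]) 0 2 h02 c
      have e3 : (u 0 : R) * ((u 2)⁻¹ : Rˣ) - 1 = z - 1 := by
        have e4 : u 0 = zu := if_pos rfl
        have e5 : u 2 = 1 := by
          simp only [u]
          rw [if_neg h02.symm, if_neg h12.symm]
        rw [e4, e5, inv_one, Units.val_one, mul_one]
      rw [e3] at e2
      show (Q184.ZI.dg u).1 * (tv 0 2 h02 c).1 * ((Q184.ZI.dg u)⁻¹).1 * ((tv 0 2 h02 c)⁻¹).1 = _
      rw [← map_inv, Q184.ZI.dg_val, Q184.ZI.dg_val, tv_inv_val, tv_val]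
      exact e2
    rw [← e1]
    have e6 : g * te 0 2 h02 c * g⁻¹ * (te 0 2 h02 c)⁻¹ =
        g * (te 0 2 h02 c * g⁻¹ * (te 0 2 h02 c)⁻¹) := by group
    rw [e6]
    exact N.mul_mem hg (hN.conj_mem _ (N.inv_mem hg) _)
  have hL : ∀ a b : En R (m + 3), a ∈ N → a * b * a⁻¹ * b⁻¹ ∈ N := by
    intro a b ha
    have e6 : a * b * a⁻¹ * b⁻¹ = a * (b * a⁻¹ * b⁻¹) := by group
    rw [e6]
    exact N.mul_mem ha (hN.conj_mem _ (N.inv_mem ha) _)
  have hR : ∀ a b : En R (m + 3), b ∈ N → a * b * a⁻¹ * b⁻¹ ∈ N := by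
    intro a b hb
    exact N.mul_mem (hN.conj_mem _ hb _) (N.inv_mem hb)
  have hc2 : ∀ (j : Fin (m + 3)) (hj : 0 ≠ j) (c : R), te 0 j hj ((z - 1) * c) ∈ N := by
    intro j hj c
    by_cases h : j = 2
    · subst h
      exact hc1 c
    · have e := te_comm 0 2 j h02 (Ne.symm h) hj ((z - 1) * c) 1
      rw [mul_one] at e
      rw [e]
      exact hL _ _ (hc1 c)
  have hc3 : ∀ (i j : Fin (m + 3)) (hij : i ≠ j) (c : R), 0 ≠ j → te i j hij ((z - 1) * c) ∈ N := by
    intro i j hij c hj
    by_cases h : i = 0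
    · subst h
      exact hc2 j hij c
    · have e := te_comm i 0 j h hj hij 1 ((z - 1) * c)
      rw [one_mul] at e
      rw [e]
      exact hR _ _ (hc2 j hj c)
  have hc4 : ∀ (i j : Fin (m + 3)) (hij : i ≠ j) (c : R), te i j hij ((z - 1) * c) ∈ N := by
    intro i j hij c
    by_cases h : 0 = j
    · subst h
      obtain ⟨k, hik, hk0⟩ := third i 0
      have e := te_comm i k 0 hik hk0 hij ((z - 1) * c) 1
      rw [mul_one] at e
      rw [e]
      exact hL _ _ (hc3 i k hik c (Ne.symm hk0))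
    · exact hc3 i j hij c h
  -- the closure
  have key : ∀ y, y ∈ Q4.ZI.EE R (m + 3) (z - 1) → ∀ hy : y ∈ En R (m + 3), (⟨y, hy⟩ : En R (m + 3)) ∈ N := by
    intro y hy
    unfold Q4.ZI.EE at hy
    induction hy using Subgroup.closure_induction with
    | mem y h =>
      obtain ⟨h, i, j, b, hh, hij, hxe⟩ := h
      intro hy
      have e : (⟨y, hy⟩ : En R (m + 3)) = ⟨h, hh⟩ * te i j hij ((z - 1) * b) * ⟨h, hh⟩⁻¹ := by
        apply Subtype.ext
        apply Units.ext
        rw [show ((⟨y, hy⟩ : En R (m + 3)) : GL (Fin (m + 3)) R).1 = y.1 from rfl, hxe]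
        rfl
      rw [e]
      exact hN.conj_mem _ (hc4 i j hij b) _
    | one => exact fun _ => N.one_mem
    | mul x y hx hy h1 h2 =>
      intro hxy
      have hx' := EE_le_En _ hx
      have hy' := EE_le_En _ hy
      exact N.mul_mem (h1 hx') (h2 hy')
    | inv x hx h1 =>
      intro hx'
      exact N.inv_mem (h1 (EE_le_En _ hx))
  exact key x.1 hx x.2

end el

variable {E : Type} [NormedAddCommGroup E] [NormedSpace ℝ E] [FiniteDimensional ℝ E]
  {M : Type} [TopologicalSpace M] [ChartedSpace E M] [IsManifold 𝓘(ℝ, E) ∞ M]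

/-- **Actions of the groups generated by the elementary matrices over the integers of a number
field.** -/
theorem mainEn [CompactSpace M] [T2Space M] [ConnectedSpace M] {p ℓ : ℕ} (hp : p.Prime)
    (hℓp : ℓ.Prime) (hℓ2 : ℓ ≠ 2) (hpl : p ≠ ℓ) (hm : finrank ℝ E / 2 + ℓ / p + 1 < ℓ)
    (F : Type) [Field F] [NumberField F] (z : 𝓞 F) (hz : z ^ p = 1) (hz1 : z ≠ 1) {n : ℕ}
    (hn : ℓ ≤ n) (α : En (𝓞 F) n → (M ≃ₘ^∞⟮𝓘(ℝ, E), 𝓘(ℝ, E)⟯ M)) (hα : IsHom α)
    (hβ : CycHyp p ℓ (En (𝓞 F) n) α) :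
    (∀ x : En (𝓞 F) n, x.1 ∈ Q4.ZI.EE (𝓞 F) n (z - 1) → ∀ y, α x y = y) ∧ (Set.range α).Finite := by
  have hℓ3 : 2 < ℓ := lt_of_le_of_ne hℓp.two_le (Ne.symm hℓ2)
  have hF := main_cyc (E := E) (M := M) hp hℓp hℓ2 hpl hm hz hz1 hn
    (hasCyc_En (n := n) hz hp.pos (hℓp.odd_of_ne_two hℓ2)) (cycConj_En hℓp hℓ2 hn) le_rfl
  have hk := (hF α hα hβ).1
  obtain ⟨m, rfl⟩ : ∃ m, n = m + 3 := ⟨n - 3, by omega⟩
  have hp1 := hp.one_lt
  have hE : ∀ x : En (𝓞 F) (m + 3), x.1 ∈ Q4.ZI.EE (𝓞 F) (m + 3) (z - 1) → x ∈ actKer hα.action := by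
    refine EE_le_of_diag hz hp1 (actKer hα.action) inferInstance (fun g hg => ?_)
    refine hk g (fun i => if i = 0 then 1 else if i = 1 then p - 1 else 0) ?_ (fun i hi => ?_) hg
    · have h01 : (0 : Fin (m + 3)) ≠ 1 := by
        intro h
        have := congrArg Fin.val h
        simp at this
      rw [Finset.sum_eq_add (0 : Fin (m + 3)) 1 h01]
      · rw [if_pos rfl, if_neg h01.symm, if_pos rfl, Nat.add_sub_cancel' hp1.le]
      · rintro i _ ⟨hi0, hi1⟩
        rw [if_neg hi0, if_neg hi1]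
      · intro h
        exact absurd (Finset.mem_univ _) h
      · intro h
        exact absurd (Finset.mem_univ _) h
    · have h0 : i ≠ 0 := by
        rintro rfl
        simp at hi
        omega
      have h1 : i ≠ 1 := by
        rintro rfl
        rw [Fin.val_one] at hi
        omega
      simp only [if_neg h0, if_neg h1]
  refine ⟨hE, hα.finite_range ?_⟩
  have hfi := tFin F m (z - 1) (sub_ne_zero.2 hz1) (actKer hα.action) inferInstance hE
  exact Subgroup.finite_quotient_of_finiteIndex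

end Pool.Agent.Helper31.Zim
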