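import Pool.Agent.Helper31.Zim.FI
import Pool.Graph.R_pool_sql_team_seeded_b677cdb8.E8helper2.ZB.CasesW

/-!
# Orthogonal and unitary groups
-/

set_option autoImplicit false
set_option linter.unusedSectionVars false

namespace Pool.Agent.Helper31.Zim

open Module Matrix Pool.Agent.Helper381 Pool.Agent.H185.ZM Pool.Agent.E8helper2.ZB
  Pool.Agent.E8helper72.ZO Pool.Agent.E8helper35.ZB Pool.Agent.E8helper38.ZB
open scoped Manifold ContDiff

/-- the permutation `i ↦ i t mod ℓ` of the first `ℓ` coordinates -/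
theorem exists_mulPerm {n ℓ : ℕ} (hℓp : ℓ.Prime) (hn : ℓ ≤ n) {j : ℕ} (hj0 : 0 < j) (hj : j < ℓ)
    {σ : Equiv.Perm (Fin n)} (h1 : ∀ i : Fin n, ℓ ≤ i.val → σ i = i)
    (h2 : ∀ i : Fin n, i.val < ℓ → (σ i).val = (i.val + 1) % ℓ) :
    ∃ τ : Equiv.Perm (Fin n), (∀ i : Fin n, ℓ ≤ i.val → τ i = i) ∧
      (∀ i : Fin n, i.val < ℓ → (τ i).val < ℓ) ∧ σ * τ = τ * σ ^ j := by
  classical
  obtain ⟨t, ht, htj⟩ := Nat.exists_mul_mod_eq_one_of_coprime
    (show Nat.Coprime j ℓ by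
      rw [Nat.coprime_comm, hℓp.coprime_iff_not_dvd]
      intro h
      exact absurd (Nat.le_of_dvd hj0 h) (by omega)) hℓp.one_lt
  have hℓ0 : 0 < ℓ := hℓp.pos
  have hkey : ∀ x : ℕ, x < ℓ → ((x * t % ℓ) * j) % ℓ = x := by
    intro x hx
    rw [Nat.mod_mul_mod, mul_assoc, mul_comm t j, ← Nat.mul_mod_mod, htj, mul_one,
      Nat.mod_eq_of_lt hx]
  let f : Fin n → Fin n := fun i =>
    if h : i.val < ℓ then ⟨i.val * t % ℓ, lt_of_lt_of_le (Nat.mod_lt _ hℓ0) hn⟩ else i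
  have hf : ∀ i : Fin n, i.val < ℓ → (f i).val = i.val * t % ℓ := by
    intro i hi
    simp only [f, dif_pos hi]
  have hf' : ∀ i : Fin n, ℓ ≤ i.val → f i = i := by
    intro i hi
    simp only [f, dif_neg (not_lt.2 hi)]
  have hflt : ∀ i : Fin n, i.val < ℓ → (f i).val < ℓ := by
    intro i hi
    rw [hf i hi]
    exact Nat.mod_lt _ hℓ0
  have hinj : Function.Injective f := by
    intro a b hab
    rcases lt_or_ge a.val ℓ with ha | ha <;> rcases lt_or_ge b.val ℓ with hb | hb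
    · apply Fin.ext
      rw [← hkey a.val ha, ← hkey b.val hb, ← hf a ha, ← hf b hb, hab]
    · exfalso
      have := hflt a ha
      rw [hab, hf' b hb] at this
      omega
    · exfalso
      have := hflt b hb
      rw [← hab, hf' a ha] at this
      omega
    · rw [← hf' a ha, ← hf' b hb, hab]
  let τ : Equiv.Perm (Fin n) := Equiv.ofBijective f (Finite.injective_iff_bijective.1 hinj)
  have hτ : ∀ i, τ i = f i := fun i => rfl
  refine ⟨τ, fun i hi => hf' i hi, fun i hi => hflt i hi, ?_⟩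
  apply Equiv.ext
  intro i
  show σ (τ i) = τ ((σ ^ j) i)
  rcases lt_or_ge i.val ℓ with hi | hi
  · apply Fin.ext
    have h3 := pow_val hℓ0 h2 i hi j
    have h4 : ((σ ^ j) i).val < ℓ := by rw [h3]; exact Nat.mod_lt _ hℓ0
    rw [hτ, hτ, h2 _ (hflt i hi), hf i hi, hf _ h4, h3, Nat.mod_add_mod]
    have h5 : (i.val + j) % ℓ * t % ℓ = (i.val * t + j * t) % ℓ := by
      rw [Nat.mod_mul_mod, add_mul]
    rw [h5, ← Nat.add_mod_mod (i.val * t) (j * t), htj]
  · have h3 : (σ ^ j) i = i := Equiv.Perm.pow_apply_eq_self_of_apply_eq_self (h1 i hi) j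
    rw [h3, hτ, hf' i hi, h1 i hi]

section

variable {F : Type} [Ring F] {n : ℕ}

/-- the sign change of the first `ℓ` coordinates -/
def sgu (F : Type) [Ring F] (n ℓ : ℕ) (e : ℕ) : (Matrix (Fin n) (Fin n) F)ˣ where
  val := diagonal fun i => if i.val < ℓ then (-1) ^ e else 1
  inv := diagonal fun i => if i.val < ℓ then (-1) ^ e else 1
  val_inv := by
    rw [diagonal_mul_diagonal, ← diagonal_one]
    congr 1
    funext i
    split_ifs
    · rw [← pow_add, ← two_mul, pow_mul, neg_one_sq, one_pow]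
    · rw [one_mul]
  inv_val := by
    rw [diagonal_mul_diagonal, ← diagonal_one]
    congr 1
    funext i
    split_ifs
    · rw [← pow_add, ← two_mul, pow_mul, neg_one_sq, one_pow]
    · rw [one_mul]

theorem sgu_comm (ℓ e : ℕ) (τ : Equiv.Perm (Fin n)) (h1 : ∀ i : Fin n, ℓ ≤ i.val → τ i = i)
    (h2 : ∀ i : Fin n, i.val < ℓ → (τ i).val < ℓ) :
    sgu F n ℓ e * pu F τ = pu F τ * sgu F n ℓ e := by
  apply Units.ext
  rw [Units.val_mul, Units.val_mul]
  show diagonal (fun i : Fin n => if i.val < ℓ then (-1 : F) ^ e else 1) * τ.permMatrix F =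
    τ.permMatrix F * diagonal (fun i : Fin n => if i.val < ℓ then (-1 : F) ^ e else 1)
  ext a b
  rw [diagonal_mul, mul_diagonal, pm_apply]
  by_cases hab : τ a = b
  · rw [if_pos hab, mul_one, one_mul]
    rcases lt_or_ge a.val ℓ with ha | ha
    · rw [if_pos ha, if_pos (by rw [← hab]; exact h2 a ha)]
    · rw [if_neg (not_lt.2 ha), if_neg (by rw [← hab, h1 a ha]; exact not_lt.2 ha)]
  · rw [if_neg hab, mul_zero, zero_mul]

/-- the element which conjugates the cyclic permutation to its power -/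
theorem exists_conj {ℓ : ℕ} (hℓp : ℓ.Prime) (hn : ℓ ≤ n) (e : Equiv.Perm (Fin n) → ℕ)
    {c : (Matrix (Fin n) (Fin n) F)ˣ} (hc : IsCyc ℓ c) {j : ℕ} (hj0 : 0 < j) (hj : j < ℓ) :
    ∃ τ : Equiv.Perm (Fin n), (∀ i : Fin n, ℓ ≤ i.val → τ i = i) ∧
      (∀ i : Fin n, i.val < ℓ → (τ i).val < ℓ) ∧
      (sgu F n ℓ (e τ) * pu F τ) * c * (sgu F n ℓ (e τ) * pu F τ)⁻¹ = c ^ j := by
  obtain ⟨σ, h1, h2, h3⟩ := hc
  have hcu : c = pu F σ := Units.ext h3
  obtain ⟨τ, t1, t2, t3⟩ := exists_mulPerm hℓp hn hj0 hj h1 h2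
  refine ⟨τ, t1, t2, ?_⟩
  have hlt : ∀ i : Fin n, i.val < ℓ → (σ i).val < ℓ := by
    intro i hi
    rw [h2 i hi]
    exact Nat.mod_lt _ hℓp.pos
  have hmul : ∀ a b : Equiv.Perm (Fin n), pu F a * pu F b = pu F (b * a) := by
    intro a b
    apply Units.ext
    rw [Units.val_mul]
    show a.permMatrix F * b.permMatrix F = (b * a).permMatrix F
    rw [permMatrix_mul]
  have h4 : pu F τ * pu F σ = pu F σ ^ j * pu F τ := by
    rw [pu_pow, hmul, hmul, t3]
  have h5 : ∀ k : ℕ, sgu F n ℓ (e τ) * pu F σ ^ k = pu F σ ^ k * sgu F n ℓ (e τ) := by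
    intro k
    have h6 : Commute (sgu F n ℓ (e τ)) (pu F σ) := sgu_comm ℓ (e τ) σ h1 hlt
    exact (h6.pow_right k).eq
  rw [hcu, mul_inv_eq_iff_eq_mul]
  calc sgu F n ℓ (e τ) * pu F τ * pu F σ = sgu F n ℓ (e τ) * (pu F τ * pu F σ) := by group
    _ = (sgu F n ℓ (e τ) * pu F σ ^ j) * pu F τ := by rw [h4, mul_assoc]
    _ = pu F σ ^ j * (sgu F n ℓ (e τ) * pu F τ) := by rw [h5, mul_assoc]

end

theorem det_sgu {F : Type} [CommRing F] {n ℓ : ℕ} (hn : ℓ ≤ n) (e : ℕ) :
    ((sgu F n ℓ e : (Matrix (Fin n) (Fin n) F)ˣ) : Matrix (Fin n) (Fin n) F).det =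
      ((-1) ^ e) ^ ℓ := by
  show (diagonal fun i : Fin n => if i.val < ℓ then (-1 : F) ^ e else 1).det = _
  rw [det_diagonal, Finset.prod_ite, Finset.prod_const, Finset.prod_const_one, mul_one]
  congr 1
  have h : (Finset.univ.filter fun i : Fin n => i.val < ℓ) =
      Finset.univ.map (Fin.castLEEmb hn) := by
    ext i
    simp only [Finset.mem_filter, Finset.mem_univ, true_and, Finset.mem_map]
    constructor
    · intro hi
      exact ⟨⟨i.val, hi⟩, rfl⟩
    · rintro ⟨k, hk⟩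
      rw [← hk]
      exact k.2
  rw [h, Finset.card_map, Finset.card_univ, Fintype.card_fin]

theorem sgu_mem {F : Type} [Ring F] (R : Subring F) {n ℓ : ℕ} (e : ℕ) (i j : Fin n) :
    (diagonal fun i : Fin n => if i.val < ℓ then (-1 : F) ^ e else 1) i j ∈ R := by
  refine diag_mem R (fun i => ?_) i j
  split_ifs
  · exact R.pow_mem (R.neg_mem R.one_mem) _
  · exact R.one_mem

theorem mem_mul {F : Type} [Ring F] (R : Subring F) {n : ℕ} {a b : Matrix (Fin n) (Fin n) F}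
    (ha : ∀ i j, a i j ∈ R) (hb : ∀ i j, b i j ∈ R) (i j : Fin n) : (a * b) i j ∈ R := by
  rw [mul_apply]
  exact R.sum_mem fun k _ => R.mul_mem (ha i k) (hb k j)

/-- special orthogonal groups -/
theorem cycConj_SOG {F : Type} [CommRing F] (R : Subring F) {n ℓ : ℕ} (f : Fin n → F)
    (hℓp : ℓ.Prime) (hℓ2 : ℓ ≠ 2) (hn : ℓ ≤ n)
    (hf : ∀ i j : Fin n, i.val < ℓ → j.val < ℓ → f i = f j) : CycConj ℓ (SOG R f) := by
  classical
  intro c hc j hj0 hj
  have hodd := hℓp.odd_of_ne_two hℓ2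
  obtain ⟨τ, t1, t2, t3⟩ := exists_conj (F := F) hℓp hn
    (fun τ => if Equiv.Perm.sign τ = 1 then 0 else 1) hc hj0 hj
  refine ⟨_, ?_, t3⟩
  set e := (fun τ : Equiv.Perm (Fin n) => if Equiv.Perm.sign τ = 1 then 0 else 1) τ with he
  have hfτ : ∀ i, f (τ i) = f i := by
    intro i
    rcases lt_or_ge i.val ℓ with hi | hi
    · exact hf _ _ (t2 i hi) hi
    · rw [t1 i hi]
  have hinv : ((sgu F n ℓ e * pu F τ)⁻¹ : (Matrix (Fin n) (Fin n) F)ˣ) =
      pu F τ⁻¹ * sgu F n ℓ e := by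
    rw [_root_.mul_inv_rev]
    congr 1
  refine ⟨⟨?_, ?_⟩, ?_, ?_⟩
  · intro a b
    rw [Units.val_mul]
    exact mem_mul R (sgu_mem R e) (pm_mem R τ) a b
  · intro a b
    rw [hinv, Units.val_mul]
    exact mem_mul R (pm_mem R τ⁻¹) (sgu_mem R e) a b
  · rw [Units.val_mul, transpose_mul]
    show (τ.permMatrix F)ᵀ * (diagonal fun i : Fin n => if i.val < ℓ then (-1 : F) ^ e else 1)ᵀ *
      diagonal f * ((diagonal fun i : Fin n => if i.val < ℓ then (-1 : F) ^ e else 1) *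
        τ.permMatrix F) = diagonal f
    have h1 : (diagonal fun i : Fin n => if i.val < ℓ then (-1 : F) ^ e else 1)ᵀ * diagonal f *
        (diagonal fun i : Fin n => if i.val < ℓ then (-1 : F) ^ e else 1) = diagonal f := by
      rw [diagonal_transpose, diagonal_mul_diagonal, diagonal_mul_diagonal]
      congr 1
      funext i
      split_ifs
      · rw [mul_right_comm, ← mul_pow, neg_mul_neg, one_mul, one_pow, one_mul]
      · rw [one_mul, mul_one]
    calc (τ.permMatrix F)ᵀ * (diagonal fun i : Fin n => if i.val < ℓ then (-1 : F) ^ e else 1)ᵀ *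
        diagonal f * ((diagonal fun i : Fin n => if i.val < ℓ then (-1 : F) ^ e else 1) *
          τ.permMatrix F)
        = (τ.permMatrix F)ᵀ * ((diagonal fun i : Fin n => if i.val < ℓ then (-1 : F) ^ e else 1)ᵀ *
          diagonal f * (diagonal fun i : Fin n => if i.val < ℓ then (-1 : F) ^ e else 1)) *
            τ.permMatrix F := by simp only [Matrix.mul_assoc]
      _ = diagonal f := by rw [h1]; exact pm_form τ f hfτ
  · rw [Units.val_mul, det_mul, det_sgu hn]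
    show _ * (τ.permMatrix F).det = 1
    rw [det_permutation]
    by_cases hs : Equiv.Perm.sign τ = 1
    · rw [if_pos hs, hs]
      simp
    · rw [if_neg hs, pow_one, hodd.neg_one_pow]
      rcases Int.units_eq_one_or (Equiv.Perm.sign τ) with h | h
      · exact absurd h hs
      · rw [h]
        simp

/-- unitary groups -/
theorem cycConj_UG {F : Type} [Ring F] [StarRing F] (R : Subring F) {n ℓ : ℕ} (h : Fin n → F)
    (hℓp : ℓ.Prime) (hn : ℓ ≤ n)
    (hf : ∀ i j : Fin n, i.val < ℓ → j.val < ℓ → h i = h j) (e : Equiv.Perm (Fin n) → ℕ)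
    (c : (Matrix (Fin n) (Fin n) F)ˣ) (hc : IsCyc ℓ c) (j : ℕ) (hj0 : 0 < j) (hj : j < ℓ) :
    ∃ τ : Equiv.Perm (Fin n), (sgu F n ℓ (e τ) * pu F τ) ∈ UG R h ∧
      (sgu F n ℓ (e τ) * pu F τ) * c * (sgu F n ℓ (e τ) * pu F τ)⁻¹ = c ^ j := by
  classical
  obtain ⟨τ, t1, t2, t3⟩ := exists_conj (F := F) hℓp hn e hc hj0 hj
  refine ⟨τ, ?_, t3⟩
  have hfτ : ∀ i, h (τ i) = h i := by
    intro i
    rcases lt_or_ge i.val ℓ with hi | hi
    · exact hf _ _ (t2 i hi) hi
    · rw [t1 i hi]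
  have hinv : ((sgu F n ℓ (e τ) * pu F τ)⁻¹ : (Matrix (Fin n) (Fin n) F)ˣ) =
      pu F τ⁻¹ * sgu F n ℓ (e τ) := by
    rw [_root_.mul_inv_rev]
    congr 1
  have hstar : ((pu F τ : (Matrix (Fin n) (Fin n) F)ˣ) : Matrix (Fin n) (Fin n) F)ᴴ =
      (τ.permMatrix F)ᵀ := by
    show (τ.permMatrix F)ᴴ = _
    ext a b
    rw [conjTranspose_apply, transpose_apply, pm_apply]
    split_ifs
    · exact star_one F
    · exact star_zero F
  refine ⟨⟨?_, ?_⟩, ?_⟩
  · intro a b
    rw [Units.val_mul]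
    exact mem_mul R (sgu_mem R (e τ)) (pm_mem R τ) a b
  · intro a b
    rw [hinv, Units.val_mul]
    exact mem_mul R (pm_mem R τ⁻¹) (sgu_mem R (e τ)) a b
  · rw [Units.val_mul, conjTranspose_mul, hstar]
    show (τ.permMatrix F)ᵀ *
      (diagonal fun i : Fin n => if i.val < ℓ then (-1 : F) ^ (e τ) else 1)ᴴ *
      diagonal h * ((diagonal fun i : Fin n => if i.val < ℓ then (-1 : F) ^ (e τ) else 1) *
        τ.permMatrix F) = diagonal h
    have h1 : (diagonal fun i : Fin n => if i.val < ℓ then (-1 : F) ^ (e τ) else 1)ᴴ *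
        diagonal h * (diagonal fun i : Fin n => if i.val < ℓ then (-1 : F) ^ (e τ) else 1) =
          diagonal h := by
      rw [diagonal_conjTranspose, diagonal_mul_diagonal, diagonal_mul_diagonal]
      congr 1
      funext i
      rw [Pi.star_apply]
      split_ifs
      · rw [star_pow, star_neg, star_one]
        rcases neg_one_pow_eq_or F (e τ) with h2 | h2
        · rw [h2, one_mul, mul_one]
        · rw [h2, neg_one_mul, mul_neg_one, neg_neg]
      · rw [star_one, one_mul, mul_one]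
    calc (τ.permMatrix F)ᵀ *
        (diagonal fun i : Fin n => if i.val < ℓ then (-1 : F) ^ (e τ) else 1)ᴴ *
        diagonal h * ((diagonal fun i : Fin n => if i.val < ℓ then (-1 : F) ^ (e τ) else 1) *
          τ.permMatrix F)
        = (τ.permMatrix F)ᵀ *
          ((diagonal fun i : Fin n => if i.val < ℓ then (-1 : F) ^ (e τ) else 1)ᴴ *
          diagonal h * (diagonal fun i : Fin n => if i.val < ℓ then (-1 : F) ^ (e τ) else 1)) *
            τ.permMatrix F := by simp only [Matrix.mul_assoc]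
      _ = diagonal h := by rw [h1]; exact pm_form τ h hfτ

theorem cycConj_UG' {F : Type} [Ring F] [StarRing F] (R : Subring F) {n ℓ : ℕ} (h : Fin n → F)
    (hℓp : ℓ.Prime) (hn : ℓ ≤ n)
    (hf : ∀ i j : Fin n, i.val < ℓ → j.val < ℓ → h i = h j) : CycConj ℓ (UG R h) := by
  intro c hc j hj0 hj
  obtain ⟨τ, h1, h2⟩ := cycConj_UG R h hℓp hn hf (fun _ => 0) c hc j hj0 hj
  exact ⟨_, h1, h2⟩

theorem cycConj_SUG {F : Type} [CommRing F] [StarRing F] (R : Subring F) {n ℓ : ℕ} (h : Fin n → F)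
    (hℓp : ℓ.Prime) (hℓ2 : ℓ ≠ 2) (hn : ℓ ≤ n)
    (hf : ∀ i j : Fin n, i.val < ℓ → j.val < ℓ → h i = h j) : CycConj ℓ (SUG R h) := by
  classical
  intro c hc j hj0 hj
  have hodd := hℓp.odd_of_ne_two hℓ2
  obtain ⟨τ, h1, h2⟩ := cycConj_UG R h hℓp hn hf
    (fun τ => if Equiv.Perm.sign τ = 1 then 0 else 1) c hc j hj0 hj
  refine ⟨_, ⟨h1, ?_⟩, h2⟩
  rw [Units.val_mul, det_mul, det_sgu hn]
  show _ * (τ.permMatrix F).det = 1
  rw [det_permutation]
  by_cases hs : Equiv.Perm.sign τ = 1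
  · rw [if_pos hs, hs]
    simp
  · rw [if_neg hs, pow_one, hodd.neg_one_pow]
    rcases Int.units_eq_one_or (Equiv.Perm.sign τ) with h | h
    · exact absurd h hs
    · rw [h]
      simp

end Pool.Agent.Helper31.Zim
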