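import Pool.Agent.Helper31.Zim.Mat

/-!
# Subgroups of finite index
-/

set_option autoImplicit false
set_option linter.unusedSectionVars false

namespace Pool.Agent.Helper31.Zim

open Module Matrix Pool.Agent.Helper381 Pool.Agent.H185.ZM Pool.Agent.E8helper2.ZB
  Pool.Agent.E8helper72.ZO
open scoped Manifold ContDiff

/-- a subgroup of small index prime to `ℓ` contains a conjugate of `s` and of an element of the
abelian group which is not constant -/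
theorem fixW {p ℓ : ℕ} [Fact p.Prime] (hℓ : ℓ.Prime) {G : Type} [Group G] (Γ Δ : Subgroup G)
    (φ : GG p ℓ →* G) (s : G) (hφ : ∀ g, φ g ∈ Γ) (hs : s ∈ Γ) (hsℓ : s ^ ℓ = 1)
    (hnd : ¬ ℓ ∣ Δ.relIndex Γ) (hlt : Δ.relIndex Γ < p ^ (ℓ - 1)) :
    ∃ γ ∈ Γ, γ⁻¹ * s * γ ∈ Δ ∧ ∃ g : GG p ℓ, γ⁻¹ * φ g * γ ∈ Δ ∧
      ∃ i j, Multiplicative.toAdd g i ≠ Multiplicative.toAdd g j := by
  classical
  have hp : p.Prime := Fact.out
  have hd : Δ.relIndex Γ = Nat.card (Γ ⧸ Δ.subgroupOf Γ) := rfl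
  have hfin : Finite (Γ ⧸ Δ.subgroupOf Γ) := by
    apply Nat.finite_of_card_ne_zero
    rw [← hd]
    intro h
    rw [h] at hnd
    exact hnd (dvd_zero _)
  set s' : Γ := ⟨s, hs⟩ with hs'
  have hs'ℓ : s' ^ ℓ = 1 := Subtype.ext hsℓ
  have hPG : IsPGroup ℓ (Subgroup.zpowers s') := by
    rintro ⟨g, hg⟩
    obtain ⟨k, rfl⟩ := Subgroup.mem_zpowers_iff.1 hg
    refine ⟨1, ?_⟩
    apply Subtype.ext
    show (s' ^ k) ^ ℓ ^ 1 = 1
    rw [pow_one, ← zpow_natCast, ← _root_.zpow_mul, mul_comm, _root_.zpow_mul, zpow_natCast, hs'ℓ,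
      _root_.one_zpow]
  have : Fact ℓ.Prime := ⟨hℓ⟩
  have hmod := hPG.card_modEq_card_fixedPoints (Γ ⧸ Δ.subgroupOf Γ)
  have hne : (MulAction.fixedPoints (Subgroup.zpowers s') (Γ ⧸ Δ.subgroupOf Γ)).Nonempty := by
    by_contra h
    rw [Set.not_nonempty_iff_eq_empty] at h
    have h0 : Nat.card (∅ : Set (Γ ⧸ Δ.subgroupOf Γ)) = 0 := by simp
    rw [h, h0, ← hd] at hmod
    exact hnd ((Nat.modEq_zero_iff_dvd).1 hmod)
  obtain ⟨x, hx⟩ := hne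
  have hsx : s' • x = x := hx ⟨s', Subgroup.mem_zpowers s'⟩
  set φ' : GG p ℓ →* Γ := φ.codRestrict Γ hφ with hφ'
  let U : Subgroup (GG p ℓ) := (MulAction.stabilizer Γ x).comap φ'
  have hU : ∀ g, g ∈ U ↔ φ' g • x = x := fun g => Iff.rfl
  obtain ⟨γ, rfl⟩ := QuotientGroup.mk_surjective x
  have hfixΔ : ∀ g : Γ, g • (QuotientGroup.mk γ : Γ ⧸ Δ.subgroupOf Γ) = QuotientGroup.mk γ →
      (γ : G)⁻¹ * (g : G) * (γ : G) ∈ Δ := by
    intro g hg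
    have h1 : (QuotientGroup.mk (g * γ) : Γ ⧸ Δ.subgroupOf Γ) = QuotientGroup.mk γ := hg
    rw [eq_comm, QuotientGroup.eq, Subgroup.mem_subgroupOf] at h1
    simpa [mul_assoc] using h1
  refine ⟨γ, γ.2, hfixΔ s' hsx, ?_⟩
  by_contra hcon
  push Not at hcon
  have hcU : ∀ g ∈ U, ∀ i j, Multiplicative.toAdd g i = Multiplicative.toAdd g j :=
    fun g hg => hcon g (hfixΔ (φ' g) hg)
  -- the order of `U`
  have hi0 : 0 < ℓ := hℓ.pos
  have hcard : Nat.card U ≤ p := by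
    have h1 : Nat.card U ≤ Nat.card (ZMod p) := by
      apply Nat.card_le_card_of_injective
        (fun g : U => Multiplicative.toAdd (g : GG p ℓ) ⟨0, hi0⟩)
      intro g h hgh
      apply Subtype.ext
      have h2 : Multiplicative.toAdd (g : GG p ℓ) = Multiplicative.toAdd (h : GG p ℓ) := by
        funext i
        rw [hcU g g.2 i ⟨0, hi0⟩, hcU h h.2 i ⟨0, hi0⟩]
        exact hgh
      exact h2
    rwa [Nat.card_zmod] at h1
  have hidx : U.index ≤ Δ.relIndex Γ := by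
    rw [hd, Subgroup.index]
    apply Nat.card_le_card_of_injective
      (fun q : (GG p ℓ) ⧸ U => φ' (Quotient.out q) • (QuotientGroup.mk γ : Γ ⧸ Δ.subgroupOf Γ))
    intro q q' h
    have h1 : φ' (Quotient.out q) • (QuotientGroup.mk γ : Γ ⧸ Δ.subgroupOf Γ) =
      φ' (Quotient.out q') • QuotientGroup.mk γ := h
    have h2 : (Quotient.out q)⁻¹ * Quotient.out q' ∈ U := by
      rw [hU, map_mul, map_inv, mul_smul, ← h1, inv_smul_smul]
    have h3 := QuotientGroup.eq.2 h2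
    rwa [QuotientGroup.out_eq', QuotientGroup.out_eq'] at h3
  have hmul := U.card_mul_index
  have hG : Nat.card (GG p ℓ) = p ^ ℓ := by
    rw [Nat.card_congr Multiplicative.toAdd, Nat.card_fun, Nat.card_zmod, Nat.card_fin]
  rw [hG] at hmul
  have h1 : p ^ ℓ ≤ p * U.index := by
    rw [← hmul]
    exact Nat.mul_le_mul_right _ hcard
  have h2 : p ^ ℓ = p * p ^ (ℓ - 1) := by
    rw [← pow_succ', Nat.sub_add_cancel hℓ.one_le]
  rw [h2] at h1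
  have h3 := Nat.le_of_mul_le_mul_left h1 hp.pos
  omega

variable {E : Type} [NormedAddCommGroup E] [NormedSpace ℝ E] [FiniteDimensional ℝ E]
  {M : Type} [TopologicalSpace M] [ChartedSpace E M] [IsManifold 𝓘(ℝ, E) ∞ M]

/-- **Subgroups of finite index of groups of matrices.** -/
theorem matFI [CompactSpace M] [T2Space M] [ConnectedSpace M] {p ℓ : ℕ} (hp : p.Prime)
    (hℓp : ℓ.Prime) (hℓ2 : ℓ ≠ 2) (hpl : p ≠ ℓ) (hm : finrank ℝ E / 2 + ℓ / p + 1 < ℓ)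
    {F : Type} [Ring F] {z : F} {n : ℕ} (hz : z ^ p = 1) (hz1 : z ≠ 1) (hn : ℓ ≤ n)
    {Γ Δ : Subgroup (Matrix (Fin n) (Fin n) F)ˣ} (hΓ : HasCyc z p ℓ Γ)
    (hnd : ¬ ℓ ∣ Δ.relIndex Γ) (hlt : Δ.relIndex Γ < p ^ (ℓ - 1))
    {α : Δ → (M ≃ₘ^∞⟮𝓘(ℝ, E), 𝓘(ℝ, E)⟯ M)} (hα : IsHom α)
    (hβ : ∀ g : Δ, (∃ c, IsCyc ℓ c ∧ ∃ γ ∈ Γ,
        (g : (Matrix (Fin n) (Fin n) F)ˣ) = γ⁻¹ * c * γ) →
      ∀ q, 1 ≤ q → q ≤ finrank ℝ E → GoodAt p ℓ α g q) :
    (∃ g : Δ, g ∉ Subgroup.center Δ ∧ ∀ x, α g x = x) ∧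
      (CentralOrFiniteIndex Δ → (Set.range α).Finite) := by
  have : Fact p.Prime := ⟨hp⟩
  obtain ⟨σ, h1, h2⟩ := exists_perm (n := n) (ℓ := ℓ) hℓp.one_le hn
  have hcyc : IsCyc ℓ (pu F σ) := ⟨σ, h1, h2, rfl⟩
  obtain ⟨γ, hγ, hsγ, g, hg, i, j, hij⟩ := fixW hℓp Γ Δ (F0 z p ℓ n hz) (pu F σ)
    (F0_mem hz hn hΓ) (hΓ.2 _ hcyc) (pu_pow_eq h1 h2) hnd hlt
  have hlp : ¬ p ∣ ℓ := fun h => hpl ((Nat.prime_dvd_prime_iff_eq hp hℓp).1 h)
  have hℓ0 : (ℓ : ZMod p) ≠ 0 := by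
    rw [Ne, ZMod.natCast_eq_zero_iff]
    exact hlp
  have ho : orderOf z = p := orderOf_eq_prime hz hz1
  let ψ : GG p ℓ →* (Matrix (Fin n) (Fin n) F)ˣ :=
    (MulAut.conj γ⁻¹).toMonoidHom.comp (F0 z p ℓ n hz)
  have hψ : ∀ g, ψ g = γ⁻¹ * F0 z p ℓ n hz g * γ := by
    intro g
    show γ⁻¹ * F0 z p ℓ n hz g * (γ⁻¹)⁻¹ = _
    rw [inv_inv]
  let A : Subgroup Δ := ψ.range.subgroupOf Δ
  let s : Δ := ⟨γ⁻¹ * pu F σ * γ, hsγ⟩
  have hπ : ∀ i, F0 z p ℓ n hz (gen p ℓ i) * pu F σ =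
    pu F σ * F0 z p ℓ n hz (gen p ℓ (finRotate ℓ i)) := F0_comm hz h1 h2
  have hpow : ∀ g : GG p ℓ, g ^ p = 1 := by
    intro g
    have h14 : p • (Multiplicative.toAdd g) = 0 := by
      funext i
      simp
    exact congrArg Multiplicative.ofAdd h14
  have hfinR : Finite ψ.range := by
    have : Finite (GG p ℓ) := inferInstanceAs (Finite (Fin ℓ → ZMod p))
    exact Finite.of_surjective _ ψ.rangeRestrict_surjective
  have hfin : Finite A := by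
    let f : A → ψ.range := fun x => ⟨((x : Δ) : (Matrix (Fin n) (Fin n) F)ˣ), x.2⟩
    refine Finite.of_injective f fun a b hab => ?_
    have h3 := congrArg (fun y : ψ.range => (y : (Matrix (Fin n) (Fin n) F)ˣ)) hab
    exact Subtype.ext (Subtype.ext h3)
  refine genF hp hℓp hℓ2 hpl hα A (by
    rintro x ⟨g, hg⟩
    apply Subtype.ext
    show ((x : Δ) : (Matrix (Fin n) (Fin n) F)ˣ) ^ p = 1
    have hg' : ψ g = ((x : Δ) : (Matrix (Fin n) (Fin n) F)ˣ) := hg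
    rw [← hg', ← map_pow, hpow, map_one]) (by
    rintro x ⟨g, hg⟩ y ⟨h, hh⟩
    apply Subtype.ext
    have hg' : ψ g = ((x : Δ) : (Matrix (Fin n) (Fin n) F)ˣ) := hg
    have hh' : ψ h = ((y : Δ) : (Matrix (Fin n) (Fin n) F)ˣ) := hh
    show (x : (Matrix (Fin n) (Fin n) F)ˣ) * y = (y : (Matrix (Fin n) (Fin n) F)ˣ) * x
    rw [← hg', ← hh', ← map_mul, ← map_mul, mul_comm]) s (by
    apply Subtype.ext
    show (γ⁻¹ * pu F σ * γ) ^ ℓ = 1
    have e : γ⁻¹ * pu F σ * γ = γ⁻¹ * pu F σ * (γ⁻¹)⁻¹ := by rw [inv_inv]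
    rw [e, conj_pow, pu_pow_eq h1 h2, mul_one, mul_inv_cancel]) (by
    rintro x ⟨g, hg⟩
    have hg' : ψ g = ((x : Δ) : (Matrix (Fin n) (Fin n) F)ˣ) := hg
    refine ⟨Multiplicative.ofAdd fun i => (Multiplicative.toAdd g) (finRotate ℓ i), ?_⟩
    show ψ _ = (γ⁻¹ * pu F σ * γ) * (x : (Matrix (Fin n) (Fin n) F)ˣ) * (γ⁻¹ * pu F σ * γ)⁻¹
    rw [hψ, ← conj_pos hπ g, ← hg', hψ]
    group) ?_ (hβ s ⟨pu F σ, hcyc, γ, hγ, rfl⟩) hm
  refine ⟨⟨ψ g, by rw [hψ]; exact hg⟩, ⟨g, rfl⟩, fun hcomm => hij ?_⟩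
  have h3 : (γ⁻¹ * pu F σ * γ) * ψ g = ψ g * (γ⁻¹ * pu F σ * γ) := congrArg Subtype.val hcomm
  rw [hψ] at h3
  have h4 : pu F σ * F0 z p ℓ n hz g * (pu F σ)⁻¹ = F0 z p ℓ n hz g := by
    have h5 : pu F σ * F0 z p ℓ n hz g = F0 z p ℓ n hz g * pu F σ := by
      calc pu F σ * F0 z p ℓ n hz g
          = γ * ((γ⁻¹ * pu F σ * γ) * (γ⁻¹ * F0 z p ℓ n hz g * γ)) * γ⁻¹ := by group
        _ = γ * ((γ⁻¹ * F0 z p ℓ n hz g * γ) * (γ⁻¹ * pu F σ * γ)) * γ⁻¹ := by rw [h3]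
        _ = F0 z p ℓ n hz g * pu F σ := by group
    rw [h5]
    group
  rw [conj_pos hπ g] at h4
  have h6 : F0 z p ℓ n hz ((Multiplicative.ofAdd
      fun i => (Multiplicative.toAdd g) (finRotate ℓ i)) * g⁻¹) = 1 := by
    rw [map_mul, map_inv, h4, mul_inv_cancel]
  have h7 := F0_center hz ho hlp hn
    (g := (Multiplicative.ofAdd fun i => (Multiplicative.toAdd g) (finRotate ℓ i)) * g⁻¹)
    (by rw [h6]; exact Subgroup.one_mem _)
  have e1 : ∀ i, Multiplicative.toAdd ((Multiplicative.ofAdd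
      fun i => (Multiplicative.toAdd g) (finRotate ℓ i)) * g⁻¹) i =
      (Multiplicative.toAdd g) (finRotate ℓ i) - (Multiplicative.toAdd g) i := by
    intro i
    rw [sub_eq_add_neg]
    rfl
  simp only [e1] at h7
  have h8 : ∀ t, (Multiplicative.toAdd g) (finRotate ℓ t) = (Multiplicative.toAdd g) t := by
    intro t
    have h9 : ∑ i, ((Multiplicative.toAdd g) (finRotate ℓ i) - (Multiplicative.toAdd g) i) =
        ∑ _i : Fin ℓ, ((Multiplicative.toAdd g) (finRotate ℓ t) - (Multiplicative.toAdd g) t) :=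
      Finset.sum_congr rfl fun i _ => h7 i t
    rw [Finset.sum_sub_distrib, Equiv.sum_comp (finRotate ℓ) (Multiplicative.toAdd g), sub_self,
      Finset.sum_const, Finset.card_univ, Fintype.card_fin, nsmul_eq_mul] at h9
    exact sub_eq_zero.1 ((mul_eq_zero.1 h9.symm).resolve_left hℓ0)
  obtain ⟨m, rfl⟩ : ∃ m, ℓ = m + 1 := ⟨ℓ - 1, by have := hℓp.pos; omega⟩
  have h9 : ∀ i, (Multiplicative.toAdd g) i = (Multiplicative.toAdd g) 0 := by
    intro i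
    induction i using Fin.induction with
    | zero => rfl
    | succ i ih =>
      rw [← ih, ← h8 i.castSucc, finRotate_apply, Fin.coeSucc_eq_succ]
  rw [h9 i, h9 j]

end Pool.Agent.Helper31.Zim
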