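import Pool.Agent.Helper31.Zim.Occ2

/-!
# Weights: finite groups which contain wreath products
-/

set_option autoImplicit false
set_option linter.unusedSectionVars false

namespace Pool.Agent.Helper31.Zim

open Module Metric Set Pool.Agent.Helper381 Pool.Agent.H185.ZM Pool.Agent.E8helper2.ZB
open scoped Manifold ContDiff Topology

section arith

/-- the exponents of the first part -/
theorem not_dvd_one {p ℓ m q : ℕ} (hp : p.Prime) (hℓ : ℓ.Prime) (hpl : p ≠ ℓ)
    (hm : m / 2 + ℓ / p + 1 < ℓ) (hq1 : 1 ≤ q) (hqm : q ≤ m) :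
    ¬ ℓ ∣ wj p (p - ℓ % p) (q + 1) := by
  have hnd : ¬ ℓ ∣ p := fun h => hpl ((Nat.prime_dvd_prime_iff_eq hℓ hp).1 h).symm
  rcases Nat.even_or_odd' q with ⟨k, rfl | rfl⟩
  · rw [wj_odd]
    intro h
    have hb : ℓ % p < p := Nat.mod_lt _ hp.pos
    have h1 := Nat.div_add_mod ℓ p
    generalize ℓ / p = a at *
    have e : p * k + (p - ℓ % p) + ℓ = p * (k + 1 + a) := by
      have h2 : p * (k + 1 + a) = p * k + p + p * a := by ring
      generalize p * a = u at *
      generalize p * k = v at *
      generalize p * (k + 1 + a) = w at *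
      generalize ℓ % p = b at *
      omega
    have h3 : ℓ ∣ p * (k + 1 + a) := by
      rw [← e]
      exact Nat.dvd_add h (Nat.dvd_refl ℓ)
    rcases (Nat.Prime.dvd_mul hℓ).1 h3 with h4 | h4
    · exact hnd h4
    · have := Nat.le_of_dvd (by omega) h4
      omega
  · rw [show 2 * k + 1 + 1 = 2 * (k + 1) by ring, wj_even]
    intro h
    generalize ℓ / p = a at *
    rcases (Nat.Prime.dvd_mul hℓ).1 h with h4 | h4
    · exact hnd h4
    · have := Nat.le_of_dvd (by omega) h4
      omega

/-- the exponents of the second part -/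
theorem not_dvd_two {p ℓ m q : ℕ} (hp : p.Prime) (hℓ : ℓ.Prime) (hpl : p ≠ ℓ)
    (hm : m / 2 + ℓ / p + 1 < ℓ) (hqm : q ≤ m) :
    ¬ ℓ ∣ p * (ℓ / p + 1) + wj p (ℓ % p) q := by
  have hnd : ¬ ℓ ∣ p := fun h => hpl ((Nat.prime_dvd_prime_iff_eq hℓ hp).1 h).symm
  have h1 := Nat.div_add_mod ℓ p
  generalize ℓ / p = a at *
  rcases Nat.even_or_odd' q with ⟨k, rfl | rfl⟩
  · rw [wj_even]
    intro h
    have h3 : ℓ ∣ p * (k + 1 + a) := by
      have e : p * (k + 1 + a) = p * (a + 1) + p * k := by ring
      rwa [e]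
    rcases (Nat.Prime.dvd_mul hℓ).1 h3 with h4 | h4
    · exact hnd h4
    · have := Nat.le_of_dvd (by omega) h4
      omega
  · rw [wj_odd]
    intro h
    have e : p * (a + 1) + (p * k + ℓ % p) = p * (k + 1) + ℓ := by
      have h2 : p * (a + 1) = p * a + p := by ring
      have h3 : p * (k + 1) = p * k + p := by ring
      generalize p * a = u at *
      generalize p * k = v at *
      generalize p * (a + 1) = w at *
      generalize p * (k + 1) = x at *
      generalize ℓ % p = b at *
      omega
    rw [e] at h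
    have h5 : ℓ ∣ p * (k + 1) := (Nat.dvd_add_left (Nat.dvd_refl ℓ)).1 h
    rcases (Nat.Prime.dvd_mul hℓ).1 h5 with h4 | h4
    · exact hnd h4
    · have := Nat.le_of_dvd (by omega) h4
      omega

end arith

section manifold

variable {E : Type} [NormedAddCommGroup E] [NormedSpace ℝ E] [FiniteDimensional ℝ E]
  {M : Type} [TopologicalSpace M] [ChartedSpace E M] [IsManifold 𝓘(ℝ, E) ∞ M]

/-- **A fixed point at which the isotropy representation is invariant.** -/
theorem smoothB [CompactSpace M] [T2Space M] [ConnectedSpace M] {p k : ℕ} [Fact p.Prime]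
    {P : Type} [Group P] [Finite P] {a : P → M → M}
    (ha : SmoothAction E a) (φ : GG p k →* P) (s : P) {ℓ : ℕ} (hℓp : ℓ.Prime) (hpl : p ≠ ℓ)
    (hs : s ^ ℓ = 1)
    (π : Equiv.Perm (Fin k)) (hπ : ∀ i, φ (gen p k i) * s = s * φ (gen p k (π i)))
    (K : Type) [Field K] [Algebra (ZMod p) K] (ξ : Fin k → K)
    (ζ : K) (hζ : orderOf ζ = ℓ) (hξ : ∀ i, ξ i = ζ * ξ (π i))
    (hβ : ∀ q, 1 ≤ q → q ≤ finrank ℝ E → finrank (ZMod p) (SingularCohomology (ZMod p) M q) <
        orderOf (p : ZMod ℓ) ∨
          CohTriv (ZMod p) (⟨a s, (ha.smooth s).continuous⟩ : C(M, M)) q)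
    (hm : finrank ℝ E / 2 + ℓ / p + 1 < ℓ)
    (hgen : ∀ c : Fin k → ZMod p, (∀ g : GG p k, φ g = 1 →
      ∑ i, c i * (Multiplicative.toAdd g) i = 0) →
        ∑ i, algebraMap (ZMod p) K (c i) * ξ i = 0 → c = 0) :
    ∃ (W : Type) (_ : NormedAddCommGroup W) (_ : InnerProductSpace ℝ W)
      (_ : FiniteDimensional ℝ W) (F : M → W) (T : P → W →L[ℝ] W), EquiEmb E a W F T ∧
      ∃ x : M, (∀ g, a (φ g) x = x) ∧ occ E F T φ (a s x) = occ E F T φ x := by
  classical
  have hp : p.Prime := Fact.out
  have hℓ0 : ℓ ≠ 0 := hℓp.ne_zero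
  have hcop : p.Coprime ℓ := (Nat.coprime_primes hp hℓp).2 hpl
  have hnd : ¬ ℓ ∣ p := fun h => hpl ((Nat.prime_dvd_prime_iff_eq hℓp hp).1 h).symm
  have hζ1 : ζ ^ ℓ = 1 := by rw [← hζ]; exact pow_orderOf_eq_one ζ
  have hfo : IsOfFinOrder ζ := by
    rw [← orderOf_pos_iff, hζ]
    exact hℓp.pos
  have hℓK : (ℓ : K) ≠ 0 := by
    intro h
    have : CharP K p := charP_of_injective_algebraMap (algebraMap (ZMod p) K).injective p
    have h1 := (CharP.cast_eq_zero_iff K p ℓ).1 h
    exact hpl ((Nat.prime_dvd_prime_iff_eq hp hℓp).1 h1)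
  have hb0 : 0 < ℓ % p := Nat.pos_of_ne_zero fun h =>
    hpl ((Nat.prime_dvd_prime_iff_eq hp hℓp).1 (Nat.dvd_of_mod_eq_zero h))
  have hbp : ℓ % p < p := Nat.mod_lt _ hp.pos
  have hord : ∀ w, ¬ ℓ ∣ w → orderOf (ζ ^ w) = ℓ := by
    intro w hw
    rw [hfo.orderOf_pow, hζ, (Nat.Prime.coprime_iff_not_dvd hℓp).2 hw, Nat.div_one]
  have hne1 : ∀ w, ¬ ℓ ∣ w → ζ ^ w ≠ 1 := by
    intro w hw h
    apply hw
    rw [← hζ]
    exact orderOf_dvd_of_pow_eq_one h
  have : LocallyPathConnectedSpace M := ChartedSpace.locallyPathConnectedSpace E M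
  have : PathConnectedSpace M := pathConnectedSpace_iff_connectedSpace.2 inferInstance
  have hβ0 := betti_zero_le (ZMod p) (X := M)
  obtain ⟨W, iW1, iW2, iW3, F, T, hF⟩ := exists_equi ha
  refine ⟨W, iW1, iW2, iW3, F, T, hF, ?_⟩
  let g := hF.metric
  obtain ⟨R, G⟩ := Q145.TN.exists_geo g
  let _ := Q145.TN.mS g
  let b : P →* (M ≃ᵢ M) :=
    { toFun := fun p =>
        { toFun := a p
          invFun := a p⁻¹
          left_inv := fun x => by rw [← ha.mul, inv_mul_cancel, ha.one]
          right_inv := fun x => by rw [← ha.mul, mul_inv_cancel, ha.one]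
          isometry_toFun := fun x y => by
            show (Q145.TN.mS g).toPseudoMetricSpace.toPseudoEMetricSpace.edist _ _ =
              (Q145.TN.mS g).toPseudoMetricSpace.toPseudoEMetricSpace.edist _ _
            rw [Q145.TN.edist_mS, Q145.TN.edist_mS]
            exact hF.dist_eq ha p x y }
      map_one' := by
        ext x
        exact ha.one x
      map_mul' := fun p q => by
        ext x
        exact ha.mul p q x }
  have : Nonempty M := inferInstance
  exact geoB G b φ s hℓp hs π hπ K ξ ζ hζ1 hℓK hξ (p - ℓ % p) (ℓ % p) (p * (ℓ / p + 1))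
    (by omega) (by omega) (by omega) (by omega)
    (hne1 _ (by
      intro h
      generalize ℓ / p = a at *
      rcases (Nat.Prime.dvd_mul hℓp).1 h with h4 | h4
      · exact hnd h4
      · have := Nat.le_of_dvd (by omega) h4
        omega)) hβ0 (fun q hq w hw => by
      by_cases hqm : q ≤ finrank ℝ E
      · have hw' : ¬ ℓ ∣ w := by
          rcases hw with rfl | rfl
          · exact not_dvd_one hp hℓp hpl hm hq hqm
          · exact not_dvd_two hp hℓp hpl hm hqm
        rw [hord w hw']
        rcases hβ q hq hqm with h | h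
        · exact Or.inl h
        · exact Or.inr ⟨hne1 w hw', h⟩
      · left
        have h1 : Subsingleton (SingularCohomology (ZMod p) M q) :=
          Pool.Agent.E8helper95.ZB.van Pool.Agent.E8helper41.ZB.box (ZMod p) E M q (by omega)
        rw [Module.finrank_zero_of_subsingleton]
        refine ord_pos hcop hℓ0 ?_
        rw [hfo.orderOf_pow, hζ]
        exact Nat.div_dvd_of_dvd (Nat.gcd_dvd_left _ _))
    (fun H hH hH1 => by
      obtain ⟨V, hV, hc⟩ := exists_ann' H
      have hV0 : finrank (ZMod p) V ≠ 0 := by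
        intro h0
        rw [h0, pow_zero, mul_one] at hc
        exact hH1 ((Subgroup.card_eq_iff_eq_top H).1 hc.symm)
      have hVb : V ≠ ⊥ := by
        rintro rfl
        exact hV0 (finrank_bot _ _)
      obtain ⟨χ, hχ, hχ0⟩ := V.exists_mem_ne_zero_of_ne_bot hVb
      refine ⟨χ, (hV χ).1 hχ, fun h => hχ0 (hgen χ (fun g hg => (hV χ).1 hχ g (hH g hg)) h)⟩)
    (occ E F T φ) (fun x hx => occ_eventually hF ha x hx)
    (fun x y _ _ hxy => by
      have key : ∀ x y, occ E F T φ x = occ E F T φ y →
          occ E F T φ (a s x) ⊆ occ E F T φ (a s y) := by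
        intro x y hxy c hc
        have h1 := occ_map' hF ha s π hπ hc
        rw [hxy] at h1
        have h2 := occ_map hF ha s π hπ h1
        simpa using h2
      exact Set.Subset.antisymm (key x y hxy) (key y x hxy.symm))

/-- **Finite groups which contain wreath products.** -/
theorem manF [CompactSpace M] [T2Space M] [ConnectedSpace M] {p k : ℕ} [Fact p.Prime]
    {P : Type} [Group P] [Finite P] {a : P → M → M}
    (ha : SmoothAction E a) (φ : GG p k →* P) (s : P) {ℓ : ℕ} (hℓp : ℓ.Prime) (hℓ2 : ℓ ≠ 2)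
    (hpl : p ≠ ℓ) (hs : s ^ ℓ = 1)
    (π : Equiv.Perm (Fin k)) (hπ : ∀ i, φ (gen p k i) * s = s * φ (gen p k (π i)))
    (K : Type) [Field K] [Algebra (ZMod p) K] (ξ : Fin k → K)
    (ζ : K) (hζ : orderOf ζ = ℓ) (hξ : ∀ i, ξ i = ζ * ξ (π i))
    (hβ : ∀ q, 1 ≤ q → q ≤ finrank ℝ E → finrank (ZMod p) (SingularCohomology (ZMod p) M q) <
        orderOf (p : ZMod ℓ) ∨
          CohTriv (ZMod p) (⟨a s, (ha.smooth s).continuous⟩ : C(M, M)) q)
    (hm : finrank ℝ E / 2 + ℓ / p + 1 < ℓ)
    (hgen : ∀ c : Fin k → ZMod p, (∀ g : GG p k, φ g = 1 →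
      ∑ i, c i * (Multiplicative.toAdd g) i = 0) →
        ∑ i, algebraMap (ZMod p) K (c i) * ξ i = 0 → c = 0) (g : GG p k) (y : M) :
    a (φ g) y = y := by
  classical
  have hp : p.Prime := Fact.out
  obtain ⟨W, _, _, _, F, T, hF, x, hx, hocc⟩ :=
    smoothB ha φ s hℓp hpl hs π hπ K ξ ζ hζ hξ hβ hm hgen
  by_cases h0 : ∀ c ∈ occ E F T φ x, c = 0
  · exact hF.trivial_of_fix ha (hx g) (fun v hv => occ_trivial hF ha hx h0 g hv) y
  · exfalso
    push Not at h0
    obtain ⟨c, hc, hc0⟩ := h0
    -- characters which occur are trivial on the kernel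
    have hker : ∀ c ∈ occ E F T φ x, ∀ g : GG p k, φ g = 1 →
        ∑ i, c i * (Multiplicative.toAdd g) i = 0 := by
      rintro c ⟨v, _, w, _, hvw, hE⟩ g hg
      apply chv_eq_one
      obtain ⟨h1, h2⟩ := hE g
      rw [hg, hF.one] at h1 h2
      set A := (chv c g).re with hA
      set B := (chv c g).im with hB
      have n1 : A * A + B * B = 1 := chv_sq c g
      have h3 : ((A - 1) * (A - 1) + B * B) • v = 0 := by
        have e1 : (A - 1) • v = B • w := by
          rw [sub_smul, one_smul, sub_eq_iff_eq_add]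
          conv_rhs => rw [h1]
          module
        have e2 : B • v = (1 - A) • w := by
          rw [sub_smul, one_smul, eq_sub_iff_add_eq]
          exact h2.symm
        calc ((A - 1) * (A - 1) + B * B) • v = (A - 1) • ((A - 1) • v) + B • (B • v) := by module
          _ = 0 := by rw [e1, e2]; module
      have h4 : ((A - 1) * (A - 1) + B * B) • w = 0 := by
        have e1 : (A - 1) • v = B • w := by
          rw [sub_smul, one_smul, sub_eq_iff_eq_add]
          conv_rhs => rw [h1]
          module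
        have e2 : B • v = (1 - A) • w := by
          rw [sub_smul, one_smul, eq_sub_iff_add_eq]
          exact h2.symm
        calc ((A - 1) * (A - 1) + B * B) • w = B • (B • w) - (A - 1) • ((1 - A) • w) := by module
          _ = 0 := by rw [← e1, ← e2]; module
      have h5 : (A - 1) * (A - 1) + B * B = 0 := by
        rcases hvw with h | h
        · exact (smul_eq_zero.1 h3).resolve_right h
        · exact (smul_eq_zero.1 h4).resolve_right h
      have h6 : A = 1 := by nlinarith
      have h7 : B = 0 := by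
        rw [h6] at h5
        nlinarith
      apply Complex.ext
      · rw [← hA, h6, Complex.one_re]
      · rw [← hB, h7, Complex.one_im]
    -- the orbit of the character
    let X : (Fin k → ZMod p) → K := fun c => ∑ i, algebraMap (ZMod p) K (c i) * ξ i
    have hXπ : ∀ c : Fin k → ZMod p, X (fun i => c (π i)) = ζ * X c := by
      intro c
      show ∑ i, algebraMap (ZMod p) K (c (π i)) * ξ i =
        ζ * ∑ i, algebraMap (ZMod p) K (c i) * ξ i
      rw [Finset.mul_sum, ← Equiv.sum_comp π (fun i => ζ * (algebraMap (ZMod p) K (c i) * ξ i))]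
      refine Finset.sum_congr rfl fun i _ => ?_
      rw [hξ i]
      ring
    let C : ℕ → Fin k → ZMod p := fun n => (fun c : Fin k → ZMod p => fun i => c (π i))^[n] c
    have hC : ∀ n, C n ∈ occ E F T φ x ∧ X (C n) = ζ ^ n * X c := by
      intro n
      induction n with
      | zero => exact ⟨hc, by rw [pow_zero, one_mul]; rfl⟩
      | succ n ih =>
        have e : C (n + 1) = fun i => C n (π i) := by
          show (fun c : Fin k → ZMod p => fun i => c (π i))^[n + 1] c = _
          rw [Function.iterate_succ_apply']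
        rw [e]
        refine ⟨?_, ?_⟩
        · rw [← hocc]
          exact occ_map hF ha s π hπ ih.1
        · rw [hXπ, ih.2, pow_succ]
          ring
    have hX0 : X c ≠ 0 := fun h => hc0 (hgen c (hker c hc) h)
    have hζ0 : ζ ≠ 0 := by
      rintro rfl
      rw [orderOf_zero] at hζ
      exact hℓp.ne_zero hζ.symm
    have hCC : ∀ i j : Fin ℓ, i ≠ j → C i ≠ C j ∧ C i ≠ -C j := by
      have key : ∀ i j : Fin ℓ, i < j → (ζ : K) ^ (2 * (j - i : ℕ)) ≠ 1 := by
        intro i j hij h
        have h1 := orderOf_dvd_of_pow_eq_one h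
        rw [hζ] at h1
        rcases (Nat.Prime.dvd_mul hℓp).1 h1 with h2 | h2
        · exact hℓ2 ((Nat.prime_dvd_prime_iff_eq hℓp Nat.prime_two).1 h2)
        · have := Nat.le_of_dvd (by omega) h2
          have := j.2
          omega
      have key2 : ∀ i j : Fin ℓ, i < j → ∀ u : K, u * u = 1 → ζ ^ (i : ℕ) ≠ u * ζ ^ (j : ℕ) := by
        intro i j hij u hu h
        apply key i j hij
        have e : (ζ : K) ^ (j : ℕ) = ζ ^ (i : ℕ) * ζ ^ (j - i : ℕ) := by
          rw [← pow_add]
          congr 1
          omega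
        rw [e] at h
        have h1 : u * ζ ^ (j - i : ℕ) = 1 := by
          have h2 : ζ ^ (i : ℕ) ≠ 0 := pow_ne_zero _ hζ0
          apply mul_left_cancel₀ h2
          rw [mul_one]
          calc ζ ^ (i : ℕ) * (u * ζ ^ (j - i : ℕ)) = u * (ζ ^ (i : ℕ) * ζ ^ (j - i : ℕ)) := by ring
            _ = _ := h.symm
        calc (ζ : K) ^ (2 * (j - i : ℕ)) = (u * u) * (ζ ^ (j - i : ℕ) * ζ ^ (j - i : ℕ)) := by
              rw [hu, one_mul, two_mul, pow_add]
          _ = (u * ζ ^ (j - i : ℕ)) * (u * ζ ^ (j - i : ℕ)) := by ring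
          _ = 1 := by rw [h1, one_mul]
      have key3 : ∀ i j : Fin ℓ, i ≠ j → ∀ u : K, u * u = 1 → ζ ^ (i : ℕ) ≠ u * ζ ^ (j : ℕ) := by
        intro i j hij u hu h
        rcases lt_or_gt_of_ne hij with h1 | h1
        · exact key2 i j h1 u hu h
        · apply key2 j i h1 u hu
          rw [h, ← mul_assoc, hu, one_mul]
      intro i j hij
      constructor
      · intro h
        apply key3 i j hij 1 (by ring)
        have h1 : X (C i) = X (C j) := by rw [h]
        rw [(hC i).2, (hC j).2] at h1
        rw [one_mul]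
        exact mul_right_cancel₀ hX0 h1
      · intro h
        apply key3 i j hij (-1) (by ring)
        have h1 : X (C i) = -X (C j) := by
          rw [h]
          show ∑ t, algebraMap (ZMod p) K ((-C j) t) * ξ t =
            -∑ t, algebraMap (ZMod p) K (C j t) * ξ t
          rw [← Finset.sum_neg_distrib]
          refine Finset.sum_congr rfl fun t _ => ?_
          rw [Pi.neg_apply, map_neg, neg_mul]
        rw [(hC i).2, (hC j).2] at h1
        apply mul_right_cancel₀ hX0
        rw [h1]
        ring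
    choose v hv w hw hvw hE using fun i : Fin ℓ => (hC i).1
    have hcard := card_le (T := T) (φ := φ) hF.isom (TS E F x) (fun i : Fin ℓ => C i) hCC v w hv hw
      hvw hE
    rw [hF.finrank_TS] at hcard
    by_cases hp2 : p = 2
    · subst hp2
      have hodd := hℓp.odd_of_ne_two hℓ2
      obtain ⟨r, hr⟩ := hodd
      have := hcard.1
      have h1 : ℓ / 2 = r := by omega
      rw [h1] at hm
      omega
    · have h2 : (2 : ZMod p) ≠ 0 := by
        have : ((2 : ℕ) : ZMod p) ≠ 0 := by
          rw [Ne, ZMod.natCast_eq_zero_iff]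
          intro h
          exact hp2 ((Nat.prime_dvd_prime_iff_eq hp Nat.prime_two).1 h)
        simpa using this
      have := hcard.2 (fun i => by
        intro h
        have h3 : C i = 0 := by
          funext t
          have h4 : C i t = -C i t := congrFun h t
          have h5 : (2 : ZMod p) * C i t = 0 := by
            linear_combination h4
          exact (mul_eq_zero.1 h5).resolve_left h2
        have h6 := (hC i).2
        rw [h3] at h6
        have h7 : X (0 : Fin k → ZMod p) = 0 := by
          show ∑ i, algebraMap (ZMod p) K ((0 : Fin k → ZMod p) i) * ξ i = 0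
          simp
        rw [h7] at h6
        exact (mul_ne_zero (pow_ne_zero _ hζ0) hX0) h6.symm)
      generalize ℓ / p = a at *
      omega

end manifold

end Pool.Agent.Helper31.Zim
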