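import Pool.Agent.Helper31.Zim.Abs

/-!
# Homomorphisms into diffeomorphism groups
-/

set_option autoImplicit false
set_option linter.unusedSectionVars false

namespace Pool.Agent.Helper31.Zim

open Module Pool.Agent.Helper381 Pool.Agent.H185.ZM Pool.Agent.E8helper2.ZB
open scoped Manifold ContDiff

/-- the diffeomorphism `f` induces the identity on `H^q(M; F_p)` -/
def ActTriv (p : ℕ) {E : Type} [NormedAddCommGroup E] [NormedSpace ℝ E] {M : Type}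
    [TopologicalSpace M] [ChartedSpace E M] (f : M ≃ₘ^∞⟮𝓘(ℝ, E), 𝓘(ℝ, E)⟯ M) (q : ℕ) : Prop :=
  CohTriv (ZMod p) (⟨f, f.continuous⟩ : C(M, M)) q

/-- The hypothesis in degree `q` for a homomorphism `α` from a group `G` to the group of
diffeomorphisms of `M` and an element `s` of `G`: the dimension of `H^q(M; F_p)` is less than the
order of `p` modulo `ℓ`; or it is less than `ℓ - 1` and `s` is conjugate in `G` to each of its
powers `s^j`, `0 < j < ℓ`; or `s` acts trivially on `H^q(M; F_p)`. -/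
def GoodAt (p ℓ : ℕ) {E : Type} [NormedAddCommGroup E] [NormedSpace ℝ E] {M : Type}
    [TopologicalSpace M] [ChartedSpace E M] {G : Type} [Group G]
    (α : G → (M ≃ₘ^∞⟮𝓘(ℝ, E), 𝓘(ℝ, E)⟯ M)) (s : G) (q : ℕ) : Prop :=
  finrank (ZMod p) (SingularCohomology (ZMod p) M q) < orderOf (p : ZMod ℓ) ∨
  (finrank (ZMod p) (SingularCohomology (ZMod p) M q) < ℓ - 1 ∧
    ∀ j, 0 < j → j < ℓ → ∃ g : G, g * s * g⁻¹ = s ^ j) ∨
  ActTriv p (α s) q

/-- every normal subgroup is central or of finite index -/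
def CentralOrFiniteIndex (G : Type) [Group G] : Prop :=
  ∀ N : Subgroup G, N.Normal → N ≤ Subgroup.center G ∨ Finite (G ⧸ N)

variable {E : Type} [NormedAddCommGroup E] [NormedSpace ℝ E] [FiniteDimensional ℝ E]
  {M : Type} [TopologicalSpace M] [ChartedSpace E M] [IsManifold 𝓘(ℝ, E) ∞ M]

/-- **Commutators in the kernel.** -/
theorem genK [CompactSpace M] [T2Space M] [ConnectedSpace M] {p ℓ : ℕ} (hp : p.Prime)
    (hℓp : ℓ.Prime) (hℓ2 : ℓ ≠ 2) (hpl : p ≠ ℓ) {G : Type} [Group G]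
    {α : G → (M ≃ₘ^∞⟮𝓘(ℝ, E), 𝓘(ℝ, E)⟯ M)} (hα : IsHom α)
    (A : Subgroup G) [Finite A] (hA1 : ∀ x ∈ A, x ^ p = 1)
    (hA2 : ∀ x ∈ A, ∀ y ∈ A, x * y = y * x) (s : G) (hs : s ^ ℓ = 1)
    (hsA : ∀ x ∈ A, s * x * s⁻¹ ∈ A)
    (hβ : ∀ q, 1 ≤ q → q ≤ finrank ℝ E → GoodAt p ℓ α s q)
    (hm : finrank ℝ E / 2 + ℓ / p + 1 < ℓ) (x : G) (hx : x ∈ A) (z : M) :
    α (s * x * s⁻¹ * x⁻¹) z = z := by
  have : Fact p.Prime := ⟨hp⟩
  exact absK hℓp hℓ2 hpl hα.action A hA1 hA2 s hs hsA (fun q hq hqm => by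
    rcases hβ q hq hqm with h | ⟨h1, h2⟩ | h
    · exact Or.inl h
    · exact Or.inr (cohTriv_of_conj hℓp hpl hα.action s hs h2 q h1)
    · exact Or.inr h) hm x hx z

/-- **The commutator is not central.** -/
theorem comm_not_central {p ℓ : ℕ} (hp : p.Prime) (hℓp : ℓ.Prime) (hpl : p ≠ ℓ) {G : Type}
    [Group G] {x s : G} (hx : x ^ p = 1) (hs : s ^ ℓ = 1) (hsx : s * x ≠ x * s) :
    s * x * s⁻¹ * x⁻¹ ∉ Subgroup.center G := by
  intro hc
  obtain ⟨c, hcdef⟩ : ∃ c, c = s * x * s⁻¹ * x⁻¹ := ⟨_, rfl⟩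
  rw [← hcdef] at hc
  have hcc : ∀ g, c * g = g * c := fun g => ((Subgroup.mem_center_iff.1 hc) g).symm
  have h1 : s * x * s⁻¹ = c * x := by rw [hcdef]; group
  have hcx : Commute c x := hcc x
  have h2 : c ^ p = 1 := by
    have h3 : (s * x * s⁻¹) ^ p = 1 := by rw [conj_pow, hx, mul_one, mul_inv_cancel]
    rw [h1, hcx.mul_pow, hx, mul_one] at h3
    exact h3
  have h3 : ∀ n : ℕ, s ^ n * x * (s ^ n)⁻¹ = c ^ n * x := by
    intro n
    induction n with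
    | zero => simp
    | succ n ih =>
      have e : s ^ (n + 1) * x * (s ^ (n + 1))⁻¹ = s * (s ^ n * x * (s ^ n)⁻¹) * s⁻¹ := by
        rw [pow_succ']
        group
      have hcs : Commute (c ^ n) s := (show Commute c s from hcc s).pow_left n
      rw [e, ih]
      calc s * (c ^ n * x) * s⁻¹ = (s * c ^ n) * (x * s⁻¹) := by group
        _ = (c ^ n * s) * (x * s⁻¹) := by rw [hcs.eq]
        _ = c ^ n * (s * x * s⁻¹) := by group
        _ = c ^ n * (c * x) := by rw [h1]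
        _ = c ^ (n + 1) * x := by rw [pow_succ, mul_assoc]
  have h4 : c ^ ℓ = 1 := by
    have h5 := h3 ℓ
    rw [hs, one_mul, inv_one, mul_one] at h5
    exact mul_right_cancel (b := x) (by rw [← h5, one_mul])
  have h5 : c = 1 := by
    have hcop : Nat.gcd p ℓ = 1 := (Nat.coprime_primes hp hℓp).2 hpl
    have h6 : orderOf c ∣ Nat.gcd p ℓ :=
      Nat.dvd_gcd (orderOf_dvd_of_pow_eq_one h2) (orderOf_dvd_of_pow_eq_one h4)
    rw [hcop, Nat.dvd_one, orderOf_eq_one_iff] at h6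
    exact h6
  apply hsx
  rw [h5, one_mul] at h1
  exact mul_inv_eq_iff_eq_mul.1 h1

/-- **Finite image.** -/
theorem genF [CompactSpace M] [T2Space M] [ConnectedSpace M] {p ℓ : ℕ} (hp : p.Prime)
    (hℓp : ℓ.Prime) (hℓ2 : ℓ ≠ 2) (hpl : p ≠ ℓ) {G : Type} [Group G]
    {α : G → (M ≃ₘ^∞⟮𝓘(ℝ, E), 𝓘(ℝ, E)⟯ M)} (hα : IsHom α)
    (A : Subgroup G) [Finite A] (hA1 : ∀ x ∈ A, x ^ p = 1)
    (hA2 : ∀ x ∈ A, ∀ y ∈ A, x * y = y * x) (s : G) (hs : s ^ ℓ = 1)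
    (hsA : ∀ x ∈ A, s * x * s⁻¹ ∈ A) (hne : ∃ x ∈ A, s * x ≠ x * s)
    (hβ : ∀ q, 1 ≤ q → q ≤ finrank ℝ E → GoodAt p ℓ α s q)
    (hm : finrank ℝ E / 2 + ℓ / p + 1 < ℓ) :
    (∃ g : G, g ∉ Subgroup.center G ∧ ∀ z, α g z = z) ∧
      (CentralOrFiniteIndex G → (Set.range α).Finite) := by
  obtain ⟨x, hx, hsx⟩ := hne
  have hk := genK hp hℓp hℓ2 hpl hα A hA1 hA2 s hs hsA hβ hm x hx
  have hnc := comm_not_central hp hℓp hpl (hA1 x hx) hs hsx
  refine ⟨⟨_, hnc, hk⟩, fun hN => hα.finite_range ?_⟩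
  rcases hN (actKer hα.action) inferInstance with h | h
  · exact absurd (h hk) hnc
  · exact h

end Pool.Agent.Helper31.Zim
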