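import Pool.Agent.Helper31.Zim.Pos

/-!
# Weights: compact metric spaces with convex balls
-/

set_option autoImplicit false
set_option linter.unusedSectionVars false

namespace Pool.Agent.Helper31.Zim

open Module Metric Set Pool.Agent.Helper381 Pool.Agent.H185.ZM Pool.Agent.E8helper2.ZB
open scoped Manifold ContDiff Topology

section

variable {M E : Type} [MetricSpace M] [NormedAddCommGroup E] [NormedSpace ℝ E] {R : ℝ}

/-- midpoints are unique -/
theorem midpt_unique (G : Geo M E R) {x y m m' : M} (hxy : dist x y < R)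
    (h1 : dist x m = dist x y / 2) (h2 : dist m y = dist x y / 2)
    (h1' : dist x m' = dist x y / 2) (h2' : dist m' y = dist x y / 2) : m = m' := by
  by_contra hne
  have hR := G.Rpos
  obtain ⟨c, hc⟩ := G.chart x
  have hd : 0 ≤ dist x y := dist_nonneg
  have hx : x ∈ c.W := hc (mem_ball_self hR)
  have hy : y ∈ c.W := hc (by rw [mem_ball, dist_comm]; exact hxy)
  have hm : m ∈ c.W := hc (by rw [mem_ball, dist_comm]; linarith)
  have hm' : m' ∈ c.W := hc (by rw [mem_ball, dist_comm]; linarith)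
  have h3 := c.dist_mid_lt hx hm hm' hne (r := dist x y / 2) (by linarith) h1.le h1'.le
  have h4 := c.dist_mid_lt hy hm hm' hne (r := dist x y / 2) (by linarith)
    (by rw [dist_comm]; exact h2.le) (by rw [dist_comm]; exact h2'.le)
  have h5 := dist_triangle x (c.mid m m') y
  rw [dist_comm (c.mid m m') y] at h5
  linarith

/-- a locally constant function on the set of the common fixed points of isometries is constant on
small balls of uniform size -/
theorem type_eq [CompactSpace M] (G : Geo M E R) {P : Type} (a : P → (M ≃ᵢ M)) {Y : Type}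
    (τ : M → Y)
    (hτ : ∀ x, (∀ g, a g x = x) → ∀ᶠ y in 𝓝 x, (∀ g, a g y = y) → τ y = τ x)
    {x y : M} (hx : ∀ g, a g x = x) (hy : ∀ g, a g y = y) (hxy : dist x y < R) : τ x = τ y := by
  classical
  let S : Set M := {x | ∀ g, a g x = x}
  have hS : IsClosed S := by
    have : S = ⋂ g, {x | a g x = x} := by
      ext x
      simp [S]
    rw [this]
    exact isClosed_iInter fun g => isClosed_eq (a g).continuous continuous_id
  have hloc : ∀ x : M, ∃ U : Set M, IsOpen U ∧ x ∈ U ∧ ∀ y ∈ U ∩ S, ∀ z ∈ U ∩ S, τ y = τ z := by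
    intro x
    by_cases hx : x ∈ S
    · obtain ⟨U, hU, hUo, hxU⟩ := _root_.eventually_nhds_iff.1 (hτ x hx)
      exact ⟨U, hUo, hxU, fun y hy z hz => (hU y hy.1 hy.2).trans (hU z hz.1 hz.2).symm⟩
    · exact ⟨Sᶜ, hS.isOpen_compl, hx, fun y hy => absurd hy.2 hy.1⟩
  choose U hUo hxU hU using hloc
  obtain ⟨δ, hδ, hδU⟩ := lebesgue_number_lemma_of_metric isCompact_univ hUo
    (fun x _ => mem_iUnion.2 ⟨x, hxU x⟩)
  have hbase : ∀ x ∈ S, ∀ y ∈ S, dist x y < δ → τ x = τ y := by
    intro x hx y hy hd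
    obtain ⟨i, hi⟩ := hδU x (mem_univ x)
    exact hU i x ⟨hi (mem_ball_self hδ), hx⟩ y ⟨hi (by rw [mem_ball, dist_comm]; exact hd), hy⟩
  have key : ∀ n : ℕ, ∀ x ∈ S, ∀ y ∈ S, dist x y < R → dist x y < 2 ^ n * δ → τ x = τ y := by
    intro n
    induction n with
    | zero =>
      intro x hx y hy _ hd
      rw [pow_zero, one_mul] at hd
      exact hbase x hx y hy hd
    | succ n ih =>
      intro x hx y hy hR hd
      obtain ⟨m, hm1, hm2⟩ := G.midpt x y
      have hd0 : 0 ≤ dist x y := dist_nonneg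
      have hm : m ∈ S := by
        intro g
        have e1 : dist x (a g m) = dist x m := by
          conv_lhs => rw [← hx g]
          exact (a g).dist_eq x m
        have e2 : dist (a g m) y = dist m y := by
          conv_lhs => rw [← hy g]
          exact (a g).dist_eq m y
        exact midpt_unique G hR (e1.trans hm1) (e2.trans hm2) hm1 hm2
      rw [pow_succ] at hd
      have h3 := ih x hx m hm (by rw [hm1]; linarith) (by rw [hm1]; linarith)
      have h4 := ih m hm y hy (by rw [hm2]; linarith) (by rw [hm2]; linarith)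
      exact h3.trans h4
  obtain ⟨n, hn⟩ := pow_unbounded_of_one_lt (dist x y / δ) (by norm_num : (1 : ℝ) < 2)
  exact key n x hx y hy hxy (by rwa [div_lt_iff₀ hδ] at hn)

theorem geoB {p k : ℕ} [Fact p.Prime]
    (G : Geo M E R) [CompactSpace M] [Nonempty M] {P : Type}
    [Group P] [Finite P] (a : P →* (M ≃ᵢ M)) (φ : GG p k →* P) (s : P) {ℓ : ℕ} (hℓp : ℓ.Prime)
    (hs : s ^ ℓ = 1)
    (π : Equiv.Perm (Fin k)) (hπ : ∀ i, φ (gen p k i) * s = s * φ (gen p k (π i)))
    (K : Type) [Field K] [Algebra (ZMod p) K] (ξ : Fin k → K)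
    (ζ : K) (hζ : ζ ^ ℓ = 1) (hℓ : (ℓ : K) ≠ 0) (hξ : ∀ i, ξ i = ζ * ξ (π i))
    (j j' c : ℕ) (hj1 : 1 ≤ j) (hj2 : j < p) (hj1' : 1 ≤ j') (hj2' : j' < p) (hc : ζ ^ c ≠ 1)
    (hβ0 : finrank (ZMod p) (SingularCohomology (ZMod p) M 0) ≤ 1)
    (hβ : ∀ q, 1 ≤ q → ∀ w, w = wj p j (q + 1) ∨ w = c + wj p j' q →
      finrank (ZMod p) (SingularCohomology (ZMod p) M q) <
        orderOf (p : ZMod (orderOf (ζ ^ w))) ∨ (ζ ^ w ≠ 1 ∧
          CohTriv (ZMod p) (⟨a s, (a s).continuous⟩ : C(M, M)) q))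
    (hGen : ∀ H : Subgroup (GG p k), (∀ g, φ g = 1 → g ∈ H) → H ≠ ⊤ → ∃ χ : Fin k → ZMod p,
      (∀ g ∈ H, ∑ i, χ i * (Multiplicative.toAdd g) i = 0) ∧
        ∑ i, algebraMap (ZMod p) K (χ i) * ξ i ≠ 0)
    {Y : Type} (τ : M → Y)
    (hτ : ∀ x, (∀ g, a (φ g) x = x) → ∀ᶠ y in 𝓝 x, (∀ g, a (φ g) y = y) → τ y = τ x)
    (hτs : ∀ x y, (∀ g, a (φ g) x = x) → (∀ g, a (φ g) y = y) → τ x = τ y →
      τ (a s x) = τ (a s y)) :
    ∃ x : M, (∀ g, a (φ g) x = x) ∧ τ (a s x) = τ x := by
  classical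
  have hR := G.Rpos
  obtain ⟨F, hF, hFa⟩ := exists_invariant_net a (R / 4) (by linarith)
  have hρR : 4 * (R / 4) ≤ R := by linarith
  set ρ := R / 4 with hρ
  have hQ := Fam_finite F ρ
  have hone : ∀ C : Set M, a 1 '' C = C := by
    intro C
    rw [map_one]
    exact Set.image_id C
  have hmul : ∀ (p q : P) (C : Set M), a (p * q) '' C = a p '' (a q '' C) := by
    intro p q C
    rw [map_mul, Set.image_image]
    rfl
  have hsm : ∀ p : P, StrictMono (fun C : Set M => a p '' C) := fun p =>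
    (a p).injective.image_strictMono
  have hmem : ∀ (p : P) (C : Set M), C ∈ Fam F ρ → a p '' C ∈ Fam F ρ := fun p C hC =>
    image_Fam F ρ (a p) (hFa p) hC
  let : MulAction P (Set M) :=
    { smul := fun x C => a x '' C
      one_smul := hone
      mul_smul := hmul }
  have hne : (Fam F ρ).Nonempty := by
    obtain ⟨x⟩ := (inferInstance : Nonempty M)
    obtain ⟨C, hC, _⟩ := Fam_cover F ρ hF x
    exact ⟨C, hC⟩
  have hrk : ∀ n, finrank (ZMod p) (OrdCoh (ZMod p) (Fam F ρ) n) =
      finrank (ZMod p) (SingularCohomology (ZMod p) M n) := by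
    intro n
    obtain ⟨e1⟩ := singEquiv (ZMod p) M n
    obtain ⟨e2⟩ := G.nerve hρR hF (ZMod p) n
    exact (e1.trans e2).finrank_eq.symm
  obtain ⟨⟨C, hC, hCf⟩, hB⟩ := posB P (Set M) (Fam F ρ) hQ hne hsm hmem φ s hs π hπ K ξ ζ hζ hℓ
    hξ (by rw [hrk]; exact hβ0) j j' c hj1 hj2 hj1' hj2' hc (fun q hq w hw => by
      rw [hrk]
      rcases hβ q hq w hw with h | ⟨h, h'⟩
      · exact Or.inl h
      · exact Or.inr ⟨h, fun b hb =>
          Pool.Agent.E8helper71.ZB.nerve (ZMod p) M (Fam F ρ) (Fam_open F ρ) (Fam_cover F ρ hF)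
            (fun σ h => Fam_hcap F ρ σ h) (fun C hC => G.fam_cone hρR hC) (a s).toHomeomorph
            (fun C hC => hmem s C hC) q h' b hb⟩) hGen
  have hctr : ∀ C : Set M, ∃ y : M, C ∈ Fam F ρ → y ∈ C ∧ ∀ g : M ≃ᵢ M, (∀ p, p ∈ F ↔ g p ∈ F) →
      g '' C = C → g y = y := by
    intro C
    by_cases hC : C ∈ Fam F ρ
    · obtain ⟨y, hy⟩ := G.fam_fixed hρR hC
      exact ⟨y, fun _ => hy⟩
    · exact ⟨Classical.arbitrary M, fun h => absurd h hC⟩
  choose ctr hctr using hctr
  have hcf : ∀ C ∈ Fam F ρ, (∀ g : GG p k, φ g • C = C) → ∀ g, a (φ g) (ctr C) = ctr C :=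
    fun C hC hg g => (hctr C hC).2 (a (φ g)) (hFa (φ g)) (hg g)
  have hdist : ∀ C ∈ Fam F ρ, ∀ x ∈ C, ∀ y ∈ C, dist x y < R := by
    rintro C ⟨_, S, _, ⟨q, hq⟩, rfl⟩ x hx y hy
    have h1 := hx q hq
    have h2 := hy q hq
    have h3 := dist_triangle x q y
    rw [dist_comm x q] at h3
    linarith
  have hty := fun {x y : M} => type_eq (x := x) (y := y) G (fun g => a (φ g)) τ hτ
  -- translates of fixed points
  have hfs : ∀ x, (∀ g, a (φ g) x = x) → ∀ i : ℕ, ∀ g, a (φ g) (a (s ^ i) x) = a (s ^ i) x := by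
    intro x hx i
    induction i with
    | zero => intro g; rw [pow_zero, map_one]; exact hx g
    | succ i ih =>
      let H : Subgroup (GG p k) :=
        { carrier := {g | a (φ g) (a (s ^ (i + 1)) x) = a (s ^ (i + 1)) x}
          one_mem' := by
            show a (φ 1) (a (s ^ (i + 1)) x) = a (s ^ (i + 1)) x
            rw [map_one, map_one]
            rfl
          mul_mem' := fun {g h} hg hh => by
            show a (φ (g * h)) (a (s ^ (i + 1)) x) = a (s ^ (i + 1)) x
            rw [map_mul, map_mul]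
            show a (φ g) (a (φ h) _) = _
            rw [show a (φ h) (a (s ^ (i + 1)) x) = a (s ^ (i + 1)) x from hh]
            exact hg
          inv_mem' := fun {g} hg => by
            show a (φ g⁻¹) (a (s ^ (i + 1)) x) = a (s ^ (i + 1)) x
            have h1 : a (φ g) (a (s ^ (i + 1)) x) = a (s ^ (i + 1)) x := hg
            conv_lhs => rw [← h1]
            rw [map_inv, map_inv]
            exact (a (φ g)).symm_apply_apply _ }
      intro g
      refine mem_of_gens H (fun t => ?_) g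
      show a (φ (gen p k t)) (a (s ^ (i + 1)) x) = a (s ^ (i + 1)) x
      have e1 : a (s ^ (i + 1)) x = a s (a (s ^ i) x) := by
        rw [pow_succ', map_mul]
        rfl
      have e2 : a (φ (gen p k t)) (a s (a (s ^ i) x)) =
          a s (a (φ (gen p k (π t))) (a (s ^ i) x)) := by
        have h2 : a (φ (gen p k t) * s) (a (s ^ i) x) = a (s * φ (gen p k (π t))) (a (s ^ i) x) := by
          rw [hπ]
        rw [map_mul, map_mul] at h2
        exact h2
      rw [e1, e2, ih]
  have hτi : ∀ i : ℕ, ∀ x y, (∀ g, a (φ g) x = x) → (∀ g, a (φ g) y = y) → τ x = τ y →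
      τ (a (s ^ i) x) = τ (a (s ^ i) y) := by
    intro i
    induction i with
    | zero => intro x y _ _ h; rw [pow_zero, map_one]; exact h
    | succ i ih =>
      intro x y hx hy h
      have e1 : ∀ z, a (s ^ (i + 1)) z = a s (a (s ^ i) z) := by
        intro z
        rw [pow_succ', map_mul]
        rfl
      rw [e1, e1]
      exact hτs _ _ (hfs x hx i) (hfs y hy i) (ih x y hx hy h)
  obtain ⟨i, hi0, hi1, hi⟩ := hB Y (fun C => τ (ctr C)) (fun C hC C' hC' hf hf' hlt =>
    hty (hcf C hC hf) (hcf C' hC' hf')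
      (hdist C' hC' _ (hlt.le (hctr C hC).1) _ (hctr C' hC').1)) C hC hCf
  set x := ctr C with hx
  have hxf := hcf C hC hCf
  set t := (s ^ i)⁻¹ with ht
  have htp : ∃ n : ℕ, t = s ^ n := by
    refine ⟨i * (ℓ - 1), ?_⟩
    rw [ht, inv_eq_iff_mul_eq_one, ← pow_add]
    have : i + i * (ℓ - 1) = ℓ * i := by
      obtain ⟨r, hr⟩ : ∃ r, ℓ = r + 1 := ⟨ℓ - 1, by omega⟩
      subst hr
      rw [Nat.add_sub_cancel]
      ring
    rw [this, pow_mul, hs, one_pow]
  obtain ⟨n, hn⟩ := htp
  have htx : ∀ g, a (φ g) (a t x) = a t x := by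
    rw [hn]
    exact hfs x hxf n
  have hCt : t • C ∈ Fam F ρ := hmem t C hC
  have hCtf : ∀ g : GG p k, φ g • (t • C) = t • C := by
    intro g
    have hsub : ∀ g : GG p k, φ g • (t • C) ⊆ t • C → φ g⁻¹ • (t • C) ⊆ t • C →
        φ g • (t • C) = t • C := by
      intro g h1 h2
      refine Subset.antisymm h1 ?_
      have h3 : φ g • (φ g⁻¹ • (t • C)) ⊆ φ g • (t • C) := (hsm (φ g)).monotone h2
      rwa [smul_smul, ← map_mul, mul_inv_cancel, map_one, one_smul] at h3
    have hsub2 : ∀ g : GG p k, φ g • (t • C) ⊆ t • C := by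
      intro g
      rintro _ ⟨_, ⟨z, hz, rfl⟩, rfl⟩
      have hH : ∃ g' : GG p k, φ g * t = t * φ g' := by
        rw [hn]
        have : ∀ n : ℕ, ∀ g : GG p k, ∃ g' : GG p k, φ g * s ^ n = s ^ n * φ g' := by
          intro n
          induction n with
          | zero => intro g; exact ⟨g, by simp⟩
          | succ n ih =>
            have h3 : ∀ g : GG p k, ∃ g' : GG p k, φ g * s = s * φ g' := by
              let H : Subgroup (GG p k) :=
                { carrier := {g | ∃ g' : GG p k, φ g * s = s * φ g'}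
                  one_mem' := ⟨1, by simp⟩
                  mul_mem' := by
                    rintro g h ⟨g', hg⟩ ⟨h', hh⟩
                    refine ⟨g' * h', ?_⟩
                    rw [map_mul, map_mul, mul_assoc, hh, ← mul_assoc, hg, mul_assoc]
                  inv_mem' := by
                    rintro g ⟨g', hg⟩
                    refine ⟨g'⁻¹, ?_⟩
                    rw [map_inv, map_inv, inv_mul_eq_iff_eq_mul, ← mul_assoc, hg, mul_assoc,
                      mul_inv_cancel, mul_one] }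
              exact fun g => mem_of_gens H (fun t => ⟨_, hπ t⟩) g
            intro g
            obtain ⟨g1, hg1⟩ := ih g
            obtain ⟨g2, hg2⟩ := h3 g1
            exact ⟨g2, by rw [pow_succ, ← mul_assoc, hg1, mul_assoc, hg2, mul_assoc]⟩
        exact this n g
      obtain ⟨g', hg'⟩ := hH
      have h4 : a (φ g) (a t z) = a t (a (φ g') z) := by
        have h5 : a (φ g * t) z = a (t * φ g') z := by rw [hg']
        rw [map_mul, map_mul] at h5
        exact h5
      show a (φ g) (a t z) ∈ _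
      rw [h4]
      refine ⟨a (φ g') z, ?_, rfl⟩
      have h6 : a (φ g') '' C = C := hCf g'
      rw [← h6]
      exact ⟨z, hz, rfl⟩
    exact hsub g (hsub2 g) (hsub2 g⁻¹)
  have h1 : τ (ctr (t • C)) = τ (a t x) :=
    hty (hcf _ hCt hCtf) htx (hdist _ hCt _ (hctr _ hCt).1 _ ⟨x, (hctr C hC).1, rfl⟩)
  have h2 : τ (a t x) = τ x := h1.symm.trans hi
  -- apply `s ^ i`
  have h3 : τ x = τ (a (s ^ i) x) := by
    have h4 := hτi i _ _ htx hxf h2
    have h5 : a (s ^ i) (a t x) = x := by
      have : a (s ^ i * t) x = x := by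
        rw [ht, mul_inv_cancel, map_one]
        rfl
      rwa [map_mul] at this
    rwa [h5] at h4
  have h4 : ∀ n : ℕ, τ (a (s ^ (i * n)) x) = τ x := by
    intro n
    induction n with
    | zero => rw [mul_zero, pow_zero, map_one]; rfl
    | succ n ih =>
      have e : a (s ^ (i * (n + 1))) x = a (s ^ i) (a (s ^ (i * n)) x) := by
        rw [mul_add, mul_one, add_comm, pow_add, map_mul]
        rfl
      rw [e, hτi i _ _ (hfs x hxf _) hxf ih]
      exact h3.symm
  obtain ⟨m, hm⟩ : ∃ m : ℕ, s ^ (i * m) = s := by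
    have hcop : Nat.Coprime i ℓ := by
      rw [Nat.coprime_comm, hℓp.coprime_iff_not_dvd]
      intro h
      exact absurd (Nat.le_of_dvd hi0 h) (by omega)
    obtain ⟨m, hm⟩ := Nat.exists_mul_mod_eq_one_of_coprime hcop hℓp.one_lt
    refine ⟨m, ?_⟩
    rw [← Nat.div_add_mod (i * m) ℓ, hm.2, pow_add, pow_mul, hs, one_pow, one_mul, pow_one]
  refine ⟨x, hxf, ?_⟩
  have h5 := h4 m
  rwa [hm] at h5

end

end Pool.Agent.Helper31.Zim
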