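import Pool.Agent.Helper31.Zim.Fin

/-!
# Irreducible modules over the group ring of a cyclic group
-/

set_option autoImplicit false
set_option linter.unusedSectionVars false

namespace Pool.Agent.Helper31.Zim

open Module Polynomial

section conv

variable {p ℓ : ℕ} [Fact p.Prime] {K : Type} [Field K] [Algebra (ZMod p) K]

/-- a function on `ℤ/ℓ` whose square is zero -/
theorem conv_aux {m : ℕ} {ζ : K} (hζ : orderOf ζ = m + 1) (hℓ : ((m + 1 : ℕ) : K) ≠ 0)
    (c : ZMod (m + 1) → ZMod p)
    (h1 : ∀ v : ZMod (m + 1) → ZMod p, ∑ i, algebraMap (ZMod p) K (v i) * ζ ^ i.val = 0 →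
      ∑ i, c i * v i = 0)
    (h2 : ∑ i, algebraMap (ZMod p) K (c i) * (ζ⁻¹) ^ i.val = 0) : c = 0 := by
  classical
  have hζ1 : ζ ^ (m + 1) = 1 := by rw [← hζ]; exact pow_orderOf_eq_one ζ
  have hζi : (ζ⁻¹) ^ (m + 1) = 1 := by rw [inv_pow, hζ1, inv_one]
  let e : AddChar (ZMod (m + 1)) K := AddChar.zmodChar (m + 1) hζ1
  have he : ∀ i : ZMod (m + 1), e i = ζ ^ i.val := fun i => AddChar.zmodChar_apply hζ1 i
  have hprim : e.IsPrimitive := by
    have : IsPrimitiveRoot ζ (m + 1) := by
      rw [← hζ]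
      exact IsPrimitiveRoot.orderOf ζ
    exact AddChar.zmodChar_primitive_of_primitive_root (m + 1) this
  have hen : ∀ i : ZMod (m + 1), e (-i) = (ζ⁻¹) ^ i.val := by
    intro i
    rw [AddChar.map_neg_eq_inv, he, inv_pow]
  -- the square is zero
  have hsq : ∀ t : ZMod (m + 1), ∑ i, c i * c (t - i) = 0 := by
    intro t
    apply h1 (fun i => c (t - i))
    have h3 : ∑ i, algebraMap (ZMod p) K (c (t - i)) * ζ ^ i.val =
        e t * ∑ i, algebraMap (ZMod p) K (c i) * (ζ⁻¹) ^ i.val := by
      rw [Finset.mul_sum, ← Equiv.sum_comp (Equiv.subLeft t)]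
      refine Finset.sum_congr rfl fun i _ => ?_
      rw [Equiv.subLeft_apply, sub_sub_cancel, ← he, ← hen, sub_eq_add_neg,
        AddChar.map_add_eq_mul]
      ring
    rw [h3, h2, mul_zero]
  have hψ : ∀ j : ZMod (m + 1), ∑ i, algebraMap (ZMod p) K (c i) * e (j * i) = 0 := by
    intro j
    have h3 : (∑ i, algebraMap (ZMod p) K (c i) * e (j * i)) *
        (∑ i, algebraMap (ZMod p) K (c i) * e (j * i)) = 0 := by
      rw [Finset.sum_mul_sum]
      have h4 : ∀ i, ∑ i', algebraMap (ZMod p) K (c i) * e (j * i) *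
          (algebraMap (ZMod p) K (c i') * e (j * i')) =
          ∑ t, e (j * t) * algebraMap (ZMod p) K (c i * c (t - i)) := by
        intro i
        rw [← Equiv.sum_comp (Equiv.subRight i)]
        refine Finset.sum_congr rfl fun t _ => ?_
        rw [Equiv.subRight_apply, RingHom.map_mul]
        have : e (j * t) = e (j * i) * e (j * (t - i)) := by
          rw [← AddChar.map_add_eq_mul]
          congr 1
          ring
        rw [this]
        ring
      simp only [h4]
      rw [Finset.sum_comm]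
      refine Finset.sum_eq_zero fun t _ => ?_
      rw [← Finset.mul_sum, ← map_sum, hsq, map_zero, mul_zero]
    exact mul_self_eq_zero.1 h3
  funext a
  have h5 : ∑ j, e (-(j * a)) * ∑ i, algebraMap (ZMod p) K (c i) * e (j * i) = 0 :=
    Finset.sum_eq_zero fun j _ => by rw [hψ, mul_zero]
  have h6 : ∑ j, e (-(j * a)) * ∑ i, algebraMap (ZMod p) K (c i) * e (j * i) =
      ∑ i, algebraMap (ZMod p) K (c i) * ∑ j, e (j * (i - a)) := by
    simp only [Finset.mul_sum]
    rw [Finset.sum_comm]
    refine Finset.sum_congr rfl fun i _ => Finset.sum_congr rfl fun j _ => ?_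
    have : e (j * (i - a)) = e (-(j * a)) * e (j * i) := by
      rw [← AddChar.map_add_eq_mul]
      congr 1
      ring
    rw [this]
    ring
  rw [h6] at h5
  have h7 : ∀ i : ZMod (m + 1), ∑ j, e (j * (i - a)) = if i - a = 0 then ((m + 1 : ℕ) : K) else 0 := by
    intro i
    rw [AddChar.sum_mulShift (i - a) hprim, ZMod.card]
    split_ifs <;> simp
  simp only [h7] at h5
  rw [Finset.sum_eq_single a] at h5
  · rw [if_pos (sub_self a)] at h5
    have h8 := (mul_eq_zero.1 h5).resolve_right hℓ
    exact (algebraMap (ZMod p) K).injective (h8.trans (map_zero _).symm)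
  · intro i _ hi
    rw [if_neg (sub_ne_zero.2 hi), mul_zero]
  · intro h
    exact absurd (Finset.mem_univ _) h

theorem conv {ζ : K} (hℓ0 : 0 < ℓ) (hζ : orderOf ζ = ℓ) (hℓ : (ℓ : K) ≠ 0)
    (c : Fin ℓ → ZMod p)
    (h1 : ∀ v : Fin ℓ → ZMod p, ∑ i, algebraMap (ZMod p) K (v i) * ζ ^ i.val = 0 →
      ∑ i, c i * v i = 0)
    (h2 : ∑ i, algebraMap (ZMod p) K (c i) * (ζ⁻¹) ^ i.val = 0) : c = 0 := by
  obtain ⟨m, rfl⟩ : ∃ m, ℓ = m + 1 := ⟨ℓ - 1, by omega⟩
  exact conv_aux hζ hℓ c h1 h2

end conv

section irr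

variable {p ℓ : ℕ} [Fact p.Prime] {V : Type} [AddCommGroup V] [Module (ZMod p) V] [Finite V]

/-- a vector which generates an irreducible submodule on which the operator has no fixed vector -/
theorem exists_field (hℓp : ℓ.Prime) (hpl : p ≠ ℓ) (T : V →ₗ[ZMod p] V) (hT : T ^ ℓ = 1)
    (h1 : T ≠ 1) : ∃ (w : V) (K : Type) (_ : Field K) (_ : Algebra (ZMod p) K) (ζ : K),
      orderOf ζ = ℓ ∧ T w ≠ w ∧
        ∀ f : (ZMod p)[X], aeval T f w = 0 ↔ aeval ζ f = 0 := by
  classical
  have hp : p.Prime := Fact.out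
  have hℓ0 : (ℓ : ZMod p) ≠ 0 := by
    rw [Ne, ZMod.natCast_eq_zero_iff]
    intro h
    exact hpl ((Nat.prime_dvd_prime_iff_eq hp hℓp).1 h)
  have : FiniteDimensional (ZMod p) V := Module.Finite.of_finite
  let C : V → Submodule (ZMod p) V := fun w =>
    LinearMap.range ((LinearMap.applyₗ w).comp (aeval T : (ZMod p)[X] →ₐ[ZMod p] _).toLinearMap)
  have hC : ∀ w v, v ∈ C w ↔ ∃ f : (ZMod p)[X], aeval T f w = v := fun w v => Iff.rfl
  -- the vectors in question
  let S : Set V := {w | w ≠ 0 ∧ ∃ u, w = T u - u}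
  have hS : S.Nonempty := by
    by_contra h
    rw [Set.not_nonempty_iff_eq_empty] at h
    apply h1
    apply LinearMap.ext
    intro u
    by_contra hu
    have : T u - u ∈ S := ⟨sub_ne_zero.2 hu, u, rfl⟩
    rw [h] at this
    exact this
  obtain ⟨w, hw, hmin⟩ := Set.exists_min_image S (fun w => finrank (ZMod p) (C w))
    (Set.toFinite S) hS
  have hST : ∀ w ∈ S, T w ≠ w := by
    rintro w ⟨hw0, u, hu⟩ hTw
    apply hw0
    have h3 : ∀ n : ℕ, (T ^ n) u = u + (n : ZMod p) • w := by
      intro n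
      induction n with
      | zero => simp
      | succ n ih =>
        have h4 : T u = u + w := by rw [hu]; abel
        rw [pow_succ']
        show T ((T ^ n) u) = _
        rw [ih, map_add, map_smul, hTw, h4, Nat.cast_succ, add_smul, one_smul]
        abel
    have h4 := h3 ℓ
    rw [hT] at h4
    have h5 : (ℓ : ZMod p) • w = 0 := by
      have h6 : u + 0 = u + (ℓ : ZMod p) • w := by rw [add_zero]; exact h4
      exact (add_left_cancel h6).symm
    exact (smul_eq_zero.1 h5).resolve_left hℓ0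
  have hSf : ∀ f : (ZMod p)[X], ∀ w ∈ S, aeval T f w ≠ 0 → aeval T f w ∈ S := by
    rintro f w ⟨hw0, u, rfl⟩ h
    refine ⟨h, aeval T f u, ?_⟩
    have h3 : T (aeval T f u) = aeval T f (T u) := by
      have h4 : T * aeval T f = aeval T f * T := by
        have h5 : (aeval T) (X * f) = (aeval T) (f * X) := by rw [mul_comm]
        rwa [map_mul, map_mul, aeval_X] at h5
      exact congrArg (fun L : V →ₗ[ZMod p] V => L u) h4
    rw [h3, map_sub]
  let I : Ideal (ZMod p)[X] :=
    { carrier := {f | aeval T f w = 0}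
      zero_mem' := by
        show aeval T (0 : (ZMod p)[X]) w = 0
        rw [map_zero]
        rfl
      add_mem' := fun {f g} hf hg => by
        show aeval T (f + g) w = 0
        rw [map_add, LinearMap.add_apply, show aeval T f w = 0 from hf,
          show aeval T g w = 0 from hg, add_zero]
      smul_mem' := fun f g hg => by
        show aeval T (f * g) w = 0
        rw [map_mul]
        show aeval T f (aeval T g w) = 0
        rw [show aeval T g w = 0 from hg, map_zero] }
  have hI : ∀ f, f ∈ I ↔ aeval T f w = 0 := fun f => Iff.rfl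
  have hmax : I.IsMaximal := by
    rw [Ideal.isMaximal_iff]
    refine ⟨?_, ?_⟩
    · rw [hI, map_one]
      exact hw.1
    · intro J f hIJ hf hfJ
      have hf0 : aeval T f w ≠ 0 := hf
      have h3 := hmin _ (hSf f w hw hf0)
      have hle : C (aeval T f w) ≤ C w := by
        rintro _ ⟨g, rfl⟩
        refine ⟨g * f, ?_⟩
        show aeval T (g * f) w = aeval T g (aeval T f w)
        rw [map_mul]
        rfl
      have h4 : C (aeval T f w) = C w := Submodule.eq_of_le_of_finrank_le hle h3
      have h5 : w ∈ C (aeval T f w) := by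
        rw [h4]
        exact ⟨1, by
          show aeval T (1 : (ZMod p)[X]) w = w
          rw [map_one]
          rfl⟩
      obtain ⟨g, hg⟩ := h5
      have hg' : aeval T g (aeval T f w) = w := hg
      have h6 : g * f - 1 ∈ I := by
        rw [hI, map_sub, map_mul, map_one]
        show aeval T g (aeval T f w) - w = 0
        rw [hg', sub_self]
      have h7 : g * f - (g * f - 1) ∈ J := J.sub_mem (J.mul_mem_left g hfJ) (hIJ h6)
      rwa [sub_sub_cancel] at h7
  let FK : Field ((ZMod p)[X] ⧸ I) := Ideal.Quotient.field I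
  let ζ : (ZMod p)[X] ⧸ I := Ideal.Quotient.mk I X
  have hζ : ∀ f : (ZMod p)[X], aeval ζ f = Ideal.Quotient.mk I f := by
    intro f
    have h3 : Ideal.Quotient.mkₐ (ZMod p) I = aeval (Ideal.Quotient.mkₐ (ZMod p) I X) :=
      Polynomial.algHom_ext (by rw [aeval_X])
    exact (DFunLike.congr_fun h3 f).symm
  refine ⟨w, (ZMod p)[X] ⧸ I, FK, inferInstance, ζ, ?_, hST w hw, fun f => ?_⟩
  · have : Fact ℓ.Prime := ⟨hℓp⟩
    apply orderOf_eq_prime
    · show (Ideal.Quotient.mk I X) ^ ℓ = 1
      rw [← map_pow, ← map_one (Ideal.Quotient.mk I), Ideal.Quotient.eq, hI, map_sub, map_pow,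
        aeval_X, hT, map_one, sub_self]
      rfl
    · intro h
      have h3 : Ideal.Quotient.mk I X = Ideal.Quotient.mk I 1 := h
      rw [Ideal.Quotient.eq, hI, map_sub, aeval_X, map_one] at h3
      exact hST w hw (sub_eq_zero.1 h3)
  · rw [← hI, hζ, Ideal.Quotient.eq_zero_iff_mem]

end irr

end Pool.Agent.Helper31.Zim
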