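import Pool.Agent.Helper31.Zim.Exm

/-!
# The classes of lattices
-/

set_option autoImplicit false
set_option linter.unusedSectionVars false

namespace Pool.Agent.Helper31.Zim

open Module Matrix Pool.Agent.Helper381 Pool.Agent.H185.ZM Pool.Agent.E8helper2.ZB
  Pool.Agent.E8helper72.ZO
open scoped Manifold ContDiff

section defs

variable {E : Type} [NormedAddCommGroup E] [NormedSpace ℝ E] {M : Type}
  [TopologicalSpace M] [ChartedSpace E M] (p ℓ : ℕ) {F : Type} [Ring F] {n : ℕ}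
  (Γ Δ : Subgroup (Matrix (Fin n) (Fin n) F)ˣ) (α : Δ → (M ≃ₘ^∞⟮𝓘(ℝ, E), 𝓘(ℝ, E)⟯ M))

/-- In each degree `q = 1, ..., dim M` the dimension of `H^q(M; F_p)` is less than `ℓ - 1`, or the
cyclic permutation of the first `ℓ` coordinates (if it is in `Δ`) acts trivially on
`H^q(M; F_p)`. -/
def CycHyp : Prop :=
  ∀ q, 1 ≤ q → q ≤ finrank ℝ E →
    finrank (ZMod p) (SingularCohomology (ZMod p) M q) < ℓ - 1 ∨
    ∀ g : Δ, IsCyc ℓ (g : (Matrix (Fin n) (Fin n) F)ˣ) → ActTriv p (α g) q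

/-- `α` is trivial on the diagonal matrices in `Δ` with entries `z ^ d_i`, `p ∣ ∑ d_i`, `d_i = 0`
for `i ≥ ℓ`. -/
def DiagTriv (z : F) : Prop :=
  ∀ (g : Δ) (d : Fin n → ℕ), p ∣ ∑ i, d i → (∀ i : Fin n, ℓ ≤ i.val → d i = 0) →
    ((g : (Matrix (Fin n) (Fin n) F)ˣ) : Matrix (Fin n) (Fin n) F) =
      diagonal (fun i => z ^ d i) → ∀ x, α g x = x

/-- The condition `GoodAt` in the degrees `q = 1, ..., dim M` for the conjugates `γ⁻¹ c γ ∈ Δ`,
`γ ∈ Γ`, of the cyclic permutation `c` of the first `ℓ` coordinates. -/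
def RotHyp : Prop :=
  ∀ g : Δ, (∃ c, IsCyc ℓ c ∧ ∃ γ ∈ Γ, (g : (Matrix (Fin n) (Fin n) F)ˣ) = γ⁻¹ * c * γ) →
    ∀ q, 1 ≤ q → q ≤ finrank ℝ E → GoodAt p ℓ α g q

end defs

/-- The kernel of `α : G → Diff(M)` contains an element which is not central, and `α` has finite
image if every normal subgroup of `G` is central or of finite index. -/
def BigKernel {E : Type} [NormedAddCommGroup E] [NormedSpace ℝ E] {M : Type}
    [TopologicalSpace M] [ChartedSpace E M] {G : Type} [Group G]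
    (α : G → (M ≃ₘ^∞⟮𝓘(ℝ, E), 𝓘(ℝ, E)⟯ M)) : Prop :=
  (∃ g : G, g ∉ Subgroup.center G ∧ ∀ y, α g y = y) ∧
    (CentralOrFiniteIndex G → (Set.range α).Finite)

/-- The statement for the homomorphisms `α` from a group `Δ` of `n × n` matrices which contains the
cyclic permutation of the first `ℓ` coordinates: if in each degree `q = 1, ..., dim M` the dimension
of `H^q(M; F_p)` is less than `ℓ - 1`, or the cyclic permutation acts trivially on `H^q(M; F_p)`,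
then `α` is trivial on the diagonal matrices with entries `z ^ d_i`, `p ∣ ∑ d_i`, `d_i = 0` for
`i ≥ ℓ`, and `α` has finite image if every normal subgroup of `Δ` is central or of finite index. -/
def FiniteActionsCyc (E : Type) [NormedAddCommGroup E] [NormedSpace ℝ E] (M : Type)
    [TopologicalSpace M] [ChartedSpace E M] (p ℓ : ℕ) {F : Type} [Ring F] (z : F) {n : ℕ}
    (Δ : Subgroup (Matrix (Fin n) (Fin n) F)ˣ) : Prop :=
  ∀ α : Δ → (M ≃ₘ^∞⟮𝓘(ℝ, E), 𝓘(ℝ, E)⟯ M), IsHom α → CycHyp p ℓ Δ α →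
    DiagTriv p ℓ Δ α z ∧ (CentralOrFiniteIndex Δ → (Set.range α).Finite)

variable {E : Type} [NormedAddCommGroup E] [NormedSpace ℝ E] [FiniteDimensional ℝ E]
  {M : Type} [TopologicalSpace M] [ChartedSpace E M] [IsManifold 𝓘(ℝ, E) ∞ M]

theorem hasCyc_mono {F : Type} [Ring F] {n : ℕ} {z : F} {p ℓ : ℕ}
    {Γ Δ : Subgroup (Matrix (Fin n) (Fin n) F)ˣ} (h : HasCyc z p ℓ Γ) (hΔ : Γ ≤ Δ) :
    HasCyc z p ℓ Δ :=
  ⟨fun g d h1 h2 h3 => hΔ (h.1 g d h1 h2 h3), fun g hg => hΔ (h.2 g hg)⟩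

theorem cycConj_mono {F : Type} [Ring F] {n : ℕ} {ℓ : ℕ}
    {Γ Δ : Subgroup (Matrix (Fin n) (Fin n) F)ˣ} (h : CycConj ℓ Γ) (hΔ : Γ ≤ Δ) :
    CycConj ℓ Δ := by
  intro c hc j hj0 hj
  obtain ⟨g, hg, e⟩ := h c hc j hj0 hj
  exact ⟨g, hΔ hg, e⟩

theorem main_cyc [CompactSpace M] [T2Space M] [ConnectedSpace M] {p ℓ : ℕ} (hp : p.Prime)
    (hℓp : ℓ.Prime) (hℓ2 : ℓ ≠ 2) (hpl : p ≠ ℓ) (hm : finrank ℝ E / 2 + ℓ / p + 1 < ℓ)
    {F : Type} [Ring F] {z : F} {n : ℕ} (hz : z ^ p = 1) (hz1 : z ≠ 1) (hn : ℓ ≤ n)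
    {Γ Δ : Subgroup (Matrix (Fin n) (Fin n) F)ˣ} (hΓ : HasCyc z p ℓ Γ) (hΓ' : CycConj ℓ Γ)
    (hΔ : Γ ≤ Δ) : FiniteActionsCyc E M p ℓ z Δ := by
  intro α hα hβ
  exact matK hp hℓp hℓ2 hpl hm hz hz1 hn (hasCyc_mono hΓ hΔ) hα (fun q hq hqm => by
    rcases hβ q hq hqm with h | h
    · exact Or.inr (Or.inl ⟨h, cycConj_mono hΓ' hΔ⟩)
    · exact Or.inr (Or.inr h))

end Pool.Agent.Helper31.Zim
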