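import Pool.Agent.Helper31.Zim.Gen

/-!
# Groups of matrices
-/

set_option autoImplicit false
set_option linter.unusedSectionVars false

namespace Pool.Agent.Helper31.Zim

open Module Matrix Pool.Agent.Helper381 Pool.Agent.H185.ZM Pool.Agent.E8helper2.ZB
  Pool.Agent.E8helper72.ZO
open scoped Manifold ContDiff

/-- The cyclic permutation of the first `ℓ` coordinates is conjugate in `Δ` to its powers. -/
def CycConj {F : Type} [Ring F] {n : ℕ} (ℓ : ℕ) (Δ : Subgroup (Matrix (Fin n) (Fin n) F)ˣ) : Prop :=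
  ∀ c : (Matrix (Fin n) (Fin n) F)ˣ, IsCyc ℓ c → ∀ j, 0 < j → j < ℓ → ∃ g ∈ Δ, g * c * g⁻¹ = c ^ j

/-- The hypothesis in degree `q` for a group of matrices which contains the cyclic permutation of
the first `ℓ` coordinates. -/
def CycGood (p ℓ : ℕ) {E : Type} [NormedAddCommGroup E] [NormedSpace ℝ E] {M : Type}
    [TopologicalSpace M] [ChartedSpace E M] {F : Type} [Ring F] {n : ℕ}
    (Δ : Subgroup (Matrix (Fin n) (Fin n) F)ˣ) (α : Δ → (M ≃ₘ^∞⟮𝓘(ℝ, E), 𝓘(ℝ, E)⟯ M))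
    (q : ℕ) : Prop :=
  finrank (ZMod p) (SingularCohomology (ZMod p) M q) < orderOf (p : ZMod ℓ) ∨
  (finrank (ZMod p) (SingularCohomology (ZMod p) M q) < ℓ - 1 ∧ CycConj ℓ Δ) ∨
  ∀ g : Δ, IsCyc ℓ (g : (Matrix (Fin n) (Fin n) F)ˣ) → ActTriv p (α g) q

section wreath

variable {p ℓ : ℕ} [Fact p.Prime] {G : Type} [Group G] {φ : GG p ℓ →* G} {s : G}

/-- conjugation by `s` -/
theorem conj_pos (hπ : ∀ i, φ (gen p ℓ i) * s = s * φ (gen p ℓ (finRotate ℓ i))) (g : GG p ℓ) :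
    s * φ g * s⁻¹ = φ (Multiplicative.ofAdd fun i => (Multiplicative.toAdd g) (finRotate ℓ i)) := by
  have h1 := E8helper2.ZB.conj_all φ s (finRotate ℓ) hπ
    (fun i => (Multiplicative.toAdd g) (finRotate ℓ i))
  simp only [Equiv.apply_symm_apply] at h1
  have h2 : φ g = s⁻¹ * φ (Multiplicative.ofAdd
    fun i => (Multiplicative.toAdd g) (finRotate ℓ i)) * s := h1
  rw [h2]
  group

/-- the kernel of the action of a wreath product -/
theorem norm_ker (hℓp : ℓ.Prime) (hpl : p ≠ ℓ)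
    (hπ : ∀ i, φ (gen p ℓ i) * s = s * φ (gen p ℓ (finRotate ℓ i)))
    (N : Subgroup G) (hK : ∀ g, s * φ g * s⁻¹ * (φ g)⁻¹ ∈ N)
    (h1 : φ (Multiplicative.ofAdd fun _ => 1) = 1) (g : GG p ℓ) : φ g ∈ N := by
  classical
  have hp : p.Prime := Fact.out
  obtain ⟨m, rfl⟩ : ∃ m, ℓ = m + 1 := ⟨ℓ - 1, by have := hℓp.pos; omega⟩
  let H : Subgroup (GG p (m + 1)) := N.comap φ
  have hH : ∀ g, g ∈ H ↔ φ g ∈ N := fun g => Iff.rfl
  have h2 : ∀ i, gen p (m + 1) i * (gen p (m + 1) (finRotate (m + 1) i))⁻¹ ∈ H := by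
    intro i
    rw [hH, map_mul, map_inv]
    have h3 := hK (gen p (m + 1) (finRotate (m + 1) i))
    have h4 : s * φ (gen p (m + 1) (finRotate (m + 1) i)) * s⁻¹ = φ (gen p (m + 1) i) := by
      rw [← hπ]
      group
    rwa [h4] at h3
  have h5 : ∀ i, gen p (m + 1) 0 * (gen p (m + 1) i)⁻¹ ∈ H := by
    intro i
    induction i using Fin.induction with
    | zero => rw [mul_inv_cancel]; exact H.one_mem
    | succ i ih =>
      have h6 := h2 i.castSucc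
      rw [finRotate_apply, Fin.coeSucc_eq_succ] at h6
      have h7 := H.mul_mem ih h6
      have e : gen p (m + 1) 0 * (gen p (m + 1) i.castSucc)⁻¹ *
          (gen p (m + 1) i.castSucc * (gen p (m + 1) i.succ)⁻¹) =
          gen p (m + 1) 0 * (gen p (m + 1) i.succ)⁻¹ := by group
      rwa [e] at h7
  have h8 : ∏ i, (gen p (m + 1) 0 * (gen p (m + 1) i)⁻¹) ∈ H :=
    H.prod_mem fun i _ => h5 i
  have h9 : (Multiplicative.ofAdd fun _ => 1 : GG p (m + 1)) = ∏ i, gen p (m + 1) i := by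
    rw [gen_prod]
    refine Finset.prod_congr rfl fun i _ => ?_
    have : Fact (1 < p) := ⟨hp.one_lt⟩
    rw [ZMod.val_one, pow_one]
  have h10 : gen p (m + 1) 0 ^ (m + 1) ∈ H := by
    have h11 : ∏ i, gen p (m + 1) i ∈ H := by
      rw [← h9, hH, h1]
      exact N.one_mem
    have h12 := H.mul_mem h8 h11
    rw [← Finset.prod_mul_distrib] at h12
    simpa using h12
  have h13 : gen p (m + 1) 0 ^ p ∈ H := by
    have : gen p (m + 1) 0 ^ p = 1 := by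
      have h14 : p • (Pi.single 0 1 : Fin (m + 1) → ZMod p) = 0 := by
        funext i
        simp
      exact congrArg Multiplicative.ofAdd h14
    rw [this]
    exact H.one_mem
  have h15 : gen p (m + 1) 0 ∈ H := by
    have hcop : IsCoprime (p : ℤ) ((m + 1 : ℕ) : ℤ) :=
      Nat.isCoprime_iff_coprime.2 ((Nat.coprime_primes hp hℓp).2 hpl)
    obtain ⟨u, v, huv⟩ := hcop
    have h16 : gen p (m + 1) 0 = (gen p (m + 1) 0 ^ p) ^ u * (gen p (m + 1) 0 ^ (m + 1)) ^ v := by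
      rw [← zpow_natCast, ← zpow_natCast, ← _root_.zpow_mul, ← _root_.zpow_mul, ← _root_.zpow_add]
      rw [show (p : ℤ) * u + ((m + 1 : ℕ) : ℤ) * v = 1 by rw [← huv]; ring, zpow_one]
    rw [h16]
    exact H.mul_mem (H.zpow_mem h13 u) (H.zpow_mem h10 v)
  refine mem_of_gens H (fun i => ?_) g
  have h17 := H.mul_mem (H.inv_mem (h5 i)) h15
  have e : (gen p (m + 1) 0 * (gen p (m + 1) i)⁻¹)⁻¹ * gen p (m + 1) 0 = gen p (m + 1) i := by
    group
  rwa [e] at h17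

end wreath

variable {E : Type} [NormedAddCommGroup E] [NormedSpace ℝ E] [FiniteDimensional ℝ E]
  {M : Type} [TopologicalSpace M] [ChartedSpace E M] [IsManifold 𝓘(ℝ, E) ∞ M]

/-- **The kernel for groups which contain a wreath product.** -/
theorem wrK [CompactSpace M] [T2Space M] [ConnectedSpace M] {p ℓ : ℕ} (hp : p.Prime)
    (hℓp : ℓ.Prime) (hℓ2 : ℓ ≠ 2) (hpl : p ≠ ℓ) {G : Type} [Group G]
    {α : G → (M ≃ₘ^∞⟮𝓘(ℝ, E), 𝓘(ℝ, E)⟯ M)} (hα : IsHom α)
    (φ : GG p ℓ →* G) (s : G) (hs : s ^ ℓ = 1)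
    (hπ : ∀ i, φ (gen p ℓ i) * s = s * φ (gen p ℓ (finRotate ℓ i)))
    (h1 : φ (Multiplicative.ofAdd fun _ => 1) = 1)
    (hβ : ∀ q, 1 ≤ q → q ≤ finrank ℝ E → GoodAt p ℓ α s q)
    (hm : finrank ℝ E / 2 + ℓ / p + 1 < ℓ) (g : GG p ℓ) (z : M) : α (φ g) z = z := by
  have : Fact p.Prime := ⟨hp⟩
  have hfin : Finite φ.range := by
    have : Finite (GG p ℓ) := inferInstanceAs (Finite (Fin ℓ → ZMod p))
    exact Finite.of_surjective _ φ.rangeRestrict_surjective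
  have hk := genK hp hℓp hℓ2 hpl hα φ.range (by
    rintro _ ⟨g, rfl⟩
    rw [← map_pow]
    have : g ^ p = 1 := by
      have h14 : p • (Multiplicative.toAdd g) = 0 := by
        funext i
        simp
      exact congrArg Multiplicative.ofAdd h14
    rw [this, map_one]) (by
    rintro _ ⟨g, rfl⟩ _ ⟨h, rfl⟩
    rw [← map_mul, ← map_mul, mul_comm]) s hs (by
    rintro _ ⟨g, rfl⟩
    exact ⟨_, (conj_pos hπ g).symm⟩) hβ hm
  exact norm_ker hℓp hpl hπ (actKer hα.action) (fun g => hk _ ⟨g, rfl⟩) h1 g z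

/-- **Groups of matrices which contain a wreath product.** -/
theorem matK [CompactSpace M] [T2Space M] [ConnectedSpace M] {p ℓ : ℕ} (hp : p.Prime)
    (hℓp : ℓ.Prime) (hℓ2 : ℓ ≠ 2) (hpl : p ≠ ℓ) (hm : finrank ℝ E / 2 + ℓ / p + 1 < ℓ)
    {F : Type} [Ring F] {z : F} {n : ℕ} (hz : z ^ p = 1) (hz1 : z ≠ 1) (hn : ℓ ≤ n)
    {Δ : Subgroup (Matrix (Fin n) (Fin n) F)ˣ} (hΔ : HasCyc z p ℓ Δ)
    {α : Δ → (M ≃ₘ^∞⟮𝓘(ℝ, E), 𝓘(ℝ, E)⟯ M)} (hα : IsHom α)
    (hβ : ∀ q, 1 ≤ q → q ≤ finrank ℝ E → CycGood p ℓ Δ α q) :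
    (∀ (g : Δ) (d : Fin n → ℕ), p ∣ ∑ i, d i → (∀ i : Fin n, ℓ ≤ i.val → d i = 0) →
      ((g : (Matrix (Fin n) (Fin n) F)ˣ) : Matrix (Fin n) (Fin n) F) =
        diagonal (fun i => z ^ d i) → ∀ x, α g x = x) ∧
    (CentralOrFiniteIndex Δ → (Set.range α).Finite) := by
  have : Fact p.Prime := ⟨hp⟩
  obtain ⟨σ, h1, h2⟩ := exists_perm (n := n) (ℓ := ℓ) hℓp.one_le hn
  let φ : GG p ℓ →* Δ := (F0 z p ℓ n hz).codRestrict Δ (fun g => F0_mem hz hn hΔ g)
  have hφ : ∀ g, ((φ g : Δ) : (Matrix (Fin n) (Fin n) F)ˣ) = F0 z p ℓ n hz g := fun g => rfl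
  have hcyc : IsCyc ℓ (pu F σ) := ⟨σ, h1, h2, rfl⟩
  let s : Δ := ⟨pu F σ, hΔ.2 _ hcyc⟩
  have hs : s ^ ℓ = 1 := Subtype.ext (pu_pow_eq h1 h2)
  have hπ : ∀ i, φ (gen p ℓ i) * s = s * φ (gen p ℓ (finRotate ℓ i)) := fun i =>
    Subtype.ext (F0_comm hz h1 h2 i)
  have hgood : ∀ q, 1 ≤ q → q ≤ finrank ℝ E → GoodAt p ℓ α s q := by
    intro q hq hqm
    rcases hβ q hq hqm with h | ⟨h, h'⟩ | h
    · exact Or.inl h
    · refine Or.inr (Or.inl ⟨h, fun j hj0 hj => ?_⟩)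
      obtain ⟨g, hg, e⟩ := h' _ hcyc j hj0 hj
      exact ⟨⟨g, hg⟩, Subtype.ext e⟩
    · exact Or.inr (Or.inr (h s hcyc))
  have hk := wrK hp hℓp hℓ2 hpl hα φ s hs hπ (Subtype.ext (F0_ones hz)) hgood hm
  have hlp : ¬ p ∣ ℓ := fun h => hpl ((Nat.prime_dvd_prime_iff_eq hp hℓp).1 h)
  have hℓ0 : (ℓ : ZMod p) ≠ 0 := by
    rw [Ne, ZMod.natCast_eq_zero_iff]
    exact hlp
  have hker : ∀ (g : Δ) (d : Fin n → ℕ), p ∣ ∑ i, d i → (∀ i : Fin n, ℓ ≤ i.val → d i = 0) →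
      ((g : (Matrix (Fin n) (Fin n) F)ˣ) : Matrix (Fin n) (Fin n) F) =
        diagonal (fun i => z ^ d i) → ∀ x, α g x = x := by
    intro g d hd hd0 hg x
    let w : Fin ℓ → ZMod p := fun i => (ℓ : ZMod p)⁻¹ * (d ⟨i.val, by omega⟩ : ZMod p)
    have hsum : ∑ i : Fin ℓ, (d ⟨i.val, by omega⟩ : ZMod p) = 0 := by
      have e1 : ∑ i : Fin ℓ, (d ⟨i.val, by omega⟩ : ZMod p) = ∑ i : Fin n, (d i : ZMod p) := by
        have e2 : ∀ i : Fin n, (d i : ZMod p) ≠ 0 → i.val < ℓ := by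
          intro i hi
          by_contra h
          exact hi (by rw [hd0 i (not_lt.1 h), Nat.cast_zero])
        refine Finset.sum_bij_ne_zero (fun (i : Fin ℓ) _ _ => (⟨i.val, by omega⟩ : Fin n))
          (fun i _ _ => Finset.mem_univ _) (fun i _ _ j _ _ h => ?_) (fun i _ hi => ?_)
          (fun i _ _ => rfl)
        · exact Fin.ext (congrArg (fun t : Fin n => t.val) h)
        · exact ⟨⟨i.val, e2 i hi⟩, Finset.mem_univ _, hi, rfl⟩
      rw [e1, ← Nat.cast_sum, ZMod.natCast_eq_zero_iff]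
      exact hd
    have hg2 : g = φ (Multiplicative.ofAdd w) := by
      apply Subtype.ext
      rw [hφ]
      apply Units.ext
      rw [hg, F0_apply, dg_coe]
      congr 1
      funext i
      by_cases hi : i.val < ℓ
      · rw [exd_lt _ _ hi, E0_apply]
        have e3 : (ℓ : ZMod p) * w ⟨i.val, hi⟩ - ∑ j, w j = (d i : ZMod p) := by
          have e4 : ∑ j, w j = 0 := by
            show ∑ j : Fin ℓ, (ℓ : ZMod p)⁻¹ * (d ⟨j.val, by omega⟩ : ZMod p) = 0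
            rw [← Finset.mul_sum, hsum, mul_zero]
          rw [e4, sub_zero]
          show (ℓ : ZMod p) * ((ℓ : ZMod p)⁻¹ * (d i : ZMod p)) = _
          rw [← mul_assoc, mul_inv_cancel₀ hℓ0, one_mul]
        rw [toAdd_ofAdd, e3]
        show z ^ d i = z ^ ((d i : ZMod p)).val
        rw [ZMod.val_natCast]
        conv_lhs => rw [← Nat.mod_add_div (d i) p, pow_add, pow_mul, hz, one_pow, mul_one]
      · rw [exd_ge _ _ (not_lt.1 hi), hd0 i (not_lt.1 hi), pow_zero, map_one]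
    rw [hg2]
    exact hk _ x
  refine ⟨hker, fun hN => ?_⟩
  have hfin : Finite φ.range := by
    have : Finite (GG p ℓ) := inferInstanceAs (Finite (Fin ℓ → ZMod p))
    exact Finite.of_surjective _ φ.rangeRestrict_surjective
  refine (genF hp hℓp hℓ2 hpl hα φ.range (by
    rintro _ ⟨g, rfl⟩
    rw [← map_pow]
    have : g ^ p = 1 := by
      have h14 : p • (Multiplicative.toAdd g) = 0 := by
        funext i
        simp
      exact congrArg Multiplicative.ofAdd h14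
    rw [this, map_one]) (by
    rintro _ ⟨g, rfl⟩ _ ⟨h, rfl⟩
    rw [← map_mul, ← map_mul, mul_comm]) s hs (by
    rintro _ ⟨g, rfl⟩
    exact ⟨_, (conj_pos hπ g).symm⟩) ?_ hgood hm).2 hN
  -- an element which does not commute with `s`
  have hlt : 1 < ℓ := hℓp.one_lt
  refine ⟨φ (gen p ℓ ⟨0, by omega⟩), ⟨_, rfl⟩, fun h => ?_⟩
  have h3 : φ (gen p ℓ ⟨0, by omega⟩) = φ (gen p ℓ (finRotate ℓ ⟨0, by omega⟩)) := by
    apply mul_left_cancel (a := s)
    rw [h, hπ]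
  have h4 : F0 z p ℓ n hz (gen p ℓ ⟨0, by omega⟩ *
      (gen p ℓ (finRotate ℓ ⟨0, by omega⟩))⁻¹) = 1 := by
    have h5 := congrArg Subtype.val h3
    rw [hφ, hφ] at h5
    rw [map_mul, map_inv, h5, mul_inv_cancel]
  have ho : orderOf z = p := orderOf_eq_prime hz hz1
  have h6 : ∀ i j : Fin ℓ, _ := F0_center hz ho hlp hn
    (g := gen p ℓ ⟨0, by omega⟩ * (gen p ℓ (finRotate ℓ ⟨0, by omega⟩))⁻¹)
    (by rw [h4]; exact Subgroup.one_mem _)
  have h7 := h6 ⟨0, by omega⟩ (finRotate ℓ ⟨0, by omega⟩)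
  have hne : (⟨0, by omega⟩ : Fin ℓ) ≠ finRotate ℓ ⟨0, by omega⟩ := by
    intro h8
    have h9 := congrArg Fin.val h8
    rw [finRotate_val] at h9
    have h10 : (0 + 1) % ℓ = 1 := Nat.mod_eq_of_lt hlt
    rw [h10] at h9
    exact zero_ne_one h9
  have e1 : ∀ i : Fin ℓ, Multiplicative.toAdd (gen p ℓ ⟨0, by omega⟩ *
      (gen p ℓ (finRotate ℓ ⟨0, by omega⟩))⁻¹) i =
      (Pi.single ⟨0, by omega⟩ 1 : Fin ℓ → ZMod p) i -
        (Pi.single (finRotate ℓ ⟨0, by omega⟩) 1 : Fin ℓ → ZMod p) i := by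
    intro i
    rw [sub_eq_add_neg]
    rfl
  rw [e1, e1, Pi.single_eq_same, Pi.single_eq_same, Pi.single_eq_of_ne hne,
    Pi.single_eq_of_ne hne.symm, sub_zero, zero_sub] at h7
  -- `1 = -1`, so `p = 2`, look at the sum
  by_cases hp2 : p = 2
  · -- a third index
    have h8 : ∃ t : Fin ℓ, t ≠ ⟨0, by omega⟩ ∧ t ≠ finRotate ℓ ⟨0, by omega⟩ := by
      have hℓ3 : 2 < ℓ := lt_of_le_of_ne hℓp.two_le (Ne.symm hℓ2)
      refine ⟨⟨2, hℓ3⟩, fun h9 => ?_, fun h9 => ?_⟩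
      · have := congrArg Fin.val h9
        exact absurd this (by norm_num)
      · have h10 := congrArg Fin.val h9
        rw [finRotate_val] at h10
        have h11 : (0 + 1) % ℓ = 1 := Nat.mod_eq_of_lt hlt
        rw [h11] at h10
        exact absurd h10 (by norm_num)
    obtain ⟨t, ht1, ht2⟩ := h8
    have h9 := h6 t ⟨0, by omega⟩
    rw [e1, e1, Pi.single_eq_same, Pi.single_eq_of_ne hne, Pi.single_eq_of_ne ht1,
      Pi.single_eq_of_ne ht2, sub_zero, sub_zero] at h9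
    exact zero_ne_one h9
  · have h2 : (2 : ZMod p) ≠ 0 := by
      have : ((2 : ℕ) : ZMod p) ≠ 0 := by
        rw [Ne, ZMod.natCast_eq_zero_iff]
        intro h
        exact hp2 ((Nat.prime_dvd_prime_iff_eq hp Nat.prime_two).1 h)
      simpa using this
    apply h2
    linear_combination h7

end Pool.Agent.Helper31.Zim
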