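import Pool.Agent.Helper31.Zim.Type

/-!
# The characters which occur in the isotropy representations
-/

set_option autoImplicit false
set_option linter.unusedSectionVars false

namespace Pool.Agent.Helper31.Zim

open Module Metric Set Pool.Agent.Helper381 Pool.Agent.H185.ZM Pool.Agent.E8helper2.ZB
open scoped Manifold ContDiff Topology

/-- the value of the character `c` of `(ℤ/p)^k` at `g` -/
noncomputable def chv {p k : ℕ} [NeZero p] (c : Fin k → ZMod p) (g : GG p k) : ℂ :=
  ZMod.stdAddChar (∑ i, c i * (Multiplicative.toAdd g) i)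

theorem norm_chv {p k : ℕ} [NeZero p] (c : Fin k → ZMod p) (g : GG p k) : ‖chv c g‖ = 1 :=
  AddChar.norm_apply _ _

theorem chv_sq {p k : ℕ} [NeZero p] (c : Fin k → ZMod p) (g : GG p k) :
    (chv c g).re * (chv c g).re + (chv c g).im * (chv c g).im = 1 := by
  have h := Complex.normSq_eq_norm_sq (chv c g)
  rw [norm_chv, Complex.normSq_apply] at h
  rw [h]
  norm_num

theorem chv_neg {p k : ℕ} [NeZero p] (c : Fin k → ZMod p) (g : GG p k) :
    chv (-c) g = (starRingEnd ℂ) (chv c g) := by
  unfold chv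
  have : ∑ i, (-c) i * (Multiplicative.toAdd g) i = -∑ i, c i * (Multiplicative.toAdd g) i := by
    rw [← Finset.sum_neg_distrib]
    exact Finset.sum_congr rfl fun i _ => by rw [Pi.neg_apply, neg_mul]
  rw [this, AddChar.map_neg_eq_conj]

theorem chv_eq_one {p k : ℕ} [NeZero p] {c : Fin k → ZMod p} {g : GG p k} (h : chv c g = 1) :
    ∑ i, c i * (Multiplicative.toAdd g) i = 0 := by
  apply ZMod.injective_stdAddChar
  rw [AddChar.map_zero_eq_one]
  exact h

theorem exists_chv_ne {p k : ℕ} [NeZero p] {c d : Fin k → ZMod p} (h : c ≠ d) :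
    ∃ g : GG p k, chv c g ≠ chv d g := by
  obtain ⟨i, hi⟩ := Function.ne_iff.1 h
  refine ⟨gen p k i, fun h1 => hi ?_⟩
  have h2 := ZMod.injective_stdAddChar h1
  have h3 : ∀ c : Fin k → ZMod p, ∑ j, c j * (Multiplicative.toAdd (gen p k i)) j = c i := by
    intro c
    rw [Finset.sum_eq_single i]
    · show c i * (Pi.single i 1 : Fin k → ZMod p) i = c i
      rw [Pi.single_eq_same, mul_one]
    · intro j _ hj
      show c j * (Pi.single i 1 : Fin k → ZMod p) j = 0
      rw [Pi.single_eq_of_ne hj, mul_zero]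
    · intro h
      exact absurd (Finset.mem_univ _) h
  rw [h3, h3] at h2
  exact h2

section

variable {p k : ℕ} [NeZero p] {P : Type} [Group P] {W : Type} [NormedAddCommGroup W]
  [InnerProductSpace ℝ W] {T : P → W →L[ℝ] W} {φ : GG p k →* P}

/-- `v + i w` is an eigenvector for the character `c` -/
def EigP (T : P → W →L[ℝ] W) (φ : GG p k →* P) (c : Fin k → ZMod p) (v w : W) : Prop :=
  ∀ g, T (φ g) v = (chv c g).re • v - (chv c g).im • w ∧
    T (φ g) w = (chv c g).im • v + (chv c g).re • w

theorem EigP.neg {c : Fin k → ZMod p} {v w : W} (h : EigP T φ c v w) : EigP T φ (-c) v (-w) := by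
  intro g
  obtain ⟨h1, h2⟩ := h g
  rw [chv_neg, Complex.conj_re, Complex.conj_im, map_neg, h1, h2]
  constructor
  · module
  · module

/-- orthogonality -/
theorem EigP.orth (hT : ∀ p v w, Inner.inner ℝ (T p v) (T p w) = Inner.inner ℝ v w)
    {c d : Fin k → ZMod p} (hcd : c ≠ d) {v w v' w' : W} (h : EigP T φ c v w)
    (h' : EigP T φ d v' w') :
    Inner.inner ℝ v v' + Inner.inner ℝ w w' = (0 : ℝ) ∧
      Inner.inner ℝ w v' - Inner.inner ℝ v w' = (0 : ℝ) := by
  obtain ⟨g, hg⟩ := exists_chv_ne hcd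
  obtain ⟨h1, h2⟩ := h g
  obtain ⟨h1', h2'⟩ := h' g
  set C := (chv c g).re with hC
  set S := (chv c g).im with hS
  set C' := (chv d g).re with hC'
  set S' := (chv d g).im with hS'
  have e1 := hT (φ g) v v'
  have e2 := hT (φ g) w w'
  have e3 := hT (φ g) w v'
  have e4 := hT (φ g) v w'
  rw [h1, h1'] at e1
  rw [h2, h2'] at e2
  rw [h2, h1'] at e3
  rw [h1, h2'] at e4
  simp only [inner_sub_left, inner_sub_right, inner_add_left, inner_add_right,
    real_inner_smul_left, real_inner_smul_right] at e1 e2 e3 e4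
  set x1 : ℝ := Inner.inner ℝ v v'
  set x2 : ℝ := Inner.inner ℝ w w'
  set x3 : ℝ := Inner.inner ℝ w v'
  set x4 : ℝ := Inner.inner ℝ v w'
  have n1 : C * C + S * S = 1 := chv_sq c g
  have n2 : C' * C' + S' * S' = 1 := chv_sq d g
  -- the hermitian product
  set A := x1 + x2
  set B := x3 - x4
  have f1 : (C * C' + S * S') * A - (S * C' - C * S') * B = A := by
    simp only [A, B]
    linear_combination e1 + e2
  have f2 : (S * C' - C * S') * A + (C * C' + S * S') * B = B := by
    simp only [A, B]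
    linear_combination e3 - e4
  have n3 : (C * C' + S * S') * (C * C' + S * S') + (S * C' - C * S') * (S * C' - C * S') = 1 := by
    linear_combination (C' * C' + S' * S') * n1 + n2
  have n4 : C * C' + S * S' ≠ 1 := by
    intro h5
    apply hg
    apply Complex.ext
    · nlinarith [sq_nonneg (C - C'), sq_nonneg (S - S')]
    · nlinarith [sq_nonneg (C - C'), sq_nonneg (S - S')]
  set X := C * C' + S * S'
  set Y := S * C' - C * S'
  have g1 : (1 - X) * A = 0 := by
    have : (1 - X) * A + Y * B = 0 := by linear_combination -f1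
    have h6 : (1 - X) * B - Y * A = 0 := by linear_combination -f2
    have h7 : 2 * (1 - X) * A = 0 := by
      linear_combination (1 - X) * this - Y * h6 - A * n3
    linarith
  have g2 : (1 - X) * B = 0 := by
    have : (1 - X) * A + Y * B = 0 := by linear_combination -f1
    have h6 : (1 - X) * B - Y * A = 0 := by linear_combination -f2
    have h7 : 2 * (1 - X) * B = 0 := by
      linear_combination (1 - X) * h6 + Y * this - B * n3
    linarith
  have n5 : 1 - X ≠ 0 := fun h => n4 (by linarith)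
  exact ⟨(mul_eq_zero.1 g1).resolve_left n5, (mul_eq_zero.1 g2).resolve_left n5⟩

/-- orthogonality, all products -/
theorem EigP.orth4 (hT : ∀ p v w, Inner.inner ℝ (T p v) (T p w) = Inner.inner ℝ v w)
    {c d : Fin k → ZMod p} (hcd : c ≠ d) (hcd' : c ≠ -d) {v w v' w' : W} (h : EigP T φ c v w)
    (h' : EigP T φ d v' w') :
    (Inner.inner ℝ v v' = (0 : ℝ) ∧ Inner.inner ℝ w w' = (0 : ℝ)) ∧
      (Inner.inner ℝ w v' = (0 : ℝ) ∧ Inner.inner ℝ v w' = (0 : ℝ)) := by
  obtain ⟨h1, h2⟩ := h.orth hT hcd h'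
  obtain ⟨h3, h4⟩ := h.orth hT hcd' h'.neg
  rw [inner_neg_right] at h3 h4
  refine ⟨⟨?_, ?_⟩, ?_, ?_⟩ <;> linarith

/-- real and imaginary part of an eigenvector for a character which is not real -/
theorem EigP.self (hT : ∀ p v w, Inner.inner ℝ (T p v) (T p w) = Inner.inner ℝ v w)
    {c : Fin k → ZMod p} (hc : c ≠ -c) {v w : W} (h : EigP T φ c v w) (hvw : v ≠ 0 ∨ w ≠ 0) :
    v ≠ 0 ∧ w ≠ 0 ∧ Inner.inner ℝ v w = (0 : ℝ) := by
  obtain ⟨h3, h4⟩ := h.orth hT hc h.neg
  rw [inner_neg_right] at h3 h4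
  have h5 : Inner.inner ℝ v w = (0 : ℝ) := by
    have : (Inner.inner ℝ w v : ℝ) = Inner.inner ℝ v w := real_inner_comm v w
    linarith
  have h6 : (Inner.inner ℝ v v : ℝ) = Inner.inner ℝ w w := by linarith
  refine ⟨?_, ?_, h5⟩
  · rintro rfl
    rw [inner_zero_left] at h6
    rcases hvw with h | h
    · exact h rfl
    · exact h (inner_self_eq_zero.1 h6.symm)
  · rintro rfl
    rw [inner_zero_left] at h6
    rcases hvw with h | h
    · exact h (inner_self_eq_zero.1 h6)
    · exact h rfl

/-- the dimension of an invariant subspace in which many characters occur -/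
theorem card_le (hT : ∀ p v w, Inner.inner ℝ (T p v) (T p w) = Inner.inner ℝ v w)
    (V : Submodule ℝ W) [FiniteDimensional ℝ V] {ℓ : ℕ} (c : Fin ℓ → Fin k → ZMod p)
    (hc : ∀ i j, i ≠ j → c i ≠ c j ∧ c i ≠ -c j) (v w : Fin ℓ → W) (hv : ∀ i, v i ∈ V)
    (hw : ∀ i, w i ∈ V) (hvw : ∀ i, v i ≠ 0 ∨ w i ≠ 0) (hE : ∀ i, EigP T φ (c i) (v i) (w i)) :
    ℓ ≤ finrank ℝ V ∧ ((∀ i, c i ≠ - c i) → 2 * ℓ ≤ finrank ℝ V) := by
  classical
  constructor
  · let u : Fin ℓ → V := fun i => if v i ≠ 0 then ⟨v i, hv i⟩ else ⟨w i, hw i⟩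
    have hu : ∀ i, u i ≠ 0 := by
      intro i
      simp only [u]
      split_ifs with h
      · exact fun h1 => h (congrArg Subtype.val h1)
      · exact fun h1 => (hvw i).resolve_left h (congrArg Subtype.val h1)
    have hO : Pairwise fun i j => (Inner.inner ℝ (u i) (u j) : ℝ) = 0 := by
      intro i j hij
      obtain ⟨⟨h1, h2⟩, h3, h4⟩ := (hE i).orth4 hT (hc i j hij).1 (hc i j hij).2 (hE j)
      simp only [u]
      split_ifs
      · exact h1
      · exact h4
      · exact h3
      · exact h2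
    have := (linearIndependent_of_ne_zero_of_inner_eq_zero (𝕜 := ℝ) hu hO).fintype_card_le_finrank
    rwa [Fintype.card_fin] at this
  · intro hcc
    let u : Fin ℓ × Fin 2 → V := fun i => if i.2 = 0 then ⟨v i.1, hv i.1⟩ else ⟨w i.1, hw i.1⟩
    have hs := fun i => (hE i).self hT (hcc i) (hvw i)
    have hu : ∀ i, u i ≠ 0 := by
      intro i
      simp only [u]
      split_ifs with h
      · exact fun h1 => (hs i.1).1 (congrArg Subtype.val h1)
      · exact fun h1 => (hs i.1).2.1 (congrArg Subtype.val h1)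
    have hO : Pairwise fun i j => (Inner.inner ℝ (u i) (u j) : ℝ) = 0 := by
      rintro ⟨i, a⟩ ⟨j, b⟩ hij
      by_cases h : i = j
      · subst h
        have hab : a ≠ b := fun h => hij (by rw [h])
        have h5 := (hs i).2.2
        simp only [u]
        split_ifs with h1 h2 h2
        · exact absurd (h1.trans h2.symm) hab
        · exact h5
        · exact (real_inner_comm _ _).trans h5
        · exact absurd (by omega : a = b) hab
      · obtain ⟨⟨h1, h2⟩, h3, h4⟩ := (hE i).orth4 hT (hc i j h).1 (hc i j h).2 (hE j)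
        simp only [u]
        split_ifs
        · exact h1
        · exact h4
        · exact h3
        · exact h2
    have := (linearIndependent_of_ne_zero_of_inner_eq_zero (𝕜 := ℝ) hu hO).fintype_card_le_finrank
    rw [Fintype.card_prod, Fintype.card_fin, Fintype.card_fin] at this
    omega

end

end Pool.Agent.Helper31.Zim
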