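import Pool.Agent.Helper31.Zim.Occ

/-!
# The set of the characters which occur in the isotropy representation
-/

set_option autoImplicit false
set_option linter.unusedSectionVars false

namespace Pool.Agent.Helper31.Zim

open Module Metric Set Pool.Agent.Helper381 Pool.Agent.H185.ZM Pool.Agent.E8helper2.ZB
open scoped Manifold ContDiff Topology

theorem chv_mul {p k : ℕ} [NeZero p] (c : Fin k → ZMod p) (g h : GG p k) :
    chv c (g * h) = chv c g * chv c h := by
  unfold chv
  rw [← AddChar.map_add_eq_mul, ← Finset.sum_add_distrib]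
  congr 1
  refine Finset.sum_congr rfl fun i _ => ?_
  rw [toAdd_mul, Pi.add_apply, mul_add]

theorem chv_inv {p k : ℕ} [NeZero p] (c : Fin k → ZMod p) (g : GG p k) :
    chv c g⁻¹ = (starRingEnd ℂ) (chv c g) := by
  rw [← chv_neg]
  unfold chv
  congr 1
  refine Finset.sum_congr rfl fun i _ => ?_
  rw [toAdd_inv, Pi.neg_apply, Pi.neg_apply]
  ring

theorem sum_chv {p k : ℕ} [NeZero p] (g : GG p k) (hg : g ≠ 1) :
    ∑ c : Fin k → ZMod p, chv c g = 0 := by
  let ψ : AddChar (Fin k → ZMod p) ℂ :=
    { toFun := fun c => chv c g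
      map_zero_eq_one' := by
        unfold chv
        simp
      map_add_eq_mul' := fun c d => by
        unfold chv
        rw [← AddChar.map_add_eq_mul, ← Finset.sum_add_distrib]
        congr 1
        exact Finset.sum_congr rfl fun i _ => by rw [Pi.add_apply, add_mul] }
  have hψ : ψ ≠ 0 := by
    intro h
    apply hg
    have h1 : Multiplicative.toAdd g = 0 := by
      funext i
      have h2 : chv (Pi.single i 1 : Fin k → ZMod p) g = 1 := by
        have := DFunLike.congr_fun h (Pi.single i 1)
        exact this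
      have h3 := chv_eq_one h2
      rw [Finset.sum_eq_single i] at h3
      · rw [Pi.single_eq_same, one_mul] at h3
        exact h3
      · intro j _ hj
        rw [Pi.single_eq_of_ne hj, zero_mul]
      · intro h
        exact absurd (Finset.mem_univ _) h
    exact h1
  exact (AddChar.sum_eq_zero_iff_ne_zero (ψ := ψ)).2 hψ

theorem conj_all {p k : ℕ} [Fact p.Prime] {P : Type} [Group P] (φ : GG p k →* P) (s : P)
    (π : Equiv.Perm (Fin k)) (hπ : ∀ i, φ (gen p k i) * s = s * φ (gen p k (π i)))
    (g : GG p k) :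
    φ g * s = s * φ (Multiplicative.ofAdd fun i => (Multiplicative.toAdd g) (π.symm i)) := by
  let ν : GG p k →* GG p k := AddMonoidHom.toMultiplicative
    (LinearMap.funLeft (ZMod p) (ZMod p) π.symm).toAddMonoidHom
  let A : GG p k →* P := φ.comp ν
  let B : GG p k →* P := (MulAut.conj s⁻¹).toMonoidHom.comp φ
  have hB : ∀ g, B g = s⁻¹ * φ g * s := by
    intro g
    show s⁻¹ * φ g * (s⁻¹)⁻¹ = _
    rw [inv_inv]
  have hAB : ∀ i, gen p k i ∈ A.eqLocus B := by
    intro i
    have h12 : A (gen p k i) = φ (gen p k (π i)) := by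
      show φ (Multiplicative.ofAdd (fun j => (Pi.single i 1 : Fin k → ZMod p)
        (π.symm j))) = φ (Multiplicative.ofAdd (Pi.single (π i) 1))
      congr 2
      funext j
      by_cases hj : j = π i
      · subst hj
        simp
      · rw [Pi.single_eq_of_ne hj, Pi.single_eq_of_ne]
        intro h13
        apply hj
        rw [← h13, Equiv.apply_symm_apply]
    show A (gen p k i) = B (gen p k i)
    rw [h12, hB, mul_assoc, hπ, inv_mul_cancel_left]
  have h := mem_of_gens (A.eqLocus B) hAB g
  have h1 : A g = B g := h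
  rw [hB] at h1
  have h2 : A g = φ (Multiplicative.ofAdd fun i => (Multiplicative.toAdd g) (π.symm i)) := rfl
  rw [← h2, h1]
  group

section

variable {E : Type} [NormedAddCommGroup E] [NormedSpace ℝ E] [FiniteDimensional ℝ E]
  {M : Type} [TopologicalSpace M] [ChartedSpace E M] [IsManifold 𝓘(ℝ, E) ∞ M]
  {P : Type} [Group P] {a : P → M → M} {W : Type} [NormedAddCommGroup W]
  [InnerProductSpace ℝ W] {F : M → W} {T : P → W →L[ℝ] W} {p k : ℕ} [NeZero p]
  {φ : GG p k →* P}

/-- the characters which occur in the isotropy representation at `x` -/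
def occ (E : Type) [NormedAddCommGroup E] [NormedSpace ℝ E] {M : Type}
    [TopologicalSpace M] [ChartedSpace E M] {P : Type} [Group P] {W : Type}
    [NormedAddCommGroup W] [InnerProductSpace ℝ W] (F : M → W) (T : P → W →L[ℝ] W) {p k : ℕ}
    [NeZero p] (φ : GG p k →* P) (x : M) : Set (Fin k → ZMod p) :=
  {c | ∃ v ∈ TS E F x, ∃ w ∈ TS E F x, (v ≠ 0 ∨ w ≠ 0) ∧ EigP T φ c v w}

theorem occ_eventually (h : EquiEmb E a W F T) (ha : SmoothAction E a) (x : M)
    (hx : ∀ g, a (φ g) x = x) :
    ∀ᶠ y in 𝓝 x, (∀ g, a (φ g) y = y) → occ E F T φ y = occ E F T φ x := by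
  filter_upwards [eventually_inj h x] with y hinj hy
  let pr : TS E F y →ₗ[ℝ] TS E F x :=
    ((TS E F x).orthogonalProjectionOnto : W →ₗ[ℝ] TS E F x).comp (TS E F y).subtype
  have hpr : ∀ v : TS E F y, pr v = (TS E F x).orthogonalProjectionOnto (v : W) := fun _ => rfl
  have hi : Function.Injective pr := by
    rw [injective_iff_map_eq_zero]
    intro v hv
    exact Subtype.ext (hinj v v.2 hv)
  have hfr : finrank ℝ (TS E F y) = finrank ℝ (TS E F x) := by
    rw [h.finrank_TS, h.finrank_TS]
  have hsurj : Function.Surjective pr :=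
    (LinearMap.injective_iff_surjective_of_finrank_eq_finrank hfr).1 hi
  have hact : ∀ (g : GG p k) (v : TS E F y) (hv : T (φ g) v ∈ TS E F y),
      (pr ⟨T (φ g) v, hv⟩ : W) = T (φ g) (pr v) := fun g v hv =>
    proj_act h ha (hx g) (v : W)
  have hmem : ∀ (g : GG p k) (v : TS E F y), T (φ g) v ∈ TS E F y := fun g v =>
    h.T_mem ha (hy g) v.2
  apply Set.Subset.antisymm
  · rintro c ⟨v, hv, w, hw, hvw, hE⟩
    refine ⟨pr ⟨v, hv⟩, (pr ⟨v, hv⟩).2, pr ⟨w, hw⟩, (pr ⟨w, hw⟩).2, ?_, ?_⟩
    · rcases hvw with h1 | h1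
      · left
        intro h2
        apply h1
        have h3 : pr ⟨v, hv⟩ = 0 := Subtype.ext h2
        exact congrArg Subtype.val (hi (h3.trans (map_zero pr).symm))
      · right
        intro h2
        apply h1
        have h3 : pr ⟨w, hw⟩ = 0 := Subtype.ext h2
        exact congrArg Subtype.val (hi (h3.trans (map_zero pr).symm))
    · intro g
      obtain ⟨h1, h2⟩ := hE g
      constructor
      · rw [← hact g ⟨v, hv⟩ (hmem g ⟨v, hv⟩)]
        have h3 : (⟨T (φ g) v, hmem g ⟨v, hv⟩⟩ : TS E F y) =
            (chv c g).re • (⟨v, hv⟩ : TS E F y) - (chv c g).im • (⟨w, hw⟩ : TS E F y) :=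
          Subtype.ext h1
        show (pr ⟨T (φ g) v, hmem g ⟨v, hv⟩⟩ : W) = _
        rw [h3, map_sub, map_smul, map_smul]
        rfl
      · rw [← hact g ⟨w, hw⟩ (hmem g ⟨w, hw⟩)]
        have h3 : (⟨T (φ g) w, hmem g ⟨w, hw⟩⟩ : TS E F y) =
            (chv c g).im • (⟨v, hv⟩ : TS E F y) + (chv c g).re • (⟨w, hw⟩ : TS E F y) :=
          Subtype.ext h2
        show (pr ⟨T (φ g) w, hmem g ⟨w, hw⟩⟩ : W) = _
        rw [h3, map_add, map_smul, map_smul]
        rfl
  · rintro c ⟨v, hv, w, hw, hvw, hE⟩
    obtain ⟨v', hv'⟩ := hsurj ⟨v, hv⟩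
    obtain ⟨w', hw'⟩ := hsurj ⟨w, hw⟩
    have ev : (pr v' : W) = v := congrArg Subtype.val hv'
    have ew : (pr w' : W) = w := congrArg Subtype.val hw'
    refine ⟨v', v'.2, w', w'.2, ?_, ?_⟩
    · rcases hvw with h1 | h1
      · left
        intro h2
        apply h1
        have h3 : v' = 0 := Subtype.ext h2
        rw [← ev, h3, map_zero]
        rfl
      · right
        intro h2
        apply h1
        have h3 : w' = 0 := Subtype.ext h2
        rw [← ew, h3, map_zero]
        rfl
    · intro g
      obtain ⟨h1, h2⟩ := hE g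
      constructor
      · have h3 : (⟨T (φ g) v', hmem g v'⟩ : TS E F y) =
            (chv c g).re • v' - (chv c g).im • w' := by
          apply hi
          apply Subtype.ext
          rw [hact, map_sub, map_smul, map_smul, ev, h1]
          show _ = (chv c g).re • (pr v' : W) - (chv c g).im • (pr w' : W)
          rw [ev, ew]
        exact congrArg Subtype.val h3
      · have h3 : (⟨T (φ g) w', hmem g w'⟩ : TS E F y) =
            (chv c g).im • v' + (chv c g).re • w' := by
          apply hi
          apply Subtype.ext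
          rw [hact, map_add, map_smul, map_smul, ew, h2]
          show _ = (chv c g).im • (pr v' : W) + (chv c g).re • (pr w' : W)
          rw [ev, ew]
        exact congrArg Subtype.val h3

theorem map_TS (h : EquiEmb E a W F T) (ha : SmoothAction E a) (q : P) {x : M} {v : W}
    (hv : v ∈ TS E F x) : T q v ∈ TS E F (a q x) := by
  obtain ⟨u, rfl⟩ := hv
  exact ⟨_, h.D_act ha q x u⟩

theorem T_inj (h : EquiEmb E a W F T) (q : P) {v : W} (hv : T q v = 0) : v = 0 := by
  have h1 := h.mul q⁻¹ q v
  rw [inv_mul_cancel, h.one, hv, map_zero] at h1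
  exact h1

end

section

variable {E : Type} [NormedAddCommGroup E] [NormedSpace ℝ E] [FiniteDimensional ℝ E]
  {M : Type} [TopologicalSpace M] [ChartedSpace E M] [IsManifold 𝓘(ℝ, E) ∞ M]
  {P : Type} [Group P] {a : P → M → M} {W : Type} [NormedAddCommGroup W]
  [InnerProductSpace ℝ W] {F : M → W} {T : P → W →L[ℝ] W} {p k : ℕ} [Fact p.Prime]
  {φ : GG p k →* P}

/-- conjugation -/
theorem occ_map (h : EquiEmb E a W F T) (ha : SmoothAction E a) (s : P)
    (π : Equiv.Perm (Fin k)) (hπ : ∀ i, φ (gen p k i) * s = s * φ (gen p k (π i)))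
    {x : M} {c : Fin k → ZMod p} (hc : c ∈ occ E F T φ x) :
    (fun i => c (π i)) ∈ occ E F T φ (a s x) := by
  obtain ⟨v, hv, w, hw, hvw, hE⟩ := hc
  refine ⟨T s v, map_TS h ha s hv, T s w, map_TS h ha s hw, ?_, ?_⟩
  · exact hvw.imp (fun h1 h2 => h1 (T_inj h s h2)) (fun h1 h2 => h1 (T_inj h s h2))
  · intro g
    obtain ⟨h1, h2⟩ := hE (Multiplicative.ofAdd fun i => (Multiplicative.toAdd g) (π.symm i))
    have e : chv (fun i => c (π i)) g =
        chv c (Multiplicative.ofAdd fun i => (Multiplicative.toAdd g) (π.symm i)) := by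
      unfold chv
      congr 1
      rw [← Equiv.sum_comp π (fun i => c i * (Multiplicative.toAdd (Multiplicative.ofAdd
        fun i => (Multiplicative.toAdd g) (π.symm i))) i)]
      refine Finset.sum_congr rfl fun i _ => ?_
      rw [toAdd_ofAdd, Equiv.symm_apply_apply]
    have e2 := conj_all φ s π hπ g
    rw [← h.mul, e2, h.mul, h1, ← h.mul, e2, h.mul, h2, e, map_sub, map_add, map_smul, map_smul,
      map_smul, map_smul]
    exact ⟨rfl, rfl⟩

theorem occ_map' (h : EquiEmb E a W F T) (ha : SmoothAction E a) (s : P)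
    (π : Equiv.Perm (Fin k)) (hπ : ∀ i, φ (gen p k i) * s = s * φ (gen p k (π i)))
    {x : M} {c : Fin k → ZMod p} (hc : c ∈ occ E F T φ (a s x)) :
    (fun i => c (π.symm i)) ∈ occ E F T φ x := by
  have h1 := occ_map (φ := φ) h ha s⁻¹ π.symm (fun i => by
    have := hπ (π.symm i)
    rw [Equiv.apply_symm_apply] at this
    rw [eq_inv_mul_iff_mul_eq, ← mul_assoc, ← this, mul_inv_cancel_right]) hc
  rwa [← ha.mul, inv_mul_cancel, ha.one] at h1

/-- if only the trivial character occurs then the isotropy representation is trivial -/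
theorem occ_trivial (h : EquiEmb E a W F T) (ha : SmoothAction E a) {x : M}
    (hx : ∀ g, a (φ g) x = x) (hocc : ∀ c ∈ occ E F T φ x, c = 0) (g : GG p k) {v : W}
    (hv : v ∈ TS E F x) : T (φ g) v = v := by
  classical
  have hmem : ∀ (g : GG p k), T (φ g) v ∈ TS E F x := fun g => h.T_mem ha (hx g) hv
  let A : (Fin k → ZMod p) → W := fun c => ∑ g : GG p k, (chv c g).re • T (φ g) v
  let B : (Fin k → ZMod p) → W := fun c => -∑ g : GG p k, (chv c g).im • T (φ g) v
  have hA : ∀ c, A c ∈ TS E F x := fun c =>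
    Submodule.sum_mem _ fun g _ => Submodule.smul_mem _ _ (hmem g)
  have hB : ∀ c, B c ∈ TS E F x := fun c =>
    Submodule.neg_mem _ (Submodule.sum_mem _ fun g _ => Submodule.smul_mem _ _ (hmem g))
  have hEig : ∀ c, EigP T φ c (A c) (B c) := by
    intro c u
    have h1 : ∀ g, T (φ u) (T (φ g) v) = T (φ (u * g)) v := by
      intro g
      rw [map_mul, h.mul]
    have h2 : ∀ f : GG p k → ℝ, T (φ u) (∑ g : GG p k, f g • T (φ g) v) =
        ∑ g : GG p k, f (u⁻¹ * g) • T (φ g) v := by
      intro f
      rw [map_sum, ← Equiv.sum_comp (Equiv.mulLeft u⁻¹)]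
      refine Finset.sum_congr rfl fun g _ => ?_
      rw [map_smul, h1]
      simp
    have h3 : ∀ g, (chv c (u⁻¹ * g)).re = (chv c u).re * (chv c g).re +
        (chv c u).im * (chv c g).im := by
      intro g
      rw [chv_mul, chv_inv, Complex.mul_re, Complex.conj_re, Complex.conj_im]
      ring
    have h4 : ∀ g, (chv c (u⁻¹ * g)).im = (chv c u).re * (chv c g).im -
        (chv c u).im * (chv c g).re := by
      intro g
      rw [chv_mul, chv_inv, Complex.mul_im, Complex.conj_re, Complex.conj_im]
      ring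
    constructor
    · simp only [A, B]
      rw [h2, smul_neg, sub_neg_eq_add, Finset.smul_sum, Finset.smul_sum,
        ← Finset.sum_add_distrib]
      refine Finset.sum_congr rfl fun g _ => ?_
      rw [h3]
      module
    · simp only [A, B]
      rw [map_neg, h2, smul_neg, Finset.smul_sum, Finset.smul_sum, ← sub_eq_add_neg,
        ← Finset.sum_sub_distrib, ← Finset.sum_neg_distrib]
      refine Finset.sum_congr rfl fun g _ => ?_
      rw [h4]
      module
  have hA0 : ∀ c, c ≠ 0 → A c = 0 := by
    intro c hc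
    by_contra hne
    exact hc (hocc c ⟨A c, hA c, B c, hB c, Or.inl hne, hEig c⟩)
  -- the sum
  have hsum : ∑ c, A c = (Fintype.card (Fin k → ZMod p) : ℝ) • v := by
    simp only [A]
    rw [Finset.sum_comm, Finset.sum_eq_single 1]
    · rw [← Finset.sum_smul]
      congr 1
      · have : ∀ c : Fin k → ZMod p, (chv c (1 : GG p k)).re = 1 := by
          intro c
          unfold chv
          simp
        simp [this]
      · rw [map_one, h.one]
    · intro g _ hg
      rw [← Finset.sum_smul, ← Complex.re_sum, sum_chv g hg, Complex.zero_re, zero_smul]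
    · intro h
      exact absurd (Finset.mem_univ _) h
  rw [Finset.sum_eq_single 0 (fun c _ hc => hA0 c hc) (fun h => absurd (Finset.mem_univ _) h)]
    at hsum
  have hN : (Fintype.card (Fin k → ZMod p) : ℝ) ≠ 0 := by
    exact_mod_cast Fintype.card_ne_zero
  have h5 : T (φ g) (A 0) = A 0 := by
    have := (hEig 0 g).1
    have h6 : chv (0 : Fin k → ZMod p) g = 1 := by
      unfold chv
      simp
    rw [h6, Complex.one_re, Complex.one_im, one_smul, zero_smul, sub_zero] at this
    exact this
  rw [hsum, map_smul] at h5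
  exact smul_right_injective W hN h5

end

end Pool.Agent.Helper31.Zim
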