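import Pool.Agent.Helper31.Zim.Core2

/-!
# Weights for semisimplicial sets and posets
-/

set_option autoImplicit false
set_option linter.unusedSectionVars false

namespace Pool.Agent.Helper31.Zim

open Module Pool.Agent.Helper381 Pool.Agent.E8helper2.ZB

section aug

variable {p k : ℕ} {C : ℕ → Type} [∀ q, Fintype (C q)] [∀ q, DecidableEq (C q)]
  (face : ∀ n, Fin (n + 2) → C (n + 1) → C n)

variable (hface : ∀ n (i j : Fin (n + 2)) (σ : C (n + 2)), i ≤ j →
      face n i (face (n + 1) j.succ σ) = face n j (face (n + 1) i.castSucc σ))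

theorem sX_bd (s : ∀ q, C q ≃ C q)
    (hsf : ∀ n i σ, face n i (s (n + 1) σ) = s n (face n i σ)) (q : ℕ) (τ : XX C q)
    (σ : XX C (q + 1)) :
    bdm p face q (sX s q τ) (sX s (q + 1) σ) = bdm p face q τ σ := by
  cases q with
  | zero => rfl
  | succ q =>
    change C q at τ
    change C (q + 1) at σ
    show (∑ i : Fin (q + 2), if face q i (s (q + 1) σ) = s q τ then (-1 : ZMod p) ^ (i : ℕ)
      else 0) = ∑ i : Fin (q + 2), if face q i σ = τ then (-1 : ZMod p) ^ (i : ℕ) else 0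
    refine Finset.sum_congr rfl fun i _ => ?_
    rw [hsf]
    simp only [EmbeddingLike.apply_eq_iff_eq]

include hface

/-- **Acyclicity of the eigenspaces.** -/
theorem semiE [Fact p.Prime] (v : C 0) (s : ∀ q, C q ≃ C q)
    (hsf : ∀ n i σ, face n i (s (n + 1) σ) = s n (face n i σ))
    (K : Type) [Field K] [Algebra (ZMod p) K]
    (hβ0 : finrank (ZMod p)
      (Coh (ZMod p) (fun n => C n → ZMod p) (fun n => altd (ZMod p) face n) 0) ≤ 1)
    (q : ℕ) (μ : K) (hμ : IsOfFinOrder μ) (hμp : 0 < orderOf (p : ZMod (orderOf μ)))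
    (hβ : 1 ≤ q → finrank (ZMod p)
      (Coh (ZMod p) (fun n => C n → ZMod p) (fun n => altd (ZMod p) face n) q) <
        orderOf (p : ZMod (orderOf μ)) ∨ (μ ≠ 1 ∧
      ∀ b ∈ LinearMap.ker (altd (ZMod p) face q), (fun σ => b (s q σ)) - b ∈
        cobound (ZMod p) (fun n => C n → ZMod p) (fun n => altd (ZMod p) face n) q))
    (y : XX C (q + 1) → K) (hy : ex K (bdm p face q) y = 0)
    (hsy : pb K (sX s (q + 1)) y = μ • y) : ∃ z, ex K (bdm p face (q + 1)) z = y := by
  classical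
  let β : ℕ → ℕ := fun n => finrank (ZMod p)
          (Coh (ZMod p) (fun n => C n → ZMod p) (fun n => altd (ZMod p) face n) n)
  have hd : ∀ n x, altd (ZMod p) face (n + 1) (altd (ZMod p) face n x) = 0 :=
    fun n x => altd_altd face hface n x
  have hrk : ∀ q, (bdm p face (q + 1)).rank = finrank (ZMod p) (LinearMap.range
      (altd (ZMod p) face q)) := by
    intro q
    rw [← Matrix.rank_transpose, Matrix.rank, bdm_altd]
    rfl
  have hrk0 : (bdm p face 0).rank = 1 := by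
    rw [← Matrix.rank_transpose, Matrix.rank, LinearMap.finrank_range_of_inj]
    · rw [Module.finrank_fintype_fun_eq_card]
      rfl
    · intro f g h
      have h1 := congrFun h (v : XX C 1)
      funext (x : PUnit)
      have h2 : ∀ f : XX C 0 → ZMod p,
          (Matrix.transpose (bdm p face 0)).mulVecLin f (v : XX C 1) = f x := by
        intro f
        show ∑ y : PUnit, (1 : ZMod p) * f y = f x
        simp only [one_mul, Finset.univ_unique]
        exact Finset.sum_singleton f PUnit.unit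
      rw [h2, h2] at h1
      exact h1
  have hcard : ∀ q, Fintype.card (XX C (q + 1)) = finrank (ZMod p) (C q → ZMod p) := by
    intro q
    rw [Module.finrank_fintype_fun_eq_card]
    rfl
  have hcoh : ∀ q, β q + finrank (ZMod p) (LinearMap.range (altd (ZMod p) face q)) +
      rkb (C := fun n => C n → ZMod p) (fun n => altd (ZMod p) face n) q =
      finrank (ZMod p) (C q → ZMod p) := fun q =>
    finrank_coh (C := fun n => C n → ZMod p) (fun n => altd (ZMod p) face n) hd q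
  have hβ1 : β 0 ≤ 1 := hβ0
  have hβ2 : 1 ≤ β 0 := by
    obtain h | h := Nat.eq_zero_or_pos (β 0)
    · exfalso
      have h1 := hcoh 0
      rw [rkb_zero, h, zero_add, add_zero] at h1
      have h2 := LinearMap.finrank_range_add_finrank_ker (altd (ZMod p) face 0)
      have h3 : finrank (ZMod p) (LinearMap.ker (altd (ZMod p) face 0)) = 0 := by omega
      rw [Submodule.finrank_eq_zero] at h3
      have h4 : (fun _ => 1 : C 0 → ZMod p) ∈ LinearMap.ker (altd (ZMod p) face 0) := by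
        rw [LinearMap.mem_ker]
        funext σ
        rw [altd_apply]
        simp
      rw [h3, Submodule.mem_bot] at h4
      exact one_ne_zero (congrFun h4 v)
    · exact h
  have hbd : ∀ q, bdm p face q * bdm p face (q + 1) = 0 := bdm_bdm face hface
  have hrank : (if q = 0 then β 0 - 1 else β q) + (bdm p face (q + 1)).rank +
      (bdm p face q).rank = Fintype.card (XX C (q + 1)) := by
    cases q with
    | zero =>
      have h1 := hcoh 0
      rw [rkb_zero] at h1
      rw [hrk, hrk0, hcard, if_pos rfl]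
      omega
    | succ q =>
      have h1 := hcoh (q + 1)
      rw [rkb_succ] at h1
      rw [hrk, hrk, hcard, if_neg (Nat.succ_ne_zero q)]
      exact h1
  have hor : (if q = 0 then β 0 - 1 else β q) <
      orderOf (p : ZMod (orderOf μ)) ∨ (1 ≤ q ∧ μ ≠ 1 ∧
        ∀ b ∈ LinearMap.ker (altd (ZMod p) face q), (fun σ => b (s q σ)) - b ∈
          cobound (ZMod p) (fun n => C n → ZMod p) (fun n => altd (ZMod p) face n) q) := by
    cases q with
    | zero =>
      left
      rw [if_pos rfl]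
      omega
    | succ q =>
      rcases hβ (by omega) with h | h
      · left
        rw [if_neg (Nat.succ_ne_zero q)]
        exact h
      · exact Or.inr ⟨by omega, h⟩
  rcases hor with hlt | ⟨hq1, hne, htr⟩
  · exact bdry_of_eig (bdm p face (q + 1)) (bdm p face q) (hbd q)
      (if q = 0 then β 0 - 1 else β q) hrank (sX s (q + 1)) (sX s (q + 2))
      (fun x z => sX_bd face s hsf (q + 1) x z) hμ hlt y hy hsy
  · refine bdry_of_triv (bdm p face (q + 1)) (bdm p face q) (hbd q)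
      (if q = 0 then β 0 - 1 else β q) hrank (sX s (q + 1)) (sX s (q + 2))
      (fun x z => sX_bd face s hsf (q + 1) x z) hne (fun r hr => ?_) y hy hsy
    obtain ⟨q, rfl⟩ : ∃ q', q = q' + 1 := ⟨q - 1, by omega⟩
    have hvm : ∀ (m : ℕ) (f : XX C (m + 1) → ZMod p),
        Matrix.vecMul f (bdm p face (m + 1)) = altd (ZMod p) face m f := fun m f =>
      (Matrix.mulVec_transpose _ _).symm.trans
        (LinearMap.congr_fun (bdm_altd (p := p) face m) f)
    obtain ⟨c, hc⟩ := htr r (LinearMap.mem_ker.2 ((hvm (q + 1) r).symm.trans hr))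
    exact ⟨c, hc.symm.trans (hvm q c).symm⟩

/-- **Weights for semisimplicial sets.** -/
theorem semiB [Fact p.Prime] [∀ q, MulAction (GG p k) (C q)]
    (hact : ∀ n i (g : GG p k) σ, face n i (g • σ) = g • face n i σ) (v : C 0) (N : ℕ)
    (hN : ∀ q, N ≤ q → IsEmpty (C q)) (s : ∀ q, C q ≃ C q)
    (hsf : ∀ n i σ, face n i (s (n + 1) σ) = s n (face n i σ)) {ℓ : ℕ}
    (hs : ∀ q x, (s q)^[ℓ] x = x)
    (π : Equiv.Perm (Fin k)) (hπ : ∀ q i x, gen p k i • s q x = s q (gen p k (π i) • x))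
    (K : Type) [Field K] [Algebra (ZMod p) K] (ξ : Fin k → K)
    (ζ : K) (hζ : ζ ^ ℓ = 1) (hℓ : (ℓ : K) ≠ 0) (hξ : ∀ i, ξ i = ζ * ξ (π i))
    (hβ0 : finrank (ZMod p)
      (Coh (ZMod p) (fun n => C n → ZMod p) (fun n => altd (ZMod p) face n) 0) ≤ 1)
    (j j' c : ℕ) (hj1 : 1 ≤ j) (hj2 : j < p) (hj1' : 1 ≤ j') (hj2' : j' < p) (hc : ζ ^ c ≠ 1)
    (hβ : ∀ q, 1 ≤ q → ∀ w, w = wj p j (q + 1) ∨ w = c + wj p j' q → finrank (ZMod p)
      (Coh (ZMod p) (fun n => C n → ZMod p) (fun n => altd (ZMod p) face n) q) <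
        orderOf (p : ZMod (orderOf (ζ ^ w))) ∨ (ζ ^ w ≠ 1 ∧
      ∀ b ∈ LinearMap.ker (altd (ZMod p) face q), (fun σ => b (s q σ)) - b ∈
        cobound (ZMod p) (fun n => C n → ZMod p) (fun n => altd (ZMod p) face n) q))
    (hX : ∀ q (σ : C q), σ ∉ FixP p k (C q) → ∃ χ : Fin k → ZMod p,
      (∀ g : GG p k, g • σ = σ → ∑ i, χ i * g.toAdd i = 0) ∧
        ∑ i, algebraMap (ZMod p) K (χ i) * ξ i ≠ 0) :
    (∃ q, ∃ σ : C q, ∀ χ : Fin k → ZMod p,
      (∀ g : GG p k, g • σ = σ → ∑ i, χ i * g.toAdd i = 0) →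
        ∑ i, algebraMap (ZMod p) K (χ i) * ξ i = 0) ∧
    ∀ ψ : C 0 → K, (∀ σ : C 1, σ ∈ FixP p k (C 1) → ψ (face 0 0 σ) = ψ (face 0 1 σ)) →
      ∀ v : C 0, v ∈ FixP p k (C 0) →
        ∑ x, ψ x * Pr (s 0) ℓ (ζ ^ c) (Pi.single v 1) x = 0 := by
  classical
  have hℓ0 : ℓ ≠ 0 := by rintro rfl; exact hℓ Nat.cast_zero
  have hζw : ∀ w, (ζ ^ w) ^ ℓ = 1 := by
    intro w
    rw [← pow_mul, mul_comm, pow_mul, hζ, one_pow]
  have hfo : ∀ w, IsOfFinOrder (ζ ^ w) := fun w =>
    isOfFinOrder_iff_pow_eq_one.2 ⟨ℓ, Nat.pos_of_ne_zero hℓ0, hζw w⟩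
  have hcop : p.Coprime ℓ := by
    rw [(Fact.out : p.Prime).coprime_iff_not_dvd]
    intro hdvd
    apply hℓ
    have : CharP K p := charP_of_injective_algebraMap (algebraMap (ZMod p) K).injective p
    exact (CharP.cast_eq_zero_iff K p ℓ).2 hdvd
  have hpos : ∀ w, 0 < orderOf (p : ZMod (orderOf (ζ ^ w))) := fun w =>
    ord_pos hcop hℓ0 (orderOf_dvd_of_pow_eq_one (hζw _))
  have hequi : ∀ q (g : GG p k) (τ : XX C q) (σ : XX C (q + 1)),
      bdm p face q (g • τ) (g • σ) = bdm p face q τ σ := by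
    intro q g τ σ
    cases q with
    | zero => rfl
    | succ q =>
      change C q at τ
      change C (q + 1) at σ
      show (∑ i : Fin (q + 2), if face q i (g • σ) = g • τ then (-1 : ZMod p) ^ (i : ℕ) else 0) =
        ∑ i : Fin (q + 2), if face q i σ = τ then (-1 : ZMod p) ^ (i : ℕ) else 0
      refine Finset.sum_congr rfl fun i _ => ?_
      rw [hact]
      simp only [smul_left_cancel_iff]
  have hsX : ∀ q x, (sX s q)^[ℓ] x = x := by
    intro q x
    cases q with
    | zero => rfl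
    | succ q => exact hs q x
  have hπX : ∀ q i (x : XX C q), gen p k i • sX s q x = sX s q (gen p k (π i) • x) := by
    intro q i x
    cases q with
    | zero => rfl
    | succ q => exact hπ q i x
  constructor
  · obtain ⟨q, σ, h⟩ := core1 (X := XX C) (k := k) Pool.Agent.E8helper86.ZB.ex K ξ
      (bdm p face) (bdm_bdm face hface) hequi PUnit.unit (fun _ _ => rfl) v (fun _ => rfl) N hN
      (sX s) (ℓ := ℓ) hsX (sX_bd face s hsf) π hπX ζ hζ hℓ hξ j hj1 hj2
      (fun q y hy hsy => semiE face hface v s hsf K hβ0 q _ (hfo _) (hpos _)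
        (fun hq => hβ q hq _ (Or.inl rfl)) y hy hsy)
    exact ⟨q, σ, h⟩
  · intro ψ hψ v hv
    obtain ⟨r, hr, hr'⟩ := core2 (X := XX C) (k := k) Pool.Agent.E8helper86.ZB.ex K ξ
      (bdm p face) (bdm_bdm face hface) hequi (fun _ _ => rfl) N hN
      (sX s) (ℓ := ℓ) hsX (sX_bd face s hsf) π hπX ζ hζ hℓ hξ j' hj1' hj2' c hc
      (fun q y hy hsy => semiE face hface v s hsf K hβ0 q _ (hfo _) (hpos _)
        (fun hq => hβ q hq _ (Or.inr rfl)) y hy hsy)
      (fun q σ hσ => hX q σ hσ)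
      (fun q τ σ hne hσ => by
        change C q at τ
        change C (q + 1) at σ
        have h1 : (∑ i : Fin (q + 2), if face q i σ = τ then (-1 : ZMod p) ^ (i : ℕ) else 0) ≠ 0 :=
          hne
        obtain ⟨i, _, hi⟩ := Finset.exists_ne_zero_of_sum_ne_zero h1
        have h2 : face q i σ = τ := by
          by_contra h
          exact hi (if_neg h)
        intro g
        have h3 : (g • σ : C (q + 1)) = σ := hσ g
        show (g • τ : C q) = τ
        rw [← h2, ← hact, h3]) v hv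
    have h1 : ∑ x, ψ x * Pr (s 0) ℓ (ζ ^ c) (Pi.single v 1) x =
        ∑ x : XX C 1, ψ x * ex K (bdm p face 1) r x := by
      rw [hr']
      rfl
    rw [h1]
    simp only [ex_apply, Finset.mul_sum]
    rw [Finset.sum_comm]
    refine Finset.sum_eq_zero fun σ _ => ?_
    by_cases hσ : σ ∈ FixP p k (XX C 2)
    · change C 1 at σ
      have h2 : ∀ x : C 0, ψ x * (algebraMap (ZMod p) K (bdm p face 1 x σ) * r σ) =
          r σ * ((if face 0 0 σ = x then ψ x else 0) - if face 0 1 σ = x then ψ x else 0) := by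
        intro x
        have h3 : bdm p face 1 x σ = (if face 0 0 σ = x then 1 else 0) -
            if face 0 1 σ = x then 1 else 0 := by
          show (∑ i : Fin 2, if face 0 i σ = x then (-1 : ZMod p) ^ (i : ℕ) else 0) = _
          rw [Fin.sum_univ_two]
          simp only [Fin.val_zero, pow_zero, Fin.val_one, pow_one]
          split_ifs <;> ring
        rw [h3, map_sub]
        split_ifs <;> simp <;> ring
      have h4 : ∑ x : C 0, ψ x * (algebraMap (ZMod p) K (bdm p face 1 x σ) * r σ) = 0 := by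
        simp only [h2]
        rw [← Finset.mul_sum, Finset.sum_sub_distrib, Finset.sum_ite_eq, Finset.sum_ite_eq,
          if_pos (Finset.mem_univ _), if_pos (Finset.mem_univ _), hψ σ hσ, sub_self, mul_zero]
      exact h4
    · rw [hr σ hσ]
      simp

end aug

/-- **Weights for posets.** -/
theorem posB {p k : ℕ} [Fact p.Prime] (G : Type) [Group G] (P : Type) [PartialOrder P]
    [MulAction G P] (Q : Set P)
    (hQ : Q.Finite) (hne : Q.Nonempty) (hmono : ∀ g : G, StrictMono (fun x : P => g • x))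
    (hmem : ∀ (g : G), ∀ x ∈ Q, g • x ∈ Q) (φ : GG p k →* G) (s : G) {ℓ : ℕ} (hs : s ^ ℓ = 1)
    (π : Equiv.Perm (Fin k)) (hπ : ∀ i, φ (gen p k i) * s = s * φ (gen p k (π i)))
    (K : Type) [Field K] [Algebra (ZMod p) K] (ξ : Fin k → K)
    (ζ : K) (hζ : ζ ^ ℓ = 1) (hℓ : (ℓ : K) ≠ 0) (hξ : ∀ i, ξ i = ζ * ξ (π i))
    (hβ0 : finrank (ZMod p) (OrdCoh (ZMod p) Q 0) ≤ 1)
    (j j' c : ℕ) (hj1 : 1 ≤ j) (hj2 : j < p) (hj1' : 1 ≤ j') (hj2' : j' < p) (hc : ζ ^ c ≠ 1)
    (hβ : ∀ q, 1 ≤ q → ∀ w, w = wj p j (q + 1) ∨ w = c + wj p j' q →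
      finrank (ZMod p) (OrdCoh (ZMod p) Q q) < orderOf (p : ZMod (orderOf (ζ ^ w))) ∨
      (ζ ^ w ≠ 1 ∧
      ∀ b ∈ LinearMap.ker (altd (ZMod p) (cface (Q := Q)) q),
        (fun c => b (chact hmono hmem s q c)) - b ∈ cobound (ZMod p) (fun n => Ch Q n → ZMod p)
          (fun n => altd (ZMod p) (cface (Q := Q)) n) q))
    (hGen : ∀ H : Subgroup (GG p k), (∀ g, φ g = 1 → g ∈ H) → H ≠ ⊤ → ∃ χ : Fin k → ZMod p,
      (∀ g ∈ H, ∑ i, χ i * (Multiplicative.toAdd g) i = 0) ∧
        ∑ i, algebraMap (ZMod p) K (χ i) * ξ i ≠ 0) :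
    (∃ x ∈ Q, ∀ g : GG p k, φ g • x = x) ∧
    ∀ (Y : Type) (T : P → Y), (∀ x ∈ Q, ∀ y ∈ Q, (∀ g, φ g • x = x) → (∀ g, φ g • y = y) →
        x < y → T x = T y) →
      ∀ x ∈ Q, (∀ g : GG p k, φ g • x = x) → ∃ i, 0 < i ∧ i < ℓ ∧ T ((s ^ i)⁻¹ • x) = T x := by
  classical
  have hfin : ∀ n, Finite (Ch Q n) := finite_Ch hQ
  let : ∀ n, Fintype (Ch Q n) := fun n => Fintype.ofFinite _
  let actG : ∀ n, MulAction G (Ch Q n) := fun n =>
    { smul := fun g c => chact hmono hmem g n c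
      one_smul := fun c => Subtype.ext (funext fun i => by
        show (1 : G) • c.1 i = c.1 i
        rw [one_smul])
      mul_smul := fun g h c => Subtype.ext (funext fun i => by
        show (g * h) • c.1 i = g • h • c.1 i
        rw [mul_smul]) }
  let act : ∀ n, MulAction (GG p k) (Ch Q n) := fun n => MulAction.compHom (Ch Q n) φ
  have hact : ∀ n (g : GG p k) (c : Ch Q n), g • c = φ g • c := fun _ _ _ => rfl
  have hactv : ∀ n (g : G) (c : Ch Q n) (i : Fin (n + 1)), (g • c : Ch Q n).1 i = g • c.1 i :=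
    fun _ _ _ _ => rfl
  obtain ⟨x, hx⟩ := hne
  let vtx : ∀ x ∈ Q, Ch Q 0 := fun x hx => ⟨fun _ => x,
    (Subsingleton.strictMono _ : StrictMono (fun _ : Fin 1 => x)), fun _ => hx⟩
  have hit : ∀ (n m : ℕ) (c : Ch Q n), (MulAction.toPerm s)^[m] c = s ^ m • c := by
    intro n m
    induction m with
    | zero => intro c; rw [pow_zero, one_smul]; rfl
    | succ m ih =>
      intro c
      rw [Function.iterate_succ_apply', ih, pow_succ', mul_smul]
      rfl
  have hXX : ∀ q (σ : Ch Q q), σ ∉ FixP p k (Ch Q q) → ∃ χ : Fin k → ZMod p,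
      (∀ g : GG p k, g • σ = σ → ∑ i, χ i * g.toAdd i = 0) ∧
        ∑ i, algebraMap (ZMod p) K (χ i) * ξ i ≠ 0 := by
    intro q σ hσ
    obtain ⟨χ, h1, h2⟩ := hGen (MulAction.stabilizer (GG p k) σ) (fun g hg => by
      rw [MulAction.mem_stabilizer_iff, hact, hg, one_smul]) (fun h => hσ fun g => by
      have : g ∈ MulAction.stabilizer (GG p k) σ := by rw [h]; trivial
      exact this)
    exact ⟨χ, fun g hg => h1 g hg, h2⟩
  obtain ⟨hA, hB⟩ := semiB (p := p) (k := k) (C := Ch Q) (cface (Q := Q))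
    (fun n i j c hij => cface_cface n i j c hij) (fun n i g c => rfl) (vtx x hx) Q.ncard
    (fun q hq => isEmpty_Ch hQ q hq) (fun n => MulAction.toPerm s) (fun n i c => rfl) (ℓ := ℓ)
    (fun n c => by
      have := hit n ℓ c
      rwa [hs, one_smul] at this) π
    (fun n i c => by
      rw [hact, MulAction.toPerm_apply, MulAction.toPerm_apply, hact, smul_smul, smul_smul, hπ])
    K ξ ζ hζ hℓ hξ hβ0 j j' c hj1 hj2 hj1' hj2' hc hβ hXX
  constructor
  · obtain ⟨q, σ, h⟩ := hA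
    refine ⟨σ.1 0, σ.2.2 0, fun g => ?_⟩
    by_contra hg
    have hσ : σ ∉ FixP p k (Ch Q q) := by
      intro h1
      exact hg (congrArg (fun c : Ch Q q => c.1 0) (h1 g))
    obtain ⟨χ, h1, h2⟩ := hXX q σ hσ
    exact h2 (h χ h1)
  · intro Y T hT x hx hxf
    by_contra hcon
    push Not at hcon
    have hℓ0 : 0 < ℓ := Nat.pos_of_ne_zero (by rintro rfl; exact hℓ Nat.cast_zero)
    let ψ : Ch Q 0 → K := fun c => if T (c.1 0) = T x then 1 else 0
    have h1 := hB ψ (fun σ hσ => by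
      have e0 : (cface (Q := Q) 0 0 σ).1 0 = σ.1 1 := rfl
      have e1 : (cface (Q := Q) 0 1 σ).1 0 = σ.1 0 := rfl
      have h2 : T (σ.1 0) = T (σ.1 1) := hT _ (σ.2.2 0) _ (σ.2.2 1)
        (fun g => congrArg (fun c : Ch Q 1 => c.1 0) (hσ g))
        (fun g => congrArg (fun c : Ch Q 1 => c.1 1) (hσ g))
        (σ.2.1 (by decide))
      show (if T ((cface (Q := Q) 0 0 σ).1 0) = T x then (1 : K) else 0) =
        if T ((cface (Q := Q) 0 1 σ).1 0) = T x then 1 else 0
      rw [e0, e1, h2]) (vtx x hx) (fun g => Subtype.ext (funext fun i => hxf g))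
    have h2 : ∀ y : Ch Q 0, Pr (MulAction.toPerm s : Ch Q 0 ≃ Ch Q 0) ℓ (ζ ^ c)
        (Pi.single (vtx x hx) 1) y = (ℓ : K)⁻¹ * ∑ i ∈ Finset.range ℓ, ((ζ ^ c)⁻¹) ^ i *
          (if y = (s ^ i)⁻¹ • vtx x hx then 1 else 0) := by
      intro y
      unfold Pr
      rw [LinearMap.smul_apply, Pi.smul_apply, LinearMap.sum_apply, Finset.sum_apply, smul_eq_mul]
      congr 1
      refine Finset.sum_congr rfl fun i _ => ?_
      rw [LinearMap.smul_apply, Pi.smul_apply, pb_pow, pb_apply, smul_eq_mul, hit]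
      congr 1
      by_cases h : y = (s ^ i)⁻¹ • vtx x hx
      · rw [if_pos h, h, smul_inv_smul, Pi.single_eq_same]
      · rw [if_neg h, Pi.single_eq_of_ne]
        intro h'
        exact h (by rw [← h', inv_smul_smul])
    simp only [h2] at h1
    have h3 : ∀ i, ∑ y : Ch Q 0, ψ y * (if y = (s ^ i)⁻¹ • vtx x hx then (1 : K) else 0) =
        if T ((s ^ i)⁻¹ • x) = T x then 1 else 0 := by
      intro i
      rw [Finset.sum_eq_single ((s ^ i)⁻¹ • vtx x hx)]
      · rw [if_pos rfl, mul_one]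
        rfl
      · intro y _ hy
        rw [if_neg hy, mul_zero]
      · intro h
        exact absurd (Finset.mem_univ _) h
    have h4 : ∑ y : Ch Q 0, ψ y * ((ℓ : K)⁻¹ * ∑ i ∈ Finset.range ℓ, ((ζ ^ c)⁻¹) ^ i *
          (if y = (s ^ i)⁻¹ • vtx x hx then 1 else 0)) =
        (ℓ : K)⁻¹ * ∑ i ∈ Finset.range ℓ, ((ζ ^ c)⁻¹) ^ i *
          (if T ((s ^ i)⁻¹ • x) = T x then 1 else 0) := by
      rw [Finset.mul_sum]
      have h5 : ∀ y : Ch Q 0, ψ y * ((ℓ : K)⁻¹ * ∑ i ∈ Finset.range ℓ, ((ζ ^ c)⁻¹) ^ i *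
          (if y = (s ^ i)⁻¹ • vtx x hx then 1 else 0)) =
          ∑ i ∈ Finset.range ℓ, (ℓ : K)⁻¹ * (((ζ ^ c)⁻¹) ^ i *
            (ψ y * (if y = (s ^ i)⁻¹ • vtx x hx then 1 else 0))) := by
        intro y
        rw [Finset.mul_sum, Finset.mul_sum]
        exact Finset.sum_congr rfl fun i _ => by ring
      simp only [h5]
      rw [Finset.sum_comm]
      refine Finset.sum_congr rfl fun i _ => ?_
      rw [← Finset.mul_sum, ← Finset.mul_sum, h3]
    rw [h4] at h1
    have h6 : ∑ i ∈ Finset.range ℓ, ((ζ ^ c)⁻¹) ^ i *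
          (if T ((s ^ i)⁻¹ • x) = T x then (1 : K) else 0) = 1 := by
      rw [Finset.sum_eq_single 0]
      · rw [pow_zero, pow_zero, inv_one, one_smul, if_pos rfl, one_mul]
      · intro i hi h0
        rw [if_neg (hcon i (Nat.pos_of_ne_zero h0) (Finset.mem_range.1 hi)), mul_zero]
      · intro h
        exact absurd (Finset.mem_range.2 hℓ0) h
    rw [h6, mul_one] at h1
    exact hℓ (inv_eq_zero.1 h1)

end Pool.Agent.Helper31.Zim
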