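import Pool.Agent.Helper31.Zim.El

/-!
# The statements
-/

set_option autoImplicit false

namespace Pool.Agent.Helper31.Zim

open Module Matrix NumberField Pool.Agent.Helper381 Pool.Agent.H185.ZM Pool.Agent.E8helper2.ZB
  Pool.Agent.E8helper72.ZO
open scoped Manifold ContDiff

section

variable (E : Type) [NormedAddCommGroup E] [NormedSpace ℝ E] [FiniteDimensional ℝ E]
  (M : Type) [TopologicalSpace M] [ChartedSpace E M] (p ℓ : ℕ)

/-- Let `α` be a homomorphism from a group `G` to the group of diffeomorphisms of `M`, `A` a finite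
abelian subgroup of exponent `p`, `s ∈ G`, `s ^ ℓ = 1`, `s A s⁻¹ ⊆ A` and assume the condition
`GoodAt` in the degrees `q = 1, ..., dim M`. Then the commutators of `s` with the elements of `A`
act trivially. If `s` does not centralize `A` then there is an element of the kernel which is not
central, and `α` has finite image if the normal subgroups of `G` are central or of finite index. -/
def GroupCase : Prop :=
  ∀ (G : Type) [Group G] (α : G → (M ≃ₘ^∞⟮𝓘(ℝ, E), 𝓘(ℝ, E)⟯ M)), IsHom α →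
    ∀ (A : Subgroup G) [Finite A] (s : G), (∀ x ∈ A, x ^ p = 1) →
      (∀ x ∈ A, ∀ y ∈ A, x * y = y * x) → s ^ ℓ = 1 → (∀ x ∈ A, s * x * s⁻¹ ∈ A) →
      (∀ q, 1 ≤ q → q ≤ finrank ℝ E → GoodAt p ℓ α s q) →
      (∀ x ∈ A, ∀ y, α (s * x * s⁻¹ * x⁻¹) y = y) ∧
      ((∃ x ∈ A, s * x ≠ x * s) → BigKernel α)

/-- `FiniteActionsCyc` for the groups which contain `SO(f; R)`, `f` a diagonal quadratic form in
`n ≥ ℓ` variables whose first `ℓ` coefficients are equal. -/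
def OrthogonalCase : Prop :=
  ∀ (F : Type) [CommRing F] (R : Subring F) (n : ℕ) (f : Fin n → F)
    (Δ : Subgroup (Matrix (Fin n) (Fin n) F)ˣ), (2 : F) ≠ 0 → ℓ ≤ n →
    (∀ i j : Fin n, i.val < ℓ → j.val < ℓ → f i = f j) → SOG R f ≤ Δ →
      FiniteActionsCyc E M p ℓ (-1 : F) Δ

/-- `FiniteActionsCyc` for the groups which contain `SU(h; R)`, `h` a diagonal hermitian form in
`n ≥ ℓ` variables over a commutative ring whose first `ℓ` coefficients are equal, `z ∈ R`,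
`z ^ p = 1`, `z ≠ 1`, `z* z = 1`. -/
def SpecialUnitaryCase : Prop :=
  ∀ (F : Type) [CommRing F] [StarRing F] (R : Subring F) (z : F) (n : ℕ) (h : Fin n → F)
    (Δ : Subgroup (Matrix (Fin n) (Fin n) F)ˣ), z ∈ R → z ^ p = 1 → z ≠ 1 → star z * z = 1 →
    ℓ ≤ n → (∀ i j : Fin n, i.val < ℓ → j.val < ℓ → h i = h j) → SUG R h ≤ Δ →
      FiniteActionsCyc E M p ℓ z Δ

/-- `FiniteActionsCyc` for the groups which contain `U(h; R)`, `h` a diagonal form in `n ≥ ℓ`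
variables over a ring with involution whose first `ℓ` coefficients are equal, `z ∈ R`, `z ^ p = 1`,
`z ≠ 1`, `z* h_i z = h_i`. -/
def UnitaryCase : Prop :=
  ∀ (F : Type) [Ring F] [StarRing F] (R : Subring F) (z : F) (n : ℕ) (h : Fin n → F)
    (Δ : Subgroup (Matrix (Fin n) (Fin n) F)ˣ), z ∈ R → z ^ p = 1 → z ≠ 1 →
    (∀ i, star z * h i * z = h i) → ℓ ≤ n →
    (∀ i j : Fin n, i.val < ℓ → j.val < ℓ → h i = h j) → UG R h ≤ Δ →
      FiniteActionsCyc E M p ℓ z Δ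

/-- Let `Γ` be a group of matrices which contains the diagonal matrices with entries `z ^ d_i`,
`p ∣ ∑ d_i`, `d_i = 0` for `i ≥ ℓ`, and the cyclic permutation of the first `ℓ` coordinates, and let
`Δ` be a group such that `[Γ : Γ ∩ Δ]` is finite, not divisible by `ℓ` and less than
`p ^ (ℓ - 1)`. Let `α : Δ → Diff(M)` be a homomorphism such that the conjugates in `Δ` of the cyclic
permutation satisfy `GoodAt` in the degrees `1, ..., dim M`. Then the kernel contains an element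
which is not central, and `α` has finite image if the normal subgroups of `Δ` are central or of
finite index. -/
def FiniteIndexCase : Prop :=
  ∀ (F : Type) [Ring F] (z : F) (n : ℕ) (Γ Δ : Subgroup (Matrix (Fin n) (Fin n) F)ˣ),
    z ^ p = 1 → z ≠ 1 → ℓ ≤ n → HasCyc z p ℓ Γ → ¬ ℓ ∣ Δ.relIndex Γ →
    Δ.relIndex Γ < p ^ (ℓ - 1) →
    ∀ α : Δ → (M ≃ₘ^∞⟮𝓘(ℝ, E), 𝓘(ℝ, E)⟯ M), IsHom α → RotHyp p ℓ Γ Δ α → BigKernel α

/-- Let `O` be the ring of integers of a number field which contains `z ≠ 1`, `z ^ p = 1`, and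
`E_n(O)`, `n ≥ ℓ`, the group generated by the elementary matrices. A homomorphism from `E_n(O)` to
`Diff(M)` has finite image if in each degree `q = 1, ..., dim M` the dimension of `H^q(M; ℤ/p)` is
less than `ℓ - 1` or the cyclic permutation of the first `ℓ` coordinates acts trivially on
`H^q(M; ℤ/p)`. -/
def ElementaryCase : Prop :=
  ∀ (F : Type) [Field F] [NumberField F] (z : 𝓞 F) (n : ℕ), z ^ p = 1 → z ≠ 1 → ℓ ≤ n →
    ∀ α : Q4.ZI.En (𝓞 F) n → (M ≃ₘ^∞⟮𝓘(ℝ, E), 𝓘(ℝ, E)⟯ M), IsHom α →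
      CycHyp p ℓ (Q4.ZI.En (𝓞 F) n) α → (Set.range α).Finite

end

section

variable {E : Type} [NormedAddCommGroup E] [NormedSpace ℝ E] [FiniteDimensional ℝ E]
  {M : Type} [TopologicalSpace M] [ChartedSpace E M] [IsManifold 𝓘(ℝ, E) ∞ M]
  [CompactSpace M] [T2Space M] [ConnectedSpace M] {p ℓ : ℕ}

theorem groupCase (hp : p.Prime) (hℓ : ℓ.Prime) (hℓ2 : ℓ ≠ 2) (hpl : p ≠ ℓ)
    (hm : finrank ℝ E / 2 + ℓ / p + 1 < ℓ) : GroupCase E M p ℓ := by
  intro G _ α hα A _ s hA1 hA2 hs hsA hβ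
  exact ⟨fun x hx => genK hp hℓ hℓ2 hpl hα A hA1 hA2 s hs hsA hβ hm x hx,
    fun hne => genF hp hℓ hℓ2 hpl hα A hA1 hA2 s hs hsA hne hβ hm⟩

theorem orthogonalCase (hp : p = 2) (hℓ : ℓ.Prime) (hℓ2 : ℓ ≠ 2)
    (hm : finrank ℝ E / 2 + ℓ / p + 1 < ℓ) : OrthogonalCase E M p ℓ := by
  subst hp
  intro F _ R n f Δ h2 hn hf hΔ
  exact main_cyc Nat.prime_two hℓ hℓ2 (Ne.symm hℓ2) hm (by rw [neg_one_sq]) (neg_one_ne h2) hn
    (examplesW.1 F R n ℓ f hn hf (hℓ.odd_of_ne_two hℓ2)) (cycConj_SOG R f hℓ hℓ2 hn hf) hΔ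

theorem specialUnitaryCase (hp : p.Prime) (hℓ : ℓ.Prime) (hℓ2 : ℓ ≠ 2) (hpl : p ≠ ℓ)
    (hm : finrank ℝ E / 2 + ℓ / p + 1 < ℓ) : SpecialUnitaryCase E M p ℓ := by
  intro F _ _ R z n h Δ hzR hz hz1 hzs hn hh hΔ
  exact main_cyc hp hℓ hℓ2 hpl hm hz hz1 hn
    (examplesW.2.1 F R z p n ℓ h hzR hz hzs hp.pos (hℓ.odd_of_ne_two hℓ2) hn hh)
    (cycConj_SUG R h hℓ hℓ2 hn hh) hΔ

theorem unitaryCase (hp : p.Prime) (hℓ : ℓ.Prime) (hℓ2 : ℓ ≠ 2) (hpl : p ≠ ℓ)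
    (hm : finrank ℝ E / 2 + ℓ / p + 1 < ℓ) : UnitaryCase E M p ℓ := by
  intro F _ _ R z n h Δ hzR hz hz1 hzh hn hh hΔ
  exact main_cyc hp hℓ hℓ2 hpl hm hz hz1 hn
    (examplesW.2.2 F R z p n ℓ h hzR hz hp.pos hzh hℓ.pos hn hh) (cycConj_UG' R h hℓ hn hh) hΔ

theorem finiteIndexCase (hp : p.Prime) (hℓ : ℓ.Prime) (hℓ2 : ℓ ≠ 2) (hpl : p ≠ ℓ)
    (hm : finrank ℝ E / 2 + ℓ / p + 1 < ℓ) : FiniteIndexCase E M p ℓ := by
  intro F _ z n Γ Δ hz hz1 hn hΓ hnd hlt α hα hβ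
  exact matFI hp hℓ hℓ2 hpl hm hz hz1 hn hΓ hnd hlt hα hβ

theorem elementaryCase (hp : p.Prime) (hℓ : ℓ.Prime) (hℓ2 : ℓ ≠ 2) (hpl : p ≠ ℓ)
    (hm : finrank ℝ E / 2 + ℓ / p + 1 < ℓ) : ElementaryCase E M p ℓ := by
  intro F _ _ z n hz hz1 hn α hα hβ
  exact (mainEn hp hℓ hℓ2 hpl hm F z hz hz1 hn α hα hβ).2

end

end Pool.Agent.Helper31.Zim
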