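import Pool.Agent.Helper31.Zim.Geo

/-!
# The characters which occur in the isotropy representations are locally constant
-/

set_option autoImplicit false
set_option linter.unusedSectionVars false

namespace Pool.Agent.Helper31.Zim

open Module Metric Set Pool.Agent.Helper381 Pool.Agent.H185.ZM Pool.Agent.E8helper2.ZB
open scoped Manifold ContDiff Topology

variable {E : Type} [NormedAddCommGroup E] [NormedSpace ℝ E] [FiniteDimensional ℝ E]
  {M : Type} [TopologicalSpace M] [ChartedSpace E M] [IsManifold 𝓘(ℝ, E) ∞ M]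
  {P : Type} [Group P] {a : P → M → M} {W : Type} [NormedAddCommGroup W]
  [InnerProductSpace ℝ W] {F : M → W} {T : P → W →L[ℝ] W}

/-- the projection between the tangent spaces of two near points is injective -/
theorem eventually_inj (h : EquiEmb E a W F T) (x : M) :
    ∀ᶠ y in 𝓝 x, ∀ v ∈ TS E F y, (TS E F x).orthogonalProjectionOnto v = 0 → v = 0 := by
  have hs : ContMDiff 𝓘(ℝ, E) 𝓘(ℝ, TS E F x) ∞ (phi E F x) :=
    ((TS E F x).orthogonalProjectionOnto).contDiff.contMDiff.comp h.smooth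
  -- the derivative
  let L : E ≃ₗ[ℝ] TS E F x := LinearEquiv.ofInjective (DF E F x : E →ₗ[ℝ] W) (h.imm x)
  let L' : E ≃L[ℝ] TS E F x := L.toContinuousLinearEquiv
  have d3 : MDifferentiableAt 𝓘(ℝ, E) 𝓘(ℝ, W) F x := (h.smooth _).mdifferentiableAt (by simp)
  have e3 := (((TS E F x).orthogonalProjectionOnto).hasFDerivAt (x := F x)).hasMFDerivAt.comp x
    d3.hasMFDerivAt
  have e4 : ((TS E F x).orthogonalProjectionOnto).comp (DF E F x) = (L' : E →L[ℝ] TS E F x) := by
    ext v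
    show ((TS E F x).orthogonalProjectionOnto (DF E F x v) : W) = (L v : W)
    have h5 := Submodule.orthogonalProjectionOnto_mem_subspace_eq_self
      (K := TS E F x) ⟨DF E F x v, mem_TS x v⟩
    exact congrArg Subtype.val h5
  let f : E → TS E F x := phi E F x ∘ (extChartAt 𝓘(ℝ, E) x).symm
  have e5 : HasFDerivAt f (L' : E →L[ℝ] TS E F x) (extChartAt 𝓘(ℝ, E) x x) := by
    have h6 := e3.2
    rw [← e4]
    have h7 : HasFDerivWithinAt (phi E F x ∘ (chartAt E x).symm)
      (((TS E F x).orthogonalProjectionOnto).comp (DF E F x)) univ (chartAt E x x) := by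
      simp only [writtenInExtChartAt, mfld_simps] at h6
      exact h6
    have h8 := h7.hasFDerivAt Filter.univ_mem
    simpa [f] using h8
  have e6 : ContDiffAt ℝ ∞ f (extChartAt 𝓘(ℝ, E) x x) :=
    Pool.Agent.H839R2.Geo.contDiffAt_chart hs x (mem_extChartAt_target x)
  have e7 : ContinuousAt (fderiv ℝ f) (extChartAt 𝓘(ℝ, E) x x) :=
    (e6.fderiv_right (m := 0) (by simp)).continuousAt
  have e8 : ∀ᶠ u in 𝓝 (extChartAt 𝓘(ℝ, E) x x), fderiv ℝ f u ∈
      range ((↑) : (E ≃L[ℝ] TS E F x) → E →L[ℝ] TS E F x) := by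
    apply e7
    rw [e5.fderiv]
    exact ContinuousLinearEquiv.nhds L'
  have e9 : ∀ᶠ y in 𝓝 x, fderiv ℝ f (extChartAt 𝓘(ℝ, E) x y) ∈
      range ((↑) : (E ≃L[ℝ] TS E F x) → E →L[ℝ] TS E F x) :=
    (continuousAt_extChartAt (I := 𝓘(ℝ, E)) x) e8
  have e10 : ∀ᶠ y in 𝓝 x, y ∈ (extChartAt 𝓘(ℝ, E) x).source :=
    extChartAt_source_mem_nhds (I := 𝓘(ℝ, E)) x
  filter_upwards [e9, e10] with y hy1 hy2
  rintro v ⟨w, rfl⟩ hv
  obtain ⟨e, he⟩ := hy1
  have d4 : HasFDerivAt f (fderiv ℝ f (extChartAt 𝓘(ℝ, E) x y)) (extChartAt 𝓘(ℝ, E) x y) := by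
    have := Pool.Agent.H839R2.Geo.contDiffAt_chart hs x ((extChartAt 𝓘(ℝ, E) x).map_source hy2)
    exact (this.differentiableAt (by simp)).hasFDerivAt
  have : IsManifold 𝓘(ℝ, E) 1 M := IsManifold.of_le (n := ∞) (by simp)
  have d5 : MDifferentiableAt 𝓘(ℝ, E) 𝓘(ℝ, E) (extChartAt 𝓘(ℝ, E) x) y := by
    apply mdifferentiableAt_extChartAt
    rwa [extChartAt_source] at hy2
  have d6 := d4.hasMFDerivAt.comp y d5.hasMFDerivAt
  have d7 : MDifferentiableAt 𝓘(ℝ, E) 𝓘(ℝ, W) F y := (h.smooth _).mdifferentiableAt (by simp)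
  have d8 := (((TS E F x).orthogonalProjectionOnto).hasFDerivAt (x := F y)).hasMFDerivAt.comp y
    d7.hasMFDerivAt
  have d9 : (⇑((TS E F x).orthogonalProjectionOnto) ∘ F) =ᶠ[𝓝 y] f ∘ extChartAt 𝓘(ℝ, E) x := by
    have : ∀ᶠ z in 𝓝 y, z ∈ (extChartAt 𝓘(ℝ, E) x).source :=
      (isOpen_extChartAt_source (I := 𝓘(ℝ, E)) x).mem_nhds hy2
    filter_upwards [this] with z hz
    show _ = phi E F x ((extChartAt 𝓘(ℝ, E) x).symm (extChartAt 𝓘(ℝ, E) x z))
    rw [(extChartAt 𝓘(ℝ, E) x).left_inv hz]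
    rfl
  have d10 := (d6.congr_of_eventuallyEq d9).mfderiv
  have d11 := d8.mfderiv
  have d12 : (fderiv ℝ f (extChartAt 𝓘(ℝ, E) x y))
      ((mfderiv 𝓘(ℝ, E) 𝓘(ℝ, E) (extChartAt 𝓘(ℝ, E) x) y : E →L[ℝ] E) w) =
      (TS E F x).orthogonalProjectionOnto (DF E F y w) :=
    congrArg (fun L : E →L[ℝ] TS E F x => L w) (d10.symm.trans d11)
  have hv' : (TS E F x).orthogonalProjectionOnto (DF E F y w) = 0 := hv
  rw [hv', ← he] at d12
  have d13 : (mfderiv 𝓘(ℝ, E) 𝓘(ℝ, E) (extChartAt 𝓘(ℝ, E) x) y : E →L[ℝ] E) w = 0 :=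
    e.injective (d12.trans (map_zero e).symm)
  obtain ⟨e', he'⟩ := isInvertible_mfderiv_extChartAt (I := 𝓘(ℝ, E)) hy2
  have d14 : w = 0 := by
    have h1 : e' w = 0 := (congrArg (fun L : E →L[ℝ] E => L w) he').trans d13
    exact e'.injective (h1.trans (map_zero e').symm)
  rw [d14, map_zero]

/-- the projection commutes with the isotropy group -/
theorem proj_act (h : EquiEmb E a W F T) (ha : SmoothAction E a) {p : P} {x : M}
    (hx : a p x = x) (v : W) :
    ((TS E F x).orthogonalProjectionOnto (T p v) : W) =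
      T p ((TS E F x).orthogonalProjectionOnto v) := by
  have h1 : ((TS E F x).orthogonalProjectionOnto (T p v) : W) =
    (TS E F x).starProjection (T p v) := rfl
  have h2 : ((TS E F x).orthogonalProjectionOnto v : W) = (TS E F x).starProjection v := rfl
  rw [h1, h2]
  apply Submodule.eq_starProjection_of_mem_of_inner_eq_zero
  · apply h.T_mem ha hx
    exact Submodule.starProjection_apply_mem _ _
  · intro w hw
    have h3 : T p (T p⁻¹ w) = w := by rw [← h.mul, mul_inv_cancel, h.one]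
    have h4 : T p⁻¹ w ∈ TS E F x := h.T_mem ha (inv_fix ha hx) hw
    rw [← map_sub, ← h3, h.isom]
    exact Submodule.starProjection_inner_eq_zero _ _ h4

end Pool.Agent.Helper31.Zim
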